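import Pool.Agent.Work.MP_a53b92_co.Final

set_option autoImplicit false

namespace Pool.Agent.MPa53b92

theorem q_explicit (q c lam y : ℤ) (hq : 2 ≤ q) (hc : 0 ≤ c) (hqy : q < y)
    (E2 : (c + 2*q) * (y - 1) = q * (lam - 1)) (E1 : c * (q+1) * lam = q * (c+q) * (c+q-1)) :
    1 ≤ c ∧ q ≤ 5 + 30^5*(2*14^2*5^2*13^3)*((10^20)^20)^18 := by
  have hRpos : (1:ℤ) ≤ (10^20)^20 := one_le_pow₀ (one_le_pow₀ (by norm_num))
  obtain ⟨R, hR⟩ : ∃ R : ℤ, R = (10^20)^20 := ⟨_, rfl⟩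
  rw [← hR] at hRpos ⊢
  have hQpos : 0 ≤ 30^5*(2*14^2*5^2*13^3)*R^18 := by positivity
  have hq0 : 0 < q := by linarith
  have hc1 : 1 ≤ c := by
    by_contra hcon
    have hc0 : c = 0 := by omega
    subst hc0
    have h1 : q * (q * (q - 1)) = 0 := by linear_combination -E1
    have h2 : 0 < q * (q * (q - 1)) := mul_pos hq0 (mul_pos hq0 (by linarith))
    linarith
  refine ⟨hc1, ?_⟩
  obtain ⟨V, N, h, A1, A3, A4, A5⟩ := integral_quantities q c lam y E1 E2 (by omega)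
  obtain ⟨hV, hl, hy, hN⟩ := numerators q c lam y V N h E1 E2 A1 A3 A4
  rcases (show y = q + 1 ∨ q + 2 ≤ y by omega) with hy1 | hy2
  · have hlam : lam = c + 2*q + 1 := by
      have h1 : q * (lam - (c + 2*q + 1)) = 0 := by
        rw [hy1] at E2; linear_combination -E2
      rcases mul_eq_zero.mp h1 with h | h
      · exact absurd h hq0.ne'
      · linarith
    have h2 : (2*(c+2*q)+1)^2 = 4*y^3 - 4*y + 1 := by
      rw [hlam] at E1
      rw [hy1]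
      linear_combination 4*E1
    rcases elliptic_37a y _ (by linarith) h2 with h | h | h <;> linarith
  · by_cases hA : 30*c ≤ q
    · exact (region_A q c V N h hq hc1 hA A1 hV hN).elim
    · by_cases hB : c ≤ R*q
      · have := region_B R q c V N hRpos (by linarith) hc1 hB (by linarith) hV hN
        linarith
      · push Not at hB
        rw [hR] at hB
        exact (region_C q c lam y V N h hq hB.le E1 E2 A1 hV hN hl hy hy2).elim

/-- the bound for `q` as a power of ten -/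
theorem Q_le : (5 + 30^5*(2*14^2*5^2*13^3)*((10^20)^20)^18 : ℤ) ≤ 10 ^ 7216 := by
  obtain ⟨R, hR⟩ : ∃ R : ℤ, R = ((10^20)^20)^18 := ⟨_, rfl⟩
  have h1 : (1:ℤ) ≤ R := by rw [hR]; exact one_le_pow₀ (one_le_pow₀ (one_le_pow₀ (by norm_num)))
  have h2 : (10:ℤ) ^ 7216 = 10 ^ 16 * R := by
    rw [hR, ← pow_mul, ← pow_mul, ← pow_add]
  rw [h2, ← hR]
  nlinarith

theorem v_explicit (q c r lam y k v : ℤ) (hq : 2 ≤ q) (hc : 0 ≤ c) (hqy : q < y)
    (hk : k = (q+1)*y) (hr : r = (q+1)*lam + q + c)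
    (E2 : (c + 2*q) * (y - 1) = q * (lam - 1)) (E1 : c * (q+1) * lam = q * (c+q) * (c+q-1))
    (E3 : r * (k-1) = lam * (v-1)) : v ≤ 10 ^ 125000 := by
  obtain ⟨hc1, hq1⟩ := q_explicit q c lam y hq hc hqy E2 E1
  have hqQ' := hq1.trans Q_le
  obtain ⟨Q, hQd⟩ : ∃ Q : ℤ, Q = 10 ^ 7216 := ⟨_, rfl⟩
  have hQpow : (10:ℤ) ^ 125000 = 10 ^ (125000 - 7216 * 17) * Q ^ 17 := by
    rw [hQd, ← pow_mul, ← pow_add]
  have hQ1 : (1:ℤ) ≤ Q := by rw [hQd]; exact one_le_pow₀ (by norm_num)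
  have hqQ : q ≤ Q := by rw [hQd]; exact hqQ'
  rw [hQpow]
  clear hQpow hqQ' hQd hq1
  have hQ0 : 0 ≤ Q := by linarith
  have hq0 : 0 < q := by linarith
  have hc0 : 0 < c := by linarith
  have hcC : c ≤ Q ^ 3 := by
    have hd : c ∣ q^2*(q-1) := by
      refine ⟨(q+1)*lam - q*(c + 2*q - 1), ?_⟩
      linear_combination -E1
    have h1 : 0 < q^2*(q-1) := mul_pos (by positivity) (by linarith)
    have h2 := Int.le_of_dvd h1 hd
    have h3 : q^2*(q-1) ≤ q^3 := by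
      have : 0 < q^2 := by positivity
      linarith
    have h4 : q^3 ≤ Q^3 := pow_le_pow_left₀ hq0.le hqQ 3
    linarith
  have hpos : 0 < q * (c+q) * (c+q-1) := mul_pos (mul_pos hq0 (by linarith)) (by linarith)
  have hcX : 0 < c * (q+1) := mul_pos hc0 (by linarith)
  have hlam0 : 0 < lam := by
    rw [← E1] at hpos
    exact (mul_pos_iff_of_pos_left hcX).mp hpos
  have p3 : Q ≤ Q ^ 3 := by
    calc Q = Q ^ 1 := (pow_one Q).symm
      _ ≤ Q ^ 3 := pow_le_pow_right₀ hQ1 (by norm_num)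
  have p7 : (1:ℤ) ≤ Q ^ 7 := one_le_pow₀ hQ1
  have p8 : (1:ℤ) ≤ Q ^ 8 := one_le_pow₀ hQ1
  have hlam : lam ≤ 4 * Q ^ 7 := by
    have h1 : 1 * lam ≤ c * (q+1) * lam := mul_le_mul_of_nonneg_right hcX hlam0.le
    have h2 : q * (c+q) * (c+q-1) ≤ Q * (2 * Q ^ 3) * (2 * Q ^ 3) := by
      apply mul_le_mul _ (by linarith) (by linarith) (by positivity)
      exact mul_le_mul hqQ (by linarith) (by linarith) hQ0
    have h3 : Q * (2 * Q ^ 3) * (2 * Q ^ 3) = 4 * Q ^ 7 := by ring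
    linarith
  have hyY : y ≤ 5 * Q ^ 8 := by
    have h1 : 1 * (y-1) ≤ (c+2*q) * (y-1) := mul_le_mul_of_nonneg_right (by linarith) (by linarith)
    have h2 : q * (lam - 1) ≤ Q * (4 * Q ^ 7) := mul_le_mul hqQ (by linarith) (by linarith) hQ0
    have h3 : Q * (4 * Q ^ 7) = 4 * Q ^ 8 := by ring
    linarith
  have hkK : k ≤ 10 * Q ^ 9 := by
    have h1 : (q+1) * y ≤ (2 * Q) * (5 * Q ^ 8) := mul_le_mul (by linarith) hyY (by linarith) (by linarith)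
    have h3 : (2 * Q) * (5 * Q ^ 8) = 10 * Q ^ 9 := by ring
    linarith
  have hrR : r ≤ 10 * Q ^ 8 := by
    have h1 : (q+1)*lam ≤ (2 * Q) * (4 * Q ^ 7) := mul_le_mul (by linarith) hlam hlam0.le (by linarith)
    have h3 : (2 * Q) * (4 * Q ^ 7) = 8 * Q ^ 8 := by ring
    have p38 : Q ^ 3 ≤ Q ^ 8 := pow_le_pow_right₀ hQ1 (by norm_num)
    linarith
  have hr0 : 0 < r := by
    rw [hr]
    have : 0 < (q+1)*lam := mul_pos (by linarith) hlam0
    linarith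
  have hk0 : 1 ≤ k := by
    rw [hk]
    have : 0 < (q+1)*y := mul_pos (by linarith) (by linarith)
    linarith
  have h1 : r * (k-1) ≤ (10 * Q ^ 8) * (10 * Q ^ 9) :=
    mul_le_mul hrR (by linarith) (by linarith) (by positivity)
  have hv1 : 0 ≤ v - 1 := by
    have h2 : 0 ≤ lam * (v-1) := by
      rw [← E3]; exact mul_nonneg hr0.le (by linarith)
    exact nonneg_of_mul_nonneg_right h2 hlam0
  have h3 : 1 * (v-1) ≤ lam * (v-1) := mul_le_mul_of_nonneg_right hlam0 hv1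
  have h4 : (10 * Q ^ 8) * (10 * Q ^ 9) = 100 * Q ^ 17 := by ring
  have p17 : (1:ℤ) ≤ Q ^ 17 := one_le_pow₀ hQ1
  have h5 : (101:ℤ) * Q ^ 17 ≤ 10 ^ (125000 - 7216 * 17) * Q ^ 17 := by
    refine mul_le_mul_of_nonneg_right ?_ (by linarith)
    calc (101:ℤ) ≤ 10 ^ 3 := by norm_num
      _ ≤ 10 ^ (125000 - 7216 * 17) := pow_le_pow_right₀ (by norm_num) (by norm_num)
  linarith

theorem explicit_finiteness (v k lam y : ℕ) (B : Finset (Finset (Fin v)))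
    (hy : 2 ≤ y) (hk1 : 2 * y < k) (hk2 : k < y * (y + 1))
    (hcard : ∀ b ∈ B, b.card = k)
    (hlam : ∀ p q : Fin v, p ≠ q → (B.filter (fun b => p ∈ b ∧ q ∈ b)).card = lam)
    (hint : ∀ b ∈ B, ∀ c ∈ B, b ≠ c → (b ∩ c).card = 0 ∨ (b ∩ c).card = y)
    (h0 : ∃ b ∈ B, ∃ c ∈ B, b ≠ c ∧ (b ∩ c).card = 0)
    (h1 : ∃ b ∈ B, ∃ c ∈ B, b ≠ c ∧ (b ∩ c).card = y)
    (htri : ¬ ∃ a ∈ B, ∃ b ∈ B, ∃ c ∈ B, Disjoint a b ∧ Disjoint a c ∧ Disjoint b c) :
    v ≤ 10 ^ 125000 := by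
  obtain ⟨q, c, r, hq, hc, hqy, hk, hr, E2, E1, E3⟩ :=
    design_params k lam y B hy hk1 hk2 hcard hlam hint h0 h1 htri
  have h := v_explicit q c r lam y k v hq hc hqy hk hr E2 E1 E3
  have h2 : ((10 ^ 125000 : ℕ) : ℤ) = 10 ^ 125000 := by rw [Nat.cast_pow, Nat.cast_ofNat]
  rw [← h2] at h
  exact Int.ofNat_le.1 h

end Pool.Agent.MPa53b92
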