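import Mathlib

set_option autoImplicit false

namespace Pool.Agent.MPa53b92

/-- the integral quantities attached to a feasible parameter set -/
theorem integral_quantities (q c lam y : ℤ)
    (E1 : c * (q+1) * lam = q * (c+q) * (c+q-1)) (E2 : (c + 2*q) * (y - 1) = q * (lam - 1))
    (hX : q + 1 ≠ 0) :
    ∃ V N h : ℤ, h * (q+1) = (c-1)*(c-2) ∧
      V * (q+1) = (c+q)^2 - (c-1)*lam ∧
      N * (q+1) = y - 3 + 2*q + 4*c + h + (q+c)*V ∧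
      lam = 2 + V*(1+q) - 2*q - 3*c - h := by
  set h : ℤ := -c*lam + (c-1)*(c-2) + q*(2*c+q-2) with hh
  have A1 : h * (q+1) = (c-1)*(c-2) := by rw [hh]; linear_combination -E1
  set k1 : ℤ := lam - 1 - 2*(y-1) with hk1
  have A2 : (lam - 1) = (2-c)*(y-1) + (q+1)*k1 := by rw [hk1]; linear_combination E2
  set V : ℤ := h*y + 2*c - 1 + q - (c-1)*(lam+1-2*y) with hV
  have A3 : V * (q+1) = (c+q)^2 - (c-1)*lam := by
    have : (c-1)*(lam-1) = (q+1)*((c-1)*k1) - h*(q+1)*(y-1) := by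
      rw [A1]; linear_combination (c-1)*A2
    rw [hV]
    linear_combination this + A1
  set H : ℤ := h*y - c*k1 + 2*(c-1) + (q+1) - 2 with hH
  have B1 : (q+1)*H = h + 3*(c-1) + (2-c)*(y-1) := by
    rw [hH]; linear_combination y*A1 + c*A2 - hh
  refine ⟨V, 2 + V + H + y*(h*(y-4) + (c-1)*H) + (c-1) + h*(y-1) - (c-1)*k1 - h*(lam-1-2*y), h,
    A1, A3, ?_, ?_⟩
  · linear_combination (1+y*(c-1))*B1 + (y*(y-4)+(y-1)-(lam-1-2*y))*A1 + (c-1)*A2 + (c-1)*hV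
  · linear_combination (-1)*A3 + hh

/-- the numerators -/
theorem numerators (q c lam y V N h : ℤ)
    (E1 : c * (q+1) * lam = q * (c+q) * (c+q-1)) (E2 : (c + 2*q) * (y - 1) = q * (lam - 1))
    (A1 : h * (q+1) = (c-1)*(c-2)) (A3 : V * (q+1) = (c+q)^2 - (c-1)*lam)
    (A4 : N * (q+1) = y - 3 + 2*q + 4*c + h + (q+c)*V) :
    V * (c*(q+1)^2) = (c+q)*(c^2+3*c*q+q^2-q) ∧
    lam * (c*(q+1)) = q * (c+q) * (c+q-1) ∧
    y * (c*(q+1)*(c+2*q)) = c*(q+1)*(c+2*q) + q*(q * (c+q) * (c+q-1) - c*(q+1)) ∧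
    N * (c*(q+1)^3*(c+2*q)) = c^5 + 8*q*c^4 + 24*q^2*c^3 + 6*q*c^3 + 32*q^3*c^2 + 9*q^2*c^2 + c^3
      + 17*q^4*c - q^3*c + 2*q*c^2 + 3*q^5 - 2*q^4 - 3*q^2*c + c^4 - q^3 - q*c := by
  have e1 : V * (c*(q+1)^2) = (c+q)*(c^2+3*c*q+q^2-q) := by
    linear_combination c*(q+1)*A3 - (c-1)*E1
  have e2 : lam * (c*(q+1)) = q * (c+q) * (c+q-1) := by linear_combination E1
  have e3 : y * (c*(q+1)*(c+2*q)) = c*(q+1)*(c+2*q) + q*(q * (c+q) * (c+q-1) - c*(q+1)) := by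
    linear_combination c*(q+1)*E2 + q*E1
  refine ⟨e1, e2, e3, ?_⟩
  linear_combination c*(q+1)^2*(c+2*q)*A4 + (q+1)*e3 + c*(q+1)*(c+2*q)*A1 + (q+c)*(c+2*q)*e1

end Pool.Agent.MPa53b92
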