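import Mathlib

set_option autoImplicit false

namespace Pool.Agent.MPa53b92

open Finset

variable {v : ℕ}

/-- number of blocks containing both `p` and `q` (replication number if `p = q`) -/
def dd (B : Finset (Finset (Fin v))) (p q : Fin v) : ℤ :=
  ((B.filter (fun b => p ∈ b ∧ q ∈ b)).card : ℤ)

lemma dd_eq_sum (B : Finset (Finset (Fin v))) (p q : Fin v) :
    dd B p q = ∑ b ∈ B, (if p ∈ b then (1:ℤ) else 0) * (if q ∈ b then (1:ℤ) else 0) := by
  simp only [dd, card_filter]
  push_cast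
  refine sum_congr rfl fun b _ => ?_
  by_cases h1 : p ∈ b <;> by_cases h2 : q ∈ b <;> simp [h1, h2]

lemma card_inter_eq (b S : Finset (Fin v)) :
    ((b ∩ S).card : ℤ) = ∑ p ∈ S, (if p ∈ b then (1:ℤ) else 0) := by
  rw [inter_comm, ← filter_mem_eq_inter, card_filter]
  push_cast
  rfl

lemma sum_inter (B : Finset (Finset (Fin v))) (S T : Finset (Fin v)) :
    ∑ b ∈ B, ((b ∩ S).card : ℤ) * ((b ∩ T).card : ℤ) = ∑ p ∈ S, ∑ q ∈ T, dd B p q := by
  simp only [dd_eq_sum, card_inter_eq]
  have : ∀ b ∈ B, (∑ p ∈ S, (if p ∈ b then (1:ℤ) else 0)) * (∑ q ∈ T, (if q ∈ b then (1:ℤ) else 0))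
      = ∑ p ∈ S, ∑ q ∈ T, (if p ∈ b then (1:ℤ) else 0) * (if q ∈ b then (1:ℤ) else 0) := by
    intro b _
    rw [sum_mul_sum]
  rw [sum_congr rfl this, sum_comm]
  refine sum_congr rfl fun p _ => ?_
  rw [sum_comm]

lemma sum_inter_single (B : Finset (Finset (Fin v))) (S : Finset (Fin v)) :
    ∑ b ∈ B, ((b ∩ S).card : ℤ) = ∑ p ∈ S, dd B p p := by
  simp only [dd_eq_sum, card_inter_eq]
  rw [sum_comm]
  refine sum_congr rfl fun p _ => sum_congr rfl fun b _ => ?_
  by_cases h : p ∈ b <;> simp [h]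

/-- the parameter equations of a triangle-free quasi-symmetric design -/
theorem design_params (k lam y : ℕ) (B : Finset (Finset (Fin v)))
    (hy : 2 ≤ y) (hk1 : 2 * y < k) (hk2 : k < y * (y + 1))
    (hcard : ∀ b ∈ B, b.card = k)
    (hlam : ∀ p q : Fin v, p ≠ q → (B.filter (fun b => p ∈ b ∧ q ∈ b)).card = lam)
    (hint : ∀ b ∈ B, ∀ c ∈ B, b ≠ c → (b ∩ c).card = 0 ∨ (b ∩ c).card = y)
    (h0 : ∃ b ∈ B, ∃ c ∈ B, b ≠ c ∧ (b ∩ c).card = 0)
    (h1 : ∃ b ∈ B, ∃ c ∈ B, b ≠ c ∧ (b ∩ c).card = y)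
    (htri : ¬ ∃ a ∈ B, ∃ b ∈ B, ∃ c ∈ B, Disjoint a b ∧ Disjoint a c ∧ Disjoint b c) :
    ∃ q c r : ℤ, 2 ≤ q ∧ 0 ≤ c ∧ q < y ∧ (k:ℤ) = (q+1)*y ∧ r = (q+1)*lam + q + c ∧
      (c + 2*q) * (y - 1) = q * (lam - 1) ∧
      c * (q+1) * lam = q * (c+q) * (c+q-1) ∧ r * (k-1) = lam * (v-1) := by
  classical
  obtain ⟨b1, hb1, b2, hb2, hne, hdis⟩ := h0
  have hkpos : 0 < k := by omega
  -- there is a point
  have hvpos : 0 < v := by
    rcases Nat.eq_zero_or_pos v with h | h
    · subst h
      have := hcard b1 hb1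
      have h2 : b1 = ∅ := by
        apply eq_empty_of_forall_notMem; intro x; exact x.elim0
      rw [h2] at this; simp at this; omega
    · exact h
  -- replication number
  have hr : ∀ p : Fin v, dd B p p * (k - 1) = lam * (v - 1) := by
    intro p
    have h := sum_inter B {p} univ
    rw [sum_singleton] at h
    have hL : ∑ b ∈ B, ((b ∩ {p}).card : ℤ) * ((b ∩ univ).card : ℤ) = dd B p p * k := by
      have e : ∀ b ∈ B, ((b ∩ {p}).card : ℤ) * ((b ∩ univ).card : ℤ) = ((b ∩ {p}).card : ℤ) * k := by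
        intro b hb
        rw [inter_univ, hcard b hb]
      rw [sum_congr rfl e, ← sum_mul, sum_inter_single, sum_singleton]
    have hR : ∑ q : Fin v, dd B p q = dd B p p + (v - 1) * lam := by
      rw [← Finset.add_sum_erase univ _ (mem_univ p)]
      congr 1
      have e : ∀ q ∈ univ.erase p, dd B p q = lam := by
        intro q hq
        have : p ≠ q := (ne_of_mem_erase hq).symm
        simp only [dd, hlam p q this]
      rw [sum_congr rfl e, sum_const, card_erase_of_mem (mem_univ p), card_univ, Fintype.card_fin]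
      simp only [nsmul_eq_mul]
      rw [Nat.cast_sub hvpos]; simp
    rw [hL, hR] at h
    linarith
  set p0 : Fin v := ⟨0, hvpos⟩
  set r : ℤ := dd B p0 p0 with hrdef
  have hk1' : (0:ℤ) < (k:ℤ) - 1 := by
    have : (1:ℤ) < k := by exact_mod_cast (by omega : 1 < k)
    linarith
  have hrr : ∀ p : Fin v, dd B p p = r := by
    intro p
    have e1 := hr p
    have e2 := hr p0
    have : (dd B p p - r) * ((k:ℤ) - 1) = 0 := by rw [sub_mul, e1, e2]; ring
    rcases mul_eq_zero.mp this with h | h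
    · linarith
    · omega
  -- off-diagonal
  have hoff : ∀ p q : Fin v, p ≠ q → dd B p q = lam := by
    intro p q h; simp only [dd, hlam p q h]
  set bb : ℤ := (B.card : ℤ) with hbb
  -- (2)
  have hE2 : bb * k = v * r := by
    have h := sum_inter_single B univ
    have e : ∀ b ∈ B, ((b ∩ univ).card : ℤ) = k := by
      intro b hb; rw [inter_univ, hcard b hb]
    rw [sum_congr rfl e, sum_const] at h
    simp only [hrr, sum_const, card_univ, Fintype.card_fin, nsmul_eq_mul] at h
    exact h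
  -- single sums
  have hS1 : ∀ b0 ∈ B, ∑ b ∈ B, ((b ∩ b0).card : ℤ) = k * r := by
    intro b0 hb0
    rw [sum_inter_single]
    simp only [hrr, sum_const, nsmul_eq_mul, hcard b0 hb0]
  -- double sums
  have hS2 : ∀ S T : Finset (Fin v), ∑ p ∈ S, ∑ q ∈ T, dd B p q
      = (S.card : ℤ) * T.card * lam + ((S ∩ T).card : ℤ) * (r - lam) := by
    intro S T
    have e : ∀ p ∈ S, ∑ q ∈ T, dd B p q = (T.card : ℤ) * lam + (if p ∈ T then (r - lam) else 0) := by
      intro p _
      by_cases hp : p ∈ T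
      · rw [← Finset.add_sum_erase T _ hp, hrr p]
        have e2 : ∀ q ∈ T.erase p, dd B p q = lam := fun q hq =>
          hoff p q (ne_of_mem_erase hq).symm
        rw [sum_congr rfl e2, sum_const, card_erase_of_mem hp]
        have : 1 ≤ T.card := card_pos.mpr ⟨p, hp⟩
        simp only [nsmul_eq_mul, hp, if_true]
        rw [Nat.cast_sub this]; push_cast; ring
      · have e2 : ∀ q ∈ T, dd B p q = lam := fun q hq =>
          hoff p q (fun h => hp (h ▸ hq))
        rw [sum_congr rfl e2, sum_const]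
        simp [hp]
    rw [sum_congr rfl e, sum_add_distrib, sum_const, ← sum_filter, sum_const, filter_mem_eq_inter]
    simp only [nsmul_eq_mul]; ring
  -- values
  have hval : ∀ b0 ∈ B, ∀ b ∈ B, b ≠ b0 → ((b ∩ b0).card : ℤ) = 0 ∨ ((b ∩ b0).card : ℤ) = y := by
    intro b0 hb0 b hb hbne
    rcases hint b hb b0 hb0 hbne with h | h
    · left; exact_mod_cast h
    · right; exact_mod_cast h
  have hself : ∀ b0 ∈ B, ((b0 ∩ b0).card : ℤ) = k := by
    intro b0 hb0; rw [inter_self, hcard b0 hb0]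
  -- (3')
  have hE3 : (y:ℤ) ∣ k * (r - 1) := by
    have h := hS1 b1 hb1
    rw [← Finset.add_sum_erase B _ hb1, hself b1 hb1] at h
    have : k * (r - 1) = ∑ b ∈ B.erase b1, ((b ∩ b1).card : ℤ) := by linarith
    rw [this]
    refine dvd_sum fun b hb => ?_
    rcases hval b1 hb1 b (mem_of_mem_erase hb) (ne_of_mem_erase hb) with h | h <;> rw [h]
    · exact dvd_zero _
  -- (4)
  have hE4 : ((y:ℤ) - 1) * (r - 1) = (k - 1) * (lam - 1) := by
    have hs1 := hS1 b1 hb1
    have hs2 := (sum_inter B b1 b1).trans (hS2 b1 b1)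
    rw [inter_self, hcard b1 hb1] at hs2
    have hz : ∑ b ∈ B.erase b1, ((b ∩ b1).card : ℤ) * ((y:ℤ) - (b ∩ b1).card) = 0 := by
      refine sum_eq_zero fun b hb => ?_
      rcases hval b1 hb1 b (mem_of_mem_erase hb) (ne_of_mem_erase hb) with h | h <;> rw [h] <;> simp
    rw [← Finset.add_sum_erase B _ hb1, hself b1 hb1] at hs1 hs2
    have e : ∑ b ∈ B.erase b1, ((b ∩ b1).card : ℤ) * ((y:ℤ) - (b ∩ b1).card)
        = y * ∑ b ∈ B.erase b1, ((b ∩ b1).card : ℤ)
          - ∑ b ∈ B.erase b1, ((b ∩ b1).card : ℤ) * ((b ∩ b1).card : ℤ) := by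
      rw [mul_sum, ← sum_sub_distrib]
      refine sum_congr rfl fun b _ => by ring
    rw [e] at hz
    have hkz : (k:ℤ) ≠ 0 := by exact_mod_cast hkpos.ne'
    have : (k:ℤ) * (((y:ℤ) - 1) * (r - 1) - (k - 1) * (lam - 1)) = 0 := by
      linear_combination hz - (y:ℤ) * hs1 + hs2
    rcases mul_eq_zero.mp this with h | h
    · exact absurd h hkz
    · linarith
  -- pair identity
  have hpair : ∀ c1 ∈ B, ∀ c2 ∈ B, c1 ≠ c2 →
      ∑ b ∈ (B.erase c1).erase c2, ((y:ℤ) - (b ∩ c1).card) * ((y:ℤ) - (b ∩ c2).card)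
      = y^2 * (bb - 2) - 2 * y * (k * r - k - (c1 ∩ c2).card)
        + ((k:ℤ)^2 * lam + (c1 ∩ c2).card * (r - lam) - 2 * k * (c1 ∩ c2).card) := by
    intro c1 hc1 c2 hc2 hcne
    have hc2' : c2 ∈ B.erase c1 := mem_erase.mpr ⟨hcne.symm, hc2⟩
    have hs1 := hS1 c1 hc1
    have hs2 := hS1 c2 hc2
    have hs3 := (sum_inter B c1 c2).trans (hS2 c1 c2)
    rw [hcard c1 hc1, hcard c2 hc2] at hs3
    rw [← Finset.add_sum_erase B _ hc1, ← Finset.add_sum_erase _ _ hc2'] at hs1 hs2 hs3
    rw [hself c1 hc1] at hs1 hs3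
    rw [hself c2 hc2] at hs2 hs3
    rw [inter_comm c2 c1] at hs1 hs3
    have hcardE : (((B.erase c1).erase c2).card : ℤ) = bb - 2 := by
      rw [card_erase_of_mem hc2', card_erase_of_mem hc1]
      have h1 : 1 ≤ (B.erase c1).card := card_pos.mpr ⟨c2, hc2'⟩
      rw [card_erase_of_mem hc1] at h1
      rw [hbb]; omega
    have e : ∑ b ∈ (B.erase c1).erase c2, ((y:ℤ) - (b ∩ c1).card) * ((y:ℤ) - (b ∩ c2).card)
        = y^2 * (((B.erase c1).erase c2).card : ℤ)
          - y * ∑ b ∈ (B.erase c1).erase c2, ((b ∩ c1).card : ℤ)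
          - y * ∑ b ∈ (B.erase c1).erase c2, ((b ∩ c2).card : ℤ)
          + ∑ b ∈ (B.erase c1).erase c2, ((b ∩ c1).card : ℤ) * ((b ∩ c2).card : ℤ) := by
      rw [mul_sum, mul_sum, mul_comm ((y:ℤ)^2), ← nsmul_eq_mul, ← sum_const, ← sum_sub_distrib,
        ← sum_sub_distrib, ← sum_add_distrib]
      refine sum_congr rfl fun b _ => by ring
    rw [e, hcardE]
    linear_combination (-(y:ℤ)) * hs1 - (y:ℤ) * hs2 + hs3
  -- (5)
  have hE5 : (y:ℤ)^2 * (bb - 2) - 2 * y * (k * r - k) + (k:ℤ)^2 * lam = 0 := by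
    have h := hpair b1 hb1 b2 hb2 hne
    have hz : ∑ b ∈ (B.erase b1).erase b2, ((y:ℤ) - (b ∩ b1).card) * ((y:ℤ) - (b ∩ b2).card) = 0 := by
      refine sum_eq_zero fun b hb => ?_
      have hbB : b ∈ B := mem_of_mem_erase (mem_of_mem_erase hb)
      have hn2 : b ≠ b2 := ne_of_mem_erase hb
      have hn1 : b ≠ b1 := ne_of_mem_erase (mem_of_mem_erase hb)
      rcases hval b1 hb1 b hbB hn1 with h1 | h1
      · rcases hval b2 hb2 b hbB hn2 with h2 | h2
        · exfalso
          apply htri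
          refine ⟨b, hbB, b1, hb1, b2, hb2, ?_, ?_, ?_⟩
          · rw [disjoint_iff_inter_eq_empty, ← card_eq_zero]; exact_mod_cast h1
          · rw [disjoint_iff_inter_eq_empty, ← card_eq_zero]; exact_mod_cast h2
          · rw [disjoint_iff_inter_eq_empty, ← card_eq_zero]; exact hdis
        · rw [h2]; ring
      · rw [h1]; ring
    rw [hz, hdis] at h
    push_cast at h
    linarith
  -- (6)
  obtain ⟨c1, hc1, c2, hc2, hcne, hcy⟩ := h1
  set C := (B.filter (fun b => Disjoint b c1 ∧ Disjoint b c2)) with hC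
  have hE6 : (y:ℤ) * C.card = 2 * y + (r - lam) - 2 * k := by
    have h := hpair c1 hc1 c2 hc2 hcne
    have hz : ∑ b ∈ (B.erase c1).erase c2, ((y:ℤ) - (b ∩ c1).card) * ((y:ℤ) - (b ∩ c2).card)
        = y^2 * C.card := by
      have e : ∀ b ∈ (B.erase c1).erase c2, ((y:ℤ) - (b ∩ c1).card) * ((y:ℤ) - (b ∩ c2).card)
          = if (Disjoint b c1 ∧ Disjoint b c2) then (y:ℤ)^2 else 0 := by
        intro b hb
        have hbB : b ∈ B := mem_of_mem_erase (mem_of_mem_erase hb)
        have hn2 : b ≠ c2 := ne_of_mem_erase hb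
        have hn1 : b ≠ c1 := ne_of_mem_erase (mem_of_mem_erase hb)
        have hypos : (0:ℤ) < y := by exact_mod_cast (by omega : 0 < y)
        rcases hval c1 hc1 b hbB hn1 with h1 | h1
        · have d1 : Disjoint b c1 := by
            rw [disjoint_iff_inter_eq_empty, ← card_eq_zero]; exact_mod_cast h1
          rcases hval c2 hc2 b hbB hn2 with h2 | h2
          · have d2 : Disjoint b c2 := by
              rw [disjoint_iff_inter_eq_empty, ← card_eq_zero]; exact_mod_cast h2
            rw [if_pos ⟨d1, d2⟩, h1, h2]; ring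
          · have d2 : ¬ Disjoint b c2 := by
              intro hd
              rw [disjoint_iff_inter_eq_empty, ← card_eq_zero] at hd
              rw [hd] at h2; push_cast at h2; linarith
            rw [if_neg (fun hh => d2 hh.2), h2]; ring
        · have d1 : ¬ Disjoint b c1 := by
            intro hd
            rw [disjoint_iff_inter_eq_empty, ← card_eq_zero] at hd
            rw [hd] at h1; push_cast at h1; linarith
          rw [if_neg (fun hh => d1 hh.1), h1]; ring
      rw [sum_congr rfl e, ← sum_filter, sum_const]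
      have hfe : ((B.erase c1).erase c2).filter (fun b => Disjoint b c1 ∧ Disjoint b c2) = C := by
        ext b
        simp only [mem_filter, mem_erase, hC]
        constructor
        · rintro ⟨⟨_, _, hb⟩, hd⟩; exact ⟨hb, hd⟩
        · rintro ⟨hb, hd⟩
          have key : ∀ c ∈ B, Disjoint c c → False := by
            intro c hc hd
            rw [disjoint_self] at hd
            have := hcard c hc
            rw [hd] at this; simp at this; omega
          refine ⟨⟨?_, ?_, hb⟩, hd⟩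
          · rintro rfl; exact key b hb hd.2
          · rintro rfl; exact key b hb hd.1
      rw [hfe]; simp only [nsmul_eq_mul]; ring
    rw [hz, hcy] at h
    have hyz : (y:ℤ) ≠ 0 := by exact_mod_cast (by omega : y ≠ 0)
    have : (y:ℤ) * ((y:ℤ) * C.card - (2 * y + (r - lam) - 2 * k)) = 0 := by
      linear_combination h + hE5
    rcases mul_eq_zero.mp this with h' | h'
    · exact absurd h' hyz
    · linarith
  have hc0 : (0:ℤ) ≤ (C.card : ℤ) := by positivity
  generalize (C.card : ℤ) = c at hE6 hc0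
  have hypos : (0:ℤ) < y := by exact_mod_cast (by omega : 0 < y)
  have hkposz : (0:ℤ) < k := by exact_mod_cast hkpos
  -- y divides k
  obtain ⟨a, ha⟩ := hE3
  have hquad : (y:ℤ)^2 * (bb - 2 - a) = (k:ℤ)^2 + (c-2) * y * k := by
    have h46 : (y:ℤ) * r - k * lam = k + y * (c-1) := by linear_combination hE4 - hE6
    linear_combination hE5 + (y:ℤ) * ha + (k:ℤ) * h46
  have hydvd : (y:ℤ) ∣ k := by
    have hgpos : 0 < Int.gcd (k:ℤ) (y:ℤ) := Int.gcd_pos_of_ne_zero_left _ hkposz.ne'
    obtain ⟨g, k', y', hg, hgcd, hkk, hyy⟩ := Int.exists_gcd_one' hgpos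
    have hgz : (g:ℤ) ≠ 0 := by exact_mod_cast hg.ne'
    have hq2 : y'^2 * (bb - 2 - a) = k'^2 + (c-2)*y'*k' := by
      have : (g:ℤ)^2 * (y'^2 * (bb - 2 - a) - (k'^2 + (c-2)*y'*k')) = 0 := by
        rw [hkk, hyy] at hquad
        linear_combination hquad
      rcases mul_eq_zero.mp this with h | h
      · exact absurd (pow_eq_zero_iff (by norm_num) |>.mp h) hgz
      · linarith
    have hd : y' ∣ k'^2 := ⟨y' * (bb-2-a) - (c-2)*k', by linear_combination -hq2⟩
    have hcop : IsCoprime y' (k'^2) := by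
      apply IsCoprime.pow_right
      rw [isCoprime_comm]
      exact Int.isCoprime_iff_gcd_eq_one.mpr hgcd
    have hu : IsUnit y' := hcop.isUnit_of_dvd' dvd_rfl hd
    rw [hkk, hyy]
    exact mul_dvd_mul_right (hu.dvd) _
  obtain ⟨m, hm⟩ := hydvd
  have hkz1 : (2:ℤ) * y < k := by exact_mod_cast hk1
  have hkz2 : (k:ℤ) < y * (y+1) := by exact_mod_cast hk2
  have hm2 : 2 < m := by
    by_contra hcon
    push Not at hcon
    have : (y:ℤ) * m ≤ y * 2 := mul_le_mul_of_nonneg_left hcon hypos.le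
    rw [← hm] at this
    linarith
  have hmy : m < (y:ℤ) + 1 := by
    by_contra hcon
    push Not at hcon
    have : (y:ℤ) * (y+1) ≤ y * m := mul_le_mul_of_nonneg_left hcon hypos.le
    rw [← hm] at this
    linarith
  have hmk : (k:ℤ) = (m - 1 + 1) * y := by rw [hm]; ring
  -- r formula
  have h46 : (y:ℤ) * r - k * lam = k + y * (c-1) := by linear_combination hE4 - hE6
  have hr1 : r = m * lam + m + c - 1 := by
    have : (y:ℤ) * (r - (m * lam + m + c - 1)) = 0 := by
      rw [hm] at h46; linear_combination h46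
    rcases mul_eq_zero.mp this with h | h
    · exact absurd h hypos.ne'
    · linarith
  have hE : (m-1) * lam + (m-1) + c = y * (c + 2*(m-1)) := by
    rw [hm, hr1] at hE6
    linear_combination -hE6
  have hb' : bb - 2 = m^2 * (lam + 2) + 2 * m * (c - 2) := by
    have h5 := hE5
    rw [hm, hr1] at h5
    have : (y:ℤ)^2 * (bb - 2 - (m^2 * (lam + 2) + 2 * m * (c - 2))) = 0 := by
      linear_combination h5
    rcases mul_eq_zero.mp this with h | h
    · exact absurd (pow_eq_zero_iff (by norm_num) |>.mp h) hypos.ne'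
    · linarith
  have hr0 := hr p0
  rw [← hrdef] at hr0
  have hF : bb * k * lam - r * lam - r^2 * (k-1) = 0 := by
    linear_combination (lam:ℤ) * hE2 - r * hr0
  have hb'' : bb = 2 + (m^2 * (lam + 2) + 2 * m * (c - 2)) := by linarith
  have hD : c * m * lam = (m-1) * (m-1+c-1) * (m-1+c) := by
    have : (y:ℤ) * (c * m * lam - (m-1) * (m-1+c-1) * (m-1+c)) = 0 := by
      rw [hm, hb'', hr1] at hF
      linear_combination hF - (m * lam + m + c - 1) * hE
    rcases mul_eq_zero.mp this with h | h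
    · exact absurd h hypos.ne'
    · linarith
  refine ⟨m-1, c, r, by omega, hc0, by omega, hmk, by rw [hr1]; ring, ?_, ?_, hr0⟩
  · linear_combination -hE
  · linear_combination hD

end Pool.Agent.MPa53b92
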