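import Mathlib

set_option autoImplicit false

namespace Pool.Agent.MPa53b92

/-- a ternary quadratic form with integer Gram matrix -/
def tq (g11 g12 g13 g22 g23 g33 a b c : ℤ) : ℤ :=
  g11*a^2 + 2*g12*a*b + 2*g13*a*c + g22*b^2 + 2*g23*b*c + g33*c^2

def tdet (g11 g12 g13 g22 g23 g33 : ℤ) : ℤ :=
  g11*(g22*g33-g23^2) - g12*(g12*g33-g23*g13) + g13*(g12*g23-g22*g13)

lemma exists_round (a b : ℤ) (ha : 0 < a) : ∃ k : ℤ, 2*(b + k*a) ≤ a ∧ -a ≤ 2*(b + k*a) := by
  refine ⟨-((2*b+a)/(2*a)), ?_, ?_⟩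
  · have h1 := Int.emod_lt_of_pos (2*b+a) (show (0:ℤ) < 2*a by omega)
    have h2 := Int.mul_ediv_add_emod (2*b+a) (2*a)
    nlinarith
  · have h1 := Int.emod_nonneg (2*b+a) (show (2*a:ℤ) ≠ 0 by omega)
    have h2 := Int.mul_ediv_add_emod (2*b+a) (2*a)
    nlinarith

theorem ternary_red : ∀ n m : ℕ, ∀ g11 g12 g13 g22 g23 g33 : ℤ,
    (∀ a b c : ℤ, (a ≠ 0 ∨ b ≠ 0 ∨ c ≠ 0) → 0 < tq g11 g12 g13 g22 g23 g33 a b c) →
    g11 = n → g11*g22 - g12^2 = m →
    ∃ a b c : ℤ, (a ≠ 0 ∨ b ≠ 0 ∨ c ≠ 0) ∧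
      27 * (tq g11 g12 g13 g22 g23 g33 a b c)^3 ≤ 64 * tdet g11 g12 g13 g22 g23 g33 := by
  intro n
  induction n using Nat.strong_induction_on with
  | _ n ihn =>
  intro m
  induction m using Nat.strong_induction_on with
  | _ m ihm =>
  intro g11 g12 g13 g22 g23 g33 hpos hn hm
  have h11 : 0 < g11 := by
    have := hpos 1 0 0 (Or.inl one_ne_zero)
    simpa [tq] using this
  -- translate e2
  obtain ⟨k, hk1, hk2⟩ := exists_round g11 g12 h11
  -- new form
  set a12 := g12 + k*g11 with ha12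
  set a22 := g22 + 2*k*g12 + k^2*g11 with ha22
  set a23 := g23 + k*g13 with ha23
  have hform1 : ∀ a b c : ℤ, tq g11 a12 g13 a22 a23 g33 a b c = tq g11 g12 g13 g22 g23 g33 (a + k*b) b c := by
    intro a b c
    simp only [tq, ha12, ha22, ha23]; ring
  have hdet1 : tdet g11 a12 g13 a22 a23 g33 = tdet g11 g12 g13 g22 g23 g33 := by
    simp only [tdet, ha12, ha22, ha23]; ring
  have hP1 : g11*a22 - a12^2 = m := by
    rw [← hm]; simp only [ha12, ha22]; ring
  have hpos1 : ∀ a b c : ℤ, (a ≠ 0 ∨ b ≠ 0 ∨ c ≠ 0) → 0 < tq g11 a12 g13 a22 a23 g33 a b c := by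
    intro a b c h
    rw [hform1]
    apply hpos
    by_cases hb : b = 0
    · subst hb
      rcases h with h | h | h
      · left; simpa using h
      · exact absurd rfl h
      · right; right; exact h
    · right; left; exact hb
  have back1 : (∃ a b c : ℤ, (a ≠ 0 ∨ b ≠ 0 ∨ c ≠ 0) ∧
      27 * (tq g11 a12 g13 a22 a23 g33 a b c)^3 ≤ 64 * tdet g11 a12 g13 a22 a23 g33) →
      ∃ a b c : ℤ, (a ≠ 0 ∨ b ≠ 0 ∨ c ≠ 0) ∧
      27 * (tq g11 g12 g13 g22 g23 g33 a b c)^3 ≤ 64 * tdet g11 g12 g13 g22 g23 g33 := by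
    rintro ⟨a, b, c, h, hle⟩
    refine ⟨a + k*b, b, c, ?_, ?_⟩
    · by_cases hb : b = 0
      · subst hb
        rcases h with h | h | h
        · left; simpa using h
        · exact absurd rfl h
        · right; right; exact h
      · right; left; exact hb
    · rw [← hform1, ← hdet1]; exact hle
  apply back1
  have h22 : 0 < a22 := by
    have := hpos1 0 1 0 (Or.inr (Or.inl one_ne_zero))
    simpa [tq] using this
  by_cases hswap : a22 < g11
  · -- swap e1, e2
    have hsw : ∀ a b c : ℤ, tq a22 a12 a23 g11 g13 g33 a b c = tq g11 a12 g13 a22 a23 g33 b a c := by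
      intro a b c; simp only [tq]; ring
    have hdsw : tdet a22 a12 a23 g11 g13 g33 = tdet g11 a12 g13 a22 a23 g33 := by
      simp only [tdet]; ring
    have hpos2 : ∀ a b c : ℤ, (a ≠ 0 ∨ b ≠ 0 ∨ c ≠ 0) → 0 < tq a22 a12 a23 g11 g13 g33 a b c := by
      intro a b c h; rw [hsw]; apply hpos1; tauto
    have hlt : a22.toNat < n := by omega
    have := ihn a22.toNat hlt m a22 a12 a23 g11 g13 g33 hpos2 (by omega) (by rw [← hP1]; ring)
    obtain ⟨a, b, c, h, hle⟩ := this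
    refine ⟨b, a, c, by tauto, ?_⟩
    rw [← hsw, ← hdsw]; exact hle
  push Not at hswap
  -- P22 positive
  set p22 := g11*a22 - a12^2 with hp22
  have hp22pos : 0 < p22 := by
    have := hpos1 (-a12) g11 0 (Or.inr (Or.inl h11.ne'))
    have h2 : tq g11 a12 g13 a22 a23 g33 (-a12) g11 0 = g11 * p22 := by
      simp only [tq, hp22]; ring
    rw [h2] at this
    exact (mul_pos_iff_of_pos_left h11).mp this
  obtain ⟨l, hl1, hl2⟩ := exists_round p22 (g11*a23 - a12*g13) hp22pos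
  set b13 := g13 + l*a12 with hb13
  set b23 := a23 + l*a22 with hb23
  set b33 := g33 + 2*l*a23 + l^2*a22 with hb33
  have hform2 : ∀ a b c : ℤ, tq g11 a12 b13 a22 b23 b33 a b c = tq g11 a12 g13 a22 a23 g33 a (b + l*c) c := by
    intro a b c
    simp only [tq, hb13, hb23, hb33]; ring
  have hdet2 : tdet g11 a12 b13 a22 b23 b33 = tdet g11 a12 g13 a22 a23 g33 := by
    simp only [tdet, hb13, hb23, hb33]; ring
  have hpos2 : ∀ a b c : ℤ, (a ≠ 0 ∨ b ≠ 0 ∨ c ≠ 0) → 0 < tq g11 a12 b13 a22 b23 b33 a b c := by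
    intro a b c h
    rw [hform2]
    apply hpos1
    by_cases hc : c = 0
    · subst hc
      rcases h with h | h | h
      · left; exact h
      · right; left; simpa using h
      · exact absurd rfl h
    · right; right; exact hc
  have back2 : (∃ a b c : ℤ, (a ≠ 0 ∨ b ≠ 0 ∨ c ≠ 0) ∧
      27 * (tq g11 a12 b13 a22 b23 b33 a b c)^3 ≤ 64 * tdet g11 a12 b13 a22 b23 b33) →
      ∃ a b c : ℤ, (a ≠ 0 ∨ b ≠ 0 ∨ c ≠ 0) ∧
      27 * (tq g11 a12 g13 a22 a23 g33 a b c)^3 ≤ 64 * tdet g11 a12 g13 a22 a23 g33 := by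
    rintro ⟨a, b, c, h, hle⟩
    refine ⟨a, b + l*c, c, ?_, ?_⟩
    · by_cases hc : c = 0
      · subst hc
        rcases h with h | h | h
        · left; exact h
        · right; left; simpa using h
        · exact absurd rfl h
      · right; right; exact hc
    · rw [← hform2, ← hdet2]; exact hle
  apply back2
  by_cases hswap2 : g11*b33 - b13^2 < p22
  · -- swap e2, e3
    have hsw : ∀ a b c : ℤ, tq g11 b13 a12 b33 b23 a22 a b c = tq g11 a12 b13 a22 b23 b33 a c b := by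
      intro a b c; simp only [tq]; ring
    have hdsw : tdet g11 b13 a12 b33 b23 a22 = tdet g11 a12 b13 a22 b23 b33 := by
      simp only [tdet]; ring
    have hpos3 : ∀ a b c : ℤ, (a ≠ 0 ∨ b ≠ 0 ∨ c ≠ 0) → 0 < tq g11 b13 a12 b33 b23 a22 a b c := by
      intro a b c h; rw [hsw]; apply hpos2; tauto
    have hnn : 0 ≤ g11*b33 - b13^2 := by
      have := hpos3 (-b13) g11 0 (Or.inr (Or.inl h11.ne'))
      have h2 : tq g11 b13 a12 b33 b23 a22 (-b13) g11 0 = g11 * (g11*b33 - b13^2) := by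
        simp only [tq]; ring
      rw [h2] at this
      exact ((mul_pos_iff_of_pos_left h11).mp this).le
    have := ihm (g11*b33 - b13^2).toNat (by omega) g11 b13 a12 b33 b23 a22 hpos3 hn (by omega)
    obtain ⟨a, b, c, h, hle⟩ := this
    refine ⟨a, c, b, by tauto, ?_⟩
    rw [← hsw, ← hdsw]; exact hle
  push Not at hswap2
  refine ⟨1, 0, 0, Or.inl one_ne_zero, ?_⟩
  have hq : tq g11 a12 b13 a22 b23 b33 1 0 0 = g11 := by simp [tq]
  rw [hq]
  set p33 := g11*b33 - b13^2 with hp33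
  set p23 := g11*b23 - a12*b13 with hp23
  have hp23' : p23 = (g11*a23 - a12*g13) + l*p22 := by
    simp only [hp23, hb23, hb13, hp22]; ring
  have hjac : p22*p33 - p23^2 = g11 * tdet g11 a12 b13 a22 b23 b33 := by
    simp only [hp22, hp33, hp23, tdet]; ring
  have h1 : 3*g11^2 ≤ 4*p22 := by
    have e1 : 0 ≤ g11 - 2*a12 := by linarith
    have e2 : 0 ≤ g11 + 2*a12 := by linarith
    have e3 := mul_nonneg e1 e2
    have e4 : g11*g11 ≤ g11*a22 := mul_le_mul_of_nonneg_left hswap h11.le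
    have e5 : p22 = g11*a22 - a12^2 := hp22
    rw [e5]
    clear_value a12 a22 a23 b13 b23 b33 p22 p33 p23
    ring_nf at e3 e4 ⊢
    linarith
  have h2 : 3*p22^2 ≤ 4*(p22*p33-p23^2) := by
    have e1 : 0 ≤ p22 - 2*p23 := by rw [hp23']; linarith
    have e2 : 0 ≤ p22 + 2*p23 := by rw [hp23']; linarith
    have e3 := mul_nonneg e1 e2
    have e4 : p22*p22 ≤ p22*p33 := mul_le_mul_of_nonneg_left hswap2 hp22pos.le
    clear_value a12 a22 a23 b13 b23 b33 p22 p33 p23
    ring_nf at e3 e4 ⊢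
    linarith
  rw [hjac] at h2
  generalize tdet g11 a12 b13 a22 b23 b33 = D at h2 ⊢
  clear_value a12 a22 a23 b13 b23 b33 p22 p33 p23
  have h3 : (3*g11^2)^2 ≤ (4*p22)^2 := pow_le_pow_left₀ (by positivity) h1 2
  have h4 : g11 * (27*g11^3) ≤ g11 * (64 * D) := by
    ring_nf at h2 h3 ⊢
    linarith
  exact le_of_mul_le_mul_left h4 h11

end Pool.Agent.MPa53b92
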