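import Mathlib
import Pool.Agent.Work.MP_a53b92_co.Ternary

set_option autoImplicit false

namespace Pool.Agent.MPa53b92

/-- norm form of `ℤ[θ]`, `θ³ = 4θ - 2` -/
def nm (a b c : ℤ) : ℤ :=
  a * ((a+4*c)*(a+4*c) - (4*b-2*c)*b) + 2*c * (b*(a+4*c) - (4*b-2*c)*c) - 2*b * (b*b - (a+4*c)*c)

lemma exists_theta : ∃ t1 t2 t3 : ℝ, t1 < 2 ∧ t2 < 2 ∧ t3 < 2 ∧
    t1^3 = 4*t1 - 2 ∧ t2^3 = 4*t2 - 2 ∧ t3^3 = 4*t3 - 2 ∧
    t1 + t2 + t3 = 0 ∧ t1^2 + t2^2 + t3^2 = 8 := by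
  have hc : ∀ a b : ℝ, ContinuousOn (fun t : ℝ => t^3 - 4*t + 2) (Set.Icc a b) := by
    intro a b; fun_prop
  have h1 : ∃ t : ℝ, t ∈ Set.Icc (-3:ℝ) (-2) ∧ t^3 - 4*t + 2 = 0 := by
    have := intermediate_value_Icc (show (-3:ℝ) ≤ -2 by norm_num) (hc (-3) (-2))
    obtain ⟨t, ht, h⟩ := this (show (0:ℝ) ∈ Set.Icc _ _ by constructor <;> norm_num)
    exact ⟨t, ht, h⟩
  have h2 : ∃ t : ℝ, t ∈ Set.Icc (0:ℝ) 1 ∧ t^3 - 4*t + 2 = 0 := by
    have := intermediate_value_Icc' (show (0:ℝ) ≤ 1 by norm_num) (hc 0 1)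
    obtain ⟨t, ht, h⟩ := this (show (0:ℝ) ∈ Set.Icc _ _ by constructor <;> norm_num)
    exact ⟨t, ht, h⟩
  have h3 : ∃ t : ℝ, t ∈ Set.Icc (1:ℝ) 2 ∧ t^3 - 4*t + 2 = 0 := by
    have := intermediate_value_Icc (show (1:ℝ) ≤ 2 by norm_num) (hc 1 2)
    obtain ⟨t, ht, h⟩ := this (show (0:ℝ) ∈ Set.Icc _ _ by constructor <;> norm_num)
    exact ⟨t, ht, h⟩
  obtain ⟨t1, ⟨h1a, h1b⟩, e1⟩ := h1
  obtain ⟨t2, ⟨h2a, h2b⟩, e2⟩ := h2
  obtain ⟨t3, ⟨h3a, h3b⟩, e3⟩ := h3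
  have h3c : t3 < 2 := by
    rcases lt_or_eq_of_le h3b with h | h
    · exact h
    · rw [h] at e3; norm_num at e3
  have h3d : 1 < t3 := by
    rcases lt_or_eq_of_le h3a with h | h
    · exact h
    · rw [← h] at e3; norm_num at e3
  have h12 : t1 - t2 ≠ 0 := by intro h; linarith
  have h13 : t1 - t3 ≠ 0 := by intro h; linarith
  have h23 : t2 - t3 ≠ 0 := by intro h; linarith
  have f12 : t1^2 + t1*t2 + t2^2 = 4 := by
    have : (t1 - t2) * (t1^2 + t1*t2 + t2^2 - 4) = 0 := by linear_combination e1 - e2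
    rcases mul_eq_zero.mp this with h | h
    · exact absurd h h12
    · linarith
  have f13 : t1^2 + t1*t3 + t3^2 = 4 := by
    have : (t1 - t3) * (t1^2 + t1*t3 + t3^2 - 4) = 0 := by linear_combination e1 - e3
    rcases mul_eq_zero.mp this with h | h
    · exact absurd h h13
    · linarith
  have hs : t1 + t2 + t3 = 0 := by
    have : (t2 - t3) * (t1 + t2 + t3) = 0 := by linear_combination f12 - f13
    rcases mul_eq_zero.mp this with h | h
    · exact absurd h h23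
    · exact h
  refine ⟨t1, t2, t3, by linarith, by linarith, h3c, by linarith, by linarith, by linarith, hs, ?_⟩
  have ht3 : t3 = -(t1+t2) := by linarith
  rw [ht3]; linear_combination 2 * f12

/-- coordinates of `κ = z²/δ` -/
def k0 (x N a b c : ℤ) : ℤ := a^2*(4*x^2-3) + 4*a*N*b + 4*x*b^2 + (4*x+4)*c^2 - 4*b*c
def k1 (x N a b c : ℤ) : ℤ := a^2*(2*x-2*x^2) + 2*a*N*(2*c-b) - (2*x+2)*b^2 + (8*x+8)*b*c - (8*x+10)*c^2
def k2 (x N a b c : ℤ) : ℤ := a^2*(1-x) - 2*a*N*c + b^2 - (4*x+4)*b*c + (4*x+4)*c^2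

lemma kappa_nonneg (x N a b c : ℤ) (hx : 1 ≤ x) (hN : N^2 = 4*x^3 - 4*x + 1) (t : ℝ)
    (ht2 : t < 2) (ht : t^3 = 4*t - 2) :
    0 ≤ (k0 x N a b c : ℝ) + k1 x N a b c * t + k2 x N a b c * t^2 := by
  have hxr : (1:ℝ) ≤ x := by exact_mod_cast hx
  have hNr : (N:ℝ)^2 = 4*(x:ℝ)^3 - 4*x + 1 := by exact_mod_cast hN
  have hp : 0 < 2*(x:ℝ) - t := by linarith
  have key : (2*(x:ℝ) - t) * ((k0 x N a b c : ℝ) + k1 x N a b c * t + k2 x N a b c * t^2)
      = (2 - t) * (a*N + (2*x-t)*(b+c*t))^2 := by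
    simp only [k0, k1, k2]
    push_cast
    linear_combination ((a:ℝ)^2*(x-1) - (2*x-t)*(-(2*x+2)*c^2+2*b*c+c^2*t)) * ht - (a:ℝ)^2*(2-t)*hNr
  have h2 : 0 ≤ (2 - t) * (a*N + (2*x-t)*(b+c*t))^2 :=
    mul_nonneg (by linarith) (sq_nonneg _)
  rw [← key] at h2
  exact nonneg_of_mul_nonneg_right h2 hp

lemma kappa_e2 (x N a b c : ℤ) (hx : 1 ≤ x) (hN : N^2 = 4*x^3 - 4*x + 1) :
    3*(k0 x N a b c)^2 + 16*(k0 x N a b c)*(k2 x N a b c) + 8*(k1 x N a b c)^2
      - 12*(k1 x N a b c)*(k2 x N a b c) + 32*(k2 x N a b c)^2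
      ≤ (3*(k0 x N a b c) + 8*(k2 x N a b c))^2 := by
  obtain ⟨t1, t2, t3, h1, h2, h3, e1, e2, e3, hs, hq⟩ := exists_theta
  have u1 := kappa_nonneg x N a b c hx hN t1 h1 e1
  have u2 := kappa_nonneg x N a b c hx hN t2 h2 e2
  have u3 := kappa_nonneg x N a b c hx hN t3 h3 e3
  set A := k0 x N a b c
  set B := k1 x N a b c
  set C := k2 x N a b c
  have hsum : ((A:ℝ) + B*t1 + C*t1^2) + ((A:ℝ) + B*t2 + C*t2^2) + ((A:ℝ) + B*t3 + C*t3^2)
      = 3*A + 8*C := by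
    linear_combination (B:ℝ) * hs + (C:ℝ) * hq
  have hsq : ((A:ℝ) + B*t1 + C*t1^2)^2 + ((A:ℝ) + B*t2 + C*t2^2)^2 + ((A:ℝ) + B*t3 + C*t3^2)^2
      = 3*A^2 + 16*A*C + 8*B^2 - 12*B*C + 32*C^2 := by
    linear_combination (2*(A:ℝ)*B + 8*B*C - 2*C^2) * hs + ((B:ℝ)^2 + 2*A*C + 4*C^2) * hq
      + (2*(B:ℝ)*C + C^2*t1) * e1 + (2*(B:ℝ)*C + C^2*t2) * e2 + (2*(B:ℝ)*C + C^2*t3) * e3
  have : (3*(A:ℝ)^2 + 16*A*C + 8*B^2 - 12*B*C + 32*C^2) ≤ (3*(A:ℝ)+8*C)^2 := by
    rw [← hsum, ← hsq]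
    nlinarith [mul_nonneg u1 u2, mul_nonneg u1 u3, mul_nonneg u2 u3]
  exact_mod_cast this

/-- coordinates of the product in `ℤ[θ]` -/
def m0 (a b c d e f : ℤ) : ℤ := a*d - 2*(b*f+c*e)
def m1 (a b c d e f : ℤ) : ℤ := a*e + b*d + 4*(b*f+c*e) - 2*c*f
def m2 (a b c d e f : ℤ) : ℤ := a*f + b*e + c*d + 4*c*f

lemma nm_mul (a b c d e f : ℤ) :
    nm (m0 a b c d e f) (m1 a b c d e f) (m2 a b c d e f) = nm a b c * nm d e f := by
  simp only [nm, m0, m1, m2]; ring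

lemma sq_eq (x N a b c : ℤ) (hN : N^2 = 4*x^3 - 4*x + 1) :
    m0 (a*N+2*x*b) (2*x*c-b) (-c) (a*N+2*x*b) (2*x*c-b) (-c)
      = m0 (k0 x N a b c) (k1 x N a b c) (k2 x N a b c) 1 (2*(x-1)) (x-1) ∧
    m1 (a*N+2*x*b) (2*x*c-b) (-c) (a*N+2*x*b) (2*x*c-b) (-c)
      = m1 (k0 x N a b c) (k1 x N a b c) (k2 x N a b c) 1 (2*(x-1)) (x-1) ∧
    m2 (a*N+2*x*b) (2*x*c-b) (-c) (a*N+2*x*b) (2*x*c-b) (-c)
      = m2 (k0 x N a b c) (k1 x N a b c) (k2 x N a b c) 1 (2*(x-1)) (x-1) := by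
  refine ⟨?_, ?_, ?_⟩
  · simp only [m0, k0, k1, k2]; linear_combination a^2 * hN
  · simp only [m1, k0, k1, k2]; ring
  · simp only [m2, k0, k1, k2]; ring

lemma nm_sq (x N a b c : ℤ) (hN : N^2 = 4*x^3 - 4*x + 1) :
    (nm (a*N+2*x*b) (2*x*c-b) (-c))^2 = nm (k0 x N a b c) (k1 x N a b c) (k2 x N a b c) * N^2 := by
  obtain ⟨h0, h1, h2⟩ := sq_eq x N a b c hN
  have e := nm_mul (a*N+2*x*b) (2*x*c-b) (-c) (a*N+2*x*b) (2*x*c-b) (-c)
  rw [h0, h1, h2, nm_mul] at e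
  have hd : nm 1 (2*(x-1)) (x-1) = N^2 := by
    rw [hN]; simp only [nm]; ring
  rw [hd] at e
  rw [sq]; exact e.symm

lemma nm_square (x N a b c : ℤ) (hN0 : N ≠ 0) (hN : N^2 = 4*x^3 - 4*x + 1) :
    ∃ w : ℤ, nm (k0 x N a b c) (k1 x N a b c) (k2 x N a b c) = w^2 := by
  have h := nm_sq x N a b c hN
  have hd : N ∣ nm (a*N+2*x*b) (2*x*c-b) (-c) := by
    rw [← Int.pow_dvd_pow_iff (n := 2) (by norm_num), h]
    exact dvd_mul_left _ _
  obtain ⟨w, hw⟩ := hd
  refine ⟨w, ?_⟩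
  rw [hw] at h
  have : N^2 * (w^2 - nm (k0 x N a b c) (k1 x N a b c) (k2 x N a b c)) = 0 := by linear_combination h
  rcases mul_eq_zero.mp this with h' | h'
  · exact absurd (pow_eq_zero_iff (by norm_num) |>.mp h') hN0
  · linarith

lemma sq_mod3 (n : ℤ) (h : IsSquare n) : n % 3 ≠ 2 := by
  obtain ⟨w, rfl⟩ := h
  have : w % 3 = 0 ∨ w % 3 = 1 ∨ w % 3 = 2 := by omega
  rcases this with h | h | h <;> simp [Int.mul_emod, h]

/-- enumeration of the possible `κ` -/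
lemma kappa_enum (A B C : ℤ) (h1 : 1 ≤ 3*A + 8*C) (h7 : 3*A + 8*C ≤ 7)
    (h2 : 3*A^2 + 16*A*C + 8*B^2 - 12*B*C + 32*C^2 ≤ (3*A + 8*C)^2)
    (h3 : ∃ w : ℤ, nm A B C = w^2) : (A = 1 ∧ B = 0 ∧ C = 0) ∨ (A = 5 ∧ B = 0 ∧ C = -1) := by
  have hq : 24*B^2 - 36*B*C + 32*C^2 ≤ 98 := by
    have : (3*A+8*C)^2 ≤ 49 := by nlinarith
    nlinarith
  have hC1 : C ≤ 2 := by nlinarith [sq_nonneg (4*B-3*C)]
  have hC2 : -2 ≤ C := by nlinarith [sq_nonneg (4*B-3*C)]
  have hB1 : B ≤ 3 := by nlinarith [sq_nonneg (9*B-16*C)]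
  have hB2 : -3 ≤ B := by nlinarith [sq_nonneg (9*B-16*C)]
  obtain ⟨w, hw⟩ := h3
  have hA1 : -5 ≤ A := by omega
  have hA2 : A ≤ 7 := by omega
  have hsq : ∀ n : ℤ, n = w^2 → IsSquare n := fun n hn => ⟨w, by rw [hn, sq]⟩
  have hsq' := hsq _ hw
  clear hw hsq
  interval_cases C <;> interval_cases B <;> interval_cases A <;>
    first
    | omega
    | exact absurd hsq' (by decide)
    | exact absurd (show nm _ _ _ % 3 = 2 by decide) (sq_mod3 _ hsq')

lemma tq_eq (x N a b c : ℤ) :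
    tq (12*x^2-8*x-1) (6*N) (-8*N) (12*x+8) (-16*x-22) (44*x+44) a b c
      = 3 * k0 x N a b c + 8 * k2 x N a b c := by
  simp only [tq, k0, k2]; ring

lemma tdet_eq (x N : ℤ) (hN : N^2 = 4*x^3 - 4*x + 1) :
    tdet (12*x^2-8*x-1) (6*N) (-8*N) (12*x+8) (-16*x-22) (44*x+44) = 148 := by
  simp only [tdet]; linear_combination (-816*x + 16) * hN

lemma tq_pos (x N a b c : ℤ) (hx : 1 ≤ x) (hN : N^2 = 4*x^3 - 4*x + 1)
    (h : a ≠ 0 ∨ b ≠ 0 ∨ c ≠ 0) :
    0 < tq (12*x^2-8*x-1) (6*N) (-8*N) (12*x+8) (-16*x-22) (44*x+44) a b c := by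
  have hA : 0 < 12*x^2-8*x-1 := by nlinarith
  have hP : 0 < 68*x-44 := by linarith
  have key : (12*x^2-8*x-1) * (68*x-44) * tq (12*x^2-8*x-1) (6*N) (-8*N) (12*x+8) (-16*x-22) (44*x+44) a b c
      = (68*x-44) * ((12*x^2-8*x-1)*a + 6*N*b - 8*N*c)^2
        + ((68*x-44)*b + ((12*x^2-8*x-1)*(-16*x-22) + 48*N^2)*c)^2
        + (12*x^2-8*x-1)*148*c^2 := by
    simp only [tq, hN]
    ring_nf
    have e : N^2 = 4*x^3 - 4*x + 1 := hN
    simp only [e]
    ring
  have hpos : 0 < (12*x^2-8*x-1) * (68*x-44) := mul_pos hA hP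
  rw [← mul_pos_iff_of_pos_left hpos, key]
  by_cases hc : c = 0
  · subst hc
    by_cases hb : b = 0
    · subst hb
      have ha : a ≠ 0 := by tauto
      have : 0 < ((12*x^2-8*x-1)*a)^2 := by positivity
      simp only [mul_zero, add_zero, sub_zero, ne_eq, OfNat.ofNat_ne_zero, not_false_eq_true, zero_pow]
      exact mul_pos hP this
    · have : 0 < ((68*x-44)*b)^2 := by positivity
      have h2 : 0 ≤ (68*x-44) * ((12*x^2-8*x-1)*a + 6*N*b - 8*N*0)^2 := by positivity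
      simp only [mul_zero, add_zero, sub_zero, ne_eq, OfNat.ofNat_ne_zero, not_false_eq_true, zero_pow] at h2 ⊢
      linarith
  · have h1 : 0 < (12*x^2-8*x-1)*148*c^2 := by positivity
    have h2 : 0 ≤ (68*x-44) * ((12*x^2-8*x-1)*a + 6*N*b - 8*N*c)^2 := by positivity
    have h3 := sq_nonneg ((68*x-44)*b + ((12*x^2-8*x-1)*(-16*x-22) + 48*N^2)*c)
    linarith

/-- every integral point with `x ≥ 1` on `N² = 4x³-4x+1` is divisible by two, in coordinates -/
theorem delta_square (x N : ℤ) (hx : 1 ≤ x) (hN : N^2 = 4*x^3 - 4*x + 1) :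
    ∃ p r s : ℤ, p^2 - 4*r*s = 1 ∧ p*r + 4*r*s - s^2 = x - 1 ∧ r^2 + 2*p*s + 4*s^2 = x - 1 := by
  have hN0 : N ≠ 0 := by
    rintro rfl
    have : (2:ℤ) ∣ 1 := ⟨-(2*x^3) + 2*x, by linarith⟩
    norm_num at this
  set g11 := 12*x^2-8*x-1 with hg11
  have hpos := fun a b c h => tq_pos x N a b c hx hN h
  have h11 : 0 < g11 := by nlinarith
  have hP : 0 ≤ g11 * (12*x+8) - (6*N)^2 := by
    have : g11 * (12*x+8) - (6*N)^2 = 68*x - 44 := by
      rw [mul_pow, hN, hg11]; ring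
    rw [this]; linarith
  obtain ⟨a, b, c, hne, hle⟩ := ternary_red g11.toNat (g11 * (12*x+8) - (6*N)^2).toNat
    g11 (6*N) (-8*N) (12*x+8) (-16*x-22) (44*x+44) hpos (by omega) (by omega)
  rw [tdet_eq x N hN, tq_eq] at hle
  have hp1 := hpos a b c hne
  rw [tq_eq] at hp1
  have h7 : 3 * k0 x N a b c + 8 * k2 x N a b c ≤ 7 := by
    by_contra hcon
    push Not at hcon
    have : (8:ℤ)^3 ≤ (3 * k0 x N a b c + 8 * k2 x N a b c)^3 :=
      pow_le_pow_left₀ (by norm_num) (by omega) 3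
    linarith
  have hen := kappa_enum (k0 x N a b c) (k1 x N a b c) (k2 x N a b c) (by omega) h7
    (kappa_e2 x N a b c hx hN) (nm_square x N a b c hN0 hN)
  obtain ⟨s0, s1, s2⟩ := sq_eq x N a b c hN
  generalize a*N+2*x*b = p at s0 s1 s2
  generalize 2*x*c-b = r at s0 s1 s2
  generalize -c = s at s0 s1 s2
  rcases hen with ⟨e0, e1, e2⟩ | ⟨e0, e1, e2⟩
  · rw [e0, e1, e2] at s0 s1 s2
    simp only [m0, m1, m2] at s0 s1 s2
    refine ⟨p, r, s, ?_, ?_, ?_⟩ <;> linarith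
  · rw [e0, e1, e2] at s0 s1 s2
    simp only [m0, m1, m2] at s0 s1 s2
    have s1' : p*r + 4*r*s - s^2 = 2*(x-1) := by linarith
    refine ⟨m0 p r s 1 (-1) 0, m1 p r s 1 (-1) 0, m2 p r s 1 (-1) 0, ?_, ?_, ?_⟩
    · simp only [m0, m1, m2]
      linear_combination s0 - 2 * s1 + 4 * s2
    · simp only [m0, m1, m2]
      linear_combination -s0 + 5 * s1' - 5 * s2
    · simp only [m0, m1, m2]
      linear_combination s0 - 4 * s1' + 5 * s2

lemma final_aux (p r s t A B : ℤ) (h1 : p^2 - 4*r*s = 1) (h3 : r^2 + 2*p*s + 4*s^2 = t)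
    (hA : p - 2*s = A^2) (hB : p + 2*s = B^2) (hAB : 2*r - p - 4*s = A*B) :
    t = 0 ∨ t = 1 ∨ t = 5 := by
  have e1 : 2*p = A^2 + B^2 := by linarith
  have e2 : 4*s = B^2 - A^2 := by linarith
  have e3 : 4*r = 3*B^2 - A^2 + 2*(A*B) := by linarith
  have e4 : B * (A^3 + 3*A^2*B - A*B^2 - B^3) = 2 := by
    have : (2*p)^2 - (4*r)*(4*s) = 4 := by linear_combination 4 * h1
    rw [e1, e2, e3] at this
    linarith
  have hpodd : p % 2 = 1 := by
    have h5 : p * p = 1 + 2 * (2*(r*s)) := by linarith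
    rcases Int.emod_two_eq_zero_or_one p with h | h
    · exfalso
      obtain ⟨m, hm⟩ : (2:ℤ) ∣ p := Int.dvd_of_emod_eq_zero h
      rw [hm] at h5
      have : (2:ℤ) ∣ 1 := ⟨2*m*m - 2*(r*s), by linarith⟩
      norm_num at this
    · exact h
  have hBd : B ∣ 2 := ⟨_, e4.symm⟩
  have hBodd : B % 2 = 1 := by
    rcases Int.emod_two_eq_zero_or_one B with h | h
    · exfalso
      obtain ⟨m, hm⟩ : (2:ℤ) ∣ B := Int.dvd_of_emod_eq_zero h
      have : p = 2 * (2*m^2 - s) := by rw [hm] at hB; linarith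
      omega
    · exact h
  have hB1 : B = 1 ∨ B = -1 := by
    have hle : B.natAbs ≤ 2 := Nat.le_of_dvd (by norm_num) (by simpa using Int.natAbs_dvd_natAbs.mpr hBd)
    omega
  rcases hB1 with hB1 | hB1
  · subst hB1
    have : (A+3)*((A-1)*(A+1)) = 0 := by linarith
    rcases mul_eq_zero.mp this with h | h
    · have : A = -3 := by linarith
      subst this
      have : p = 5 := by linarith
      have hs : s = -2 := by linarith
      have hr : r = -3 := by linarith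
      subst this; subst hs; subst hr; norm_num at h3; omega
    · rcases mul_eq_zero.mp h with h | h
      · have : A = 1 := by linarith
        subst this
        have : p = 1 := by linarith
        have hs : s = 0 := by linarith
        have hr : r = 1 := by linarith
        subst this; subst hs; subst hr; norm_num at h3; omega
      · have : A = -1 := by linarith
        subst this
        have : p = 1 := by linarith
        have hs : s = 0 := by linarith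
        have hr : r = 0 := by linarith
        subst this; subst hs; subst hr; norm_num at h3; omega
  · subst hB1
    have : (A-3)*((A-1)*(A+1)) = 0 := by linarith
    rcases mul_eq_zero.mp this with h | h
    · have : A = 3 := by linarith
      subst this
      have : p = 5 := by linarith
      have hs : s = -2 := by linarith
      have hr : r = -3 := by linarith
      subst this; subst hs; subst hr; norm_num at h3; omega
    · rcases mul_eq_zero.mp h with h | h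
      · have : A = 1 := by linarith
        subst this
        have : p = 1 := by linarith
        have hs : s = 0 := by linarith
        have hr : r = 0 := by linarith
        subst this; subst hs; subst hr; norm_num at h3; omega
      · have : A = -1 := by linarith
        subst this
        have : p = 1 := by linarith
        have hs : s = 0 := by linarith
        have hr : r = 1 := by linarith
        subst this; subst hs; subst hr; norm_num at h3; omega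

lemma final_step (p r s t : ℤ) (h1 : p^2 - 4*r*s = 1) (h2 : p*r + 4*r*s - s^2 = t)
    (h3 : r^2 + 2*p*s + 4*s^2 = t) : t = 0 ∨ t = 1 ∨ t = 5 := by
  have hsq : (p - 2*s)*(p + 2*s) = (2*r - p - 4*s)^2 := by
    linear_combination 4*h2 - 4*h3
  have hcop : IsCoprime (p - 2*s) (p + 2*s) := ⟨r - s, p - s - r, by linear_combination h1⟩
  have hpodd : p % 2 = 1 := by
    have h5 : p * p = 1 + 2 * (2*(r*s)) := by linarith
    rcases Int.emod_two_eq_zero_or_one p with h | h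
    · exfalso
      obtain ⟨m, hm⟩ : (2:ℤ) ∣ p := Int.dvd_of_emod_eq_zero h
      rw [hm] at h5
      have : (2:ℤ) ∣ 1 := ⟨2*m*m - 2*(r*s), by linarith⟩
      norm_num at this
    · exact h
  have hne1 : p - 2*s ≠ 0 := by omega
  have hne2 : p + 2*s ≠ 0 := by omega
  obtain ⟨A, hA⟩ := Int.sq_of_isCoprime hcop hsq
  obtain ⟨B, hB⟩ := Int.sq_of_isCoprime hcop.symm (by rw [mul_comm]; exact hsq)
  have hA0 : A ≠ 0 := by rintro rfl; simp at hA; exact hne1 hA
  have hB0 : B ≠ 0 := by rintro rfl; simp at hB; exact hne2 hB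
  have hA2 : 0 < A^2 := by positivity
  have hB2 : 0 < B^2 := by positivity
  have hnn := sq_nonneg (2*r - p - 4*s)
  rcases hA with hA | hA <;> rcases hB with hB | hB
  · have h : (2*r - p - 4*s)^2 = (A*B)^2 := by rw [← hsq, hA, hB]; ring
    rcases sq_eq_sq_iff_eq_or_eq_neg.mp h with h | h
    · exact final_aux p r s t A B h1 h3 hA hB h
    · exact final_aux p r s t (-A) B h1 h3 (by rw [hA]; ring) hB (by rw [h]; ring)
  · exfalso
    rw [← hsq, hA, hB] at hnn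
    nlinarith [mul_pos hA2 hB2]
  · exfalso
    rw [← hsq, hA, hB] at hnn
    nlinarith [mul_pos hA2 hB2]
  · have h : (2*r - p - 4*s)^2 = (A*B)^2 := by rw [← hsq, hA, hB]; ring
    rcases sq_eq_sq_iff_eq_or_eq_neg.mp h with h | h
    · exact final_aux (-p) (-r) (-s) t (-A) B (by linarith) (by linarith) (by linear_combination -hA)
        (by linear_combination -hB) (by linear_combination -h)
    · exact final_aux (-p) (-r) (-s) t A B (by linarith) (by linarith) (by linear_combination -hA)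
        (by linear_combination -hB) (by linear_combination -h)

/-- integral points with positive abscissa on `y² + y = x³ - x` (curve 37a) -/
theorem elliptic_37a (x N : ℤ) (hx : 1 ≤ x) (hN : N^2 = 4*x^3 - 4*x + 1) :
    x = 1 ∨ x = 2 ∨ x = 6 := by
  obtain ⟨p, r, s, h1, h2, h3⟩ := delta_square x N hx hN
  rcases final_step p r s (x-1) h1 h2 h3 with h | h | h <;> omega

end Pool.Agent.MPa53b92
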