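import Pool.Agent.Work.MP_a53b92_co.Asym

set_option autoImplicit false

namespace Pool.Agent.MPa53b92

def f4rest : List (ℤ × ℕ × ℕ) := [((-283), 0, 8), ((-515), 0, 9), ((-403), 0, 10), ((-189), 0, 11), ((-87), 0, 12), ((-19), 0, 13), (7, 0, 14), ((-1511), 1, 7), ((-6195), 1, 8), ((-7344), 1, 9), ((-4366), 1, 10), ((-2008), 1, 11), ((-595), 1, 12), (90, 1, 13), (49, 1, 14), ((-2761), 2, 6), ((-23799), 2, 7), ((-49832), 2, 8), ((-41669), 2, 9), ((-21450), 2, 10), ((-7531), 2, 11), (143, 2, 12), (517, 2, 13), ((-1725), 3, 5), ((-38768), 3, 6), ((-153486), 3, 7), ((-204167), 3, 8), ((-133415), 3, 9), ((-54601), 3, 10), ((-4341), 3, 11), (3083, 3, 12), ((-24515), 4, 5), ((-226487), 4, 6), ((-530102), 4, 7), ((-502845), 4, 8), ((-254380), 4, 9), ((-41470), 4, 10), (11324, 4, 11), ((-2000),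 5, 4), ((-141260), 5, 5), ((-712127), 5, 6), ((-1113866), 5, 7), ((-775780), 5, 8), ((-194639), 5, 9), (25293, 5, 10), ((-17722), 6, 4), ((-424605), 6, 5), ((-1353545), 6, 6), ((-1483776), 6, 7), ((-557025), 6, 8), (27848, 6, 9), (69, 6, 10), ((-508), 7, 3), ((-56078), 7, 4), ((-749913), 7, 5), ((-1625629), 7, 6), ((-976285), 7, 7), ((-6686), 7, 8), (626, 7, 9), ((-1081), 8, 3), ((-85876), 8, 4), ((-825213), 8, 5), ((-950161), 8, 6), ((-39247), 8, 7), (4333, 8, 8), (188, 9, 2), (415, 9, 3), ((-80640), 9, 4), ((-365055), 9, 5), (45365, 9, 6), (19588, 9, 7), (881, 10, 2), ((-9727), 10, 3), (42424, 10, 4), (202229, 10, 5), (50225, 10, 6), (81, 11, 1), ((-1947), 11, 2), ((-1255), 11, 3), (180736, 11, 4), (65195, 11, 5), ((-536), 11, 6), ((-122), 12, 1), ((-2164), 12, 2), (32121, 12, 3),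 (26842, 12, 4), ((-3198), 12, 5), (4, 13, 0), ((-297), 13, 1), (6206, 13, 2), ((-13431), 13, 3), ((-7686), 13, 4), ((-20), 14, 0), (788, 14, 1), ((-3327), 14, 2), ((-6705), 14, 3), (40, 15, 0), ((-577), 15, 1), ((-175), 15, 2), ((-40), 16, 0), (102, 16, 1), (338, 16, 2), (20, 17, 0), (25, 17, 1), ((-4), 18, 0)]

theorem f4_id (q c X L lam y V N h : ℤ) (hX : X = q+1) (hL : L = c+2*q)
    (hV : V*(c*X^2) = (c+q)*(c^2+3*c*q+q^2-q))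
    (hN : N*(c*X^3*L) = c^5 + 8*q*c^4 + 24*q^2*c^3 + 6*q*c^3 + 32*q^3*c^2 + 9*q^2*c^2 + c^3
      + 17*q^4*c - q^3*c + 2*q*c^2 + 3*q^5 - 2*q^4 - 3*q^2*c + c^4 - q^3 - q*c)
    (hh : h*X = (c-1)*(c-2)) (hl : lam*(c*X) = q*(c+q)*(c+q-1))
    (hy : y*(c*X*L) = c*X*L + q*(q*(c+q)*(c+q-1) - c*X)) :
    ((-62307) + (-187)*N + 62957*N^2 + (-17)*N^3 + (-12077)*V + (-5672)*V*N + 43393*V*N^2 + 17772*V^2 + (-5554)*V^2*N + (-4142)*V^3 + 17*V^3*N + (-1312)*V^4 + 30125*q + (-28555)*q*N + (-43480)*q*N^2 + (-5273)*q*N^3 + 41729*q*V + (-30244)*q*V*N + 46003*q*V*N^2 + 30146*q*V^2 + (-44994)*q*V^2*N + (-19003)*q*V^3 + (-5239)*q*V^3*N + (-3956)*q*V^4 + 92708*c + (-19038)*c*N + (-91658)*c*N^2 + 22004*c*V + 31012*h + (-31535)*h*N^2 + 10512*lam*V*N^2 + (-10511)*y*V*N^2 + (-1)*y*V^4) * (c^5*X^9*L^3) =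
    (171)*q^15*c^3 + (-10)*q^10*c^7 + (5)*q^5*c^11 + (2)*q^0*c^15 + evZ f4rest q c := by
  have e : ((-62307) + (-187)*N + 62957*N^2 + (-17)*N^3 + (-12077)*V + (-5672)*V*N + 43393*V*N^2 + 17772*V^2 + (-5554)*V^2*N + (-4142)*V^3 + 17*V^3*N + (-1312)*V^4 + 30125*q + (-28555)*q*N + (-43480)*q*N^2 + (-5273)*q*N^3 + 41729*q*V + (-30244)*q*V*N + 46003*q*V*N^2 + 30146*q*V^2 + (-44994)*q*V^2*N + (-19003)*q*V^3 + (-5239)*q*V^3*N + (-3956)*q*V^4 + 92708*c + (-19038)*c*N + (-91658)*c*N^2 + 22004*c*V + 31012*h + (-31535)*h*N^2 + 10512*lam*V*N^2 + (-10511)*y*V*N^2 + (-1)*y*V^4) * (c^5*X^9*L^3) = (-62307)*c^5*X^9*L^3 + (-187)*(N*(c*X^3*L))*c^4*X^6*L^2 + 62957*(N*(c*X^3*L))^2*c^3*X^3*L + (-17)*(N*(c*X^3*L))^3*c^2 + (-12077)*(V*(c*X^2))*c^4*X^7*L^3 + (-5672)*(V*(c*X^2))*(N*(c*X^3*L))*c^3*X^4*L^2 + 43393*(V*(c*X^2))*(N*(c*X^3*L))^2*c^2*X*L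 + 17772*(V*(c*X^2))^2*c^3*X^5*L^3 + (-5554)*(V*(c*X^2))^2*(N*(c*X^3*L))*c^2*X^2*L^2 + (-4142)*(V*(c*X^2))^3*c^2*X^3*L^3 + 17*(V*(c*X^2))^3*(N*(c*X^3*L))*c*L^2 + (-1312)*(V*(c*X^2))^4*c*X*L^3 + 30125*q*c^5*X^9*L^3 + (-28555)*q*(N*(c*X^3*L))*c^4*X^6*L^2 + (-43480)*q*(N*(c*X^3*L))^2*c^3*X^3*L + (-5273)*q*(N*(c*X^3*L))^3*c^2 + 41729*q*(V*(c*X^2))*c^4*X^7*L^3 + (-30244)*q*(V*(c*X^2))*(N*(c*X^3*L))*c^3*X^4*L^2 + 46003*q*(V*(c*X^2))*(N*(c*X^3*L))^2*c^2*X*L + 30146*q*(V*(c*X^2))^2*c^3*X^5*L^3 + (-44994)*q*(V*(c*X^2))^2*(N*(c*X^3*L))*c^2*X^2*L^2 + (-19003)*q*(V*(c*X^2))^3*c^2*X^3*L^3 + (-5239)*q*(V*(c*X^2))^3*(N*(c*X^3*L))*c*L^2 + (-3956)*q*(V*(c*X^2))^4*c*X*L^3 + 92708*c*c^5*X^9*L^3 + (-19038)*c*(N*(c*X^3*L))*c^4*X^6*L^2 + (-91658)*c*(N*(c*X^3*L))^2*c^3*X^3*L + 22004*c*(V*(c*X^2))*c^4*X^7*L^3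 + 31012*(h*X)*c^5*X^8*L^3 + (-31535)*(h*X)*(N*(c*X^3*L))^2*c^3*X^2*L + 10512*(lam*(c*X))*(V*(c*X^2))*(N*(c*X^3*L))^2*c*L + (-10511)*(y*(c*X*L))*(V*(c*X^2))*(N*(c*X^3*L))^2*c + (-1)*(y*(c*X*L))*(V*(c*X^2))^4*L^2 := by ring
  rw [e, hV, hN]
  simp only [hh, hl, hy]
  subst hX hL
  simp only [f4rest, evZ]
  ring

theorem f4_ex (q c lam y V N h : ℤ)
    (hV : V*(c*(q+1)^2) = (c+q)*(c^2+3*c*q+q^2-q))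
    (hN : N*(c*(q+1)^3*(c+2*q)) = c^5 + 8*q*c^4 + 24*q^2*c^3 + 6*q*c^3 + 32*q^3*c^2 + 9*q^2*c^2 + c^3
      + 17*q^4*c - q^3*c + 2*q*c^2 + 3*q^5 - 2*q^4 - 3*q^2*c + c^4 - q^3 - q*c)
    (hh : h*(q+1) = (c-1)*(c-2)) (hl : lam*(c*(q+1)) = q*(c+q)*(c+q-1))
    (hy : y*(c*(q+1)*(c+2*q)) = c*(q+1)*(c+2*q) + q*(q*(c+q)*(c+q-1) - c*(q+1))) :
    ∃ F : ℤ, F * (c^5*(q+1)^9*(c+2*q)^3) = (171)*q^15*c^3 + (-10)*q^10*c^7 + (5)*q^5*c^11 + (2)*q^0*c^15 + evZ f4rest q c :=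
  ⟨_, f4_id q c (q+1) (c+2*q) lam y V N h rfl rfl hV hN hh hl hy⟩

theorem f4_exp : ∀ t ∈ f4rest, t.2.1 + t.2.2 ≤ 17 + 1 ∧ 4 * t.2.1 + (4+1) * t.2.2 + 2 ≤ 76 := by
  decide

theorem f4_sum : sumAbs f4rest ≤ 10^8 := by
  decide

theorem f4_exp1 : ∀ t ∈ ((-10, 10, 7) :: (5, 5, 11) :: (2, 0, 15) :: f4rest : List (ℤ × ℕ × ℕ)),
    t.2.1 + t.2.2 ≤ 17 + 1 ∧ 5 * t.2.1 + (5+1) * t.2.2 + 1 ≤ 93 := by
  decide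

theorem f4_sum1 : sumAbs ((-10, 10, 7) :: (5, 5, 11) :: (2, 0, 15) :: f4rest : List (ℤ × ℕ × ℕ)) ≤ 10^8 := by
  decide

end Pool.Agent.MPa53b92
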