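import Pool.Agent.Work.MP_a53b92_co.Asym

set_option autoImplicit false

namespace Pool.Agent.MPa53b92

def f5rest : List (ℤ × ℕ × ℕ) := [(104, 0, 8), (181, 0, 9), (191, 0, 10), (147, 0, 11), (93, 0, 12), ((-19), 0, 13), ((-35), 0, 14), ((-10), 0, 15), (544, 1, 7), (2133, 1, 8), (2862, 1, 9), (2564, 1, 10), (1946, 1, 11), (68, 1, 12), ((-678), 1, 13), ((-245), 1, 14), (980, 2, 6), (8073, 2, 7), (17569, 2, 8), (18991, 2, 9), (16962, 2, 10), (4139, 2, 11), ((-5446), 2, 12), ((-2699), 2, 13), (588, 3, 5), (12979, 3, 6), (51567, 3, 7), (77941, 3, 8), (82141, 3, 9), (36968, 3, 10), ((-23325), 3, 11), ((-17524), 3, 12), (7891, 4, 5), (73945, 4, 6), (182068, 4, 7), (246138, 4, 8), (165644, 4, 9), ((-55363), 4, 10), ((-74518), 4, 11), (595, 5, 4), (44131, 5, 5), (228244, 5, 6), (460705, 5, 7), (447329,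 5, 8), ((-59303), 5, 9), ((-219546), 5, 10), (887, 5, 11), (5162, 6, 4), (124263, 6, 5), (500575, 6, 6), (761394, 6, 7), (35787, 6, 8), ((-464824), 6, 9), (6096, 6, 10), (89, 7, 3), (10552, 7, 4), (253356, 7, 5), (786545, 7, 6), (201554, 7, 7), ((-726551), 7, 8), (24572, 7, 9), ((-2347), 8, 3), (23654, 8, 4), (431781, 8, 5), (258236, 8, 6), ((-858379), 8, 7), (65374, 8, 8), ((-427), 9, 2), ((-5837), 9, 3), (105774, 9, 4), (132888, 9, 5), ((-785311), 9, 6), (121738, 9, 7), ((-1840), 10, 2), (24239, 10, 3), (28876, 10, 4), ((-558451), 10, 5), (162581, 10, 6), ((-177), 11, 1), (3864, 11, 2), (22007, 11, 3), ((-282494), 11, 4), (157955, 11, 5), ((-1310), 11, 6), (154, 12, 1), (7457, 12, 2), ((-88557), 12, 3), (113968, 12, 4), ((-3846), 12, 5), ((-20), 13, 0), (1257, 13, 1), ((-20827), 13, 2),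 (56781, 13, 3), ((-6087), 13, 4), (100, 14, 0), ((-3028), 14, 1), (15666, 14, 2), ((-6375), 14, 3), ((-200), 15, 0), (2657, 15, 1), ((-3970), 15, 2), (200, 16, 0), ((-966), 16, 1), ((-100), 17, 0), (103, 17, 1), (20, 18, 0)]

theorem f5_id (q c X L lam y V N h : ℤ) (hX : X = q+1) (hL : L = c+2*q)
    (hV : V*(c*X^2) = (c+q)*(c^2+3*c*q+q^2-q))
    (hN : N*(c*X^3*L) = c^5 + 8*q*c^4 + 24*q^2*c^3 + 6*q*c^3 + 32*q^3*c^2 + 9*q^2*c^2 + c^3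
      + 17*q^4*c - q^3*c + 2*q*c^2 + 3*q^5 - 2*q^4 - 3*q^2*c + c^4 - q^3 - q*c)
    (hh : h*X = (c-1)*(c-2)) (hl : lam*(c*X) = q*(c+q)*(c+q-1))
    (hy : y*(c*X*L) = c*X*L + q*(q*(c+q)*(c+q-1) - c*X)) :
    ((-111462) + 80*N + 111518*N^2 + 28*N^3 + (-21923)*V + (-10001)*V*N + 76585*V*N^2 + 31524*V^2 + (-9622)*V^2*N + (-7334)*V^3 + (-28)*V^3*N + (-2332)*V^4 + 56057*q + (-50797)*q*N + (-77176)*q*N^2 + (-9260)*q*N^3 + 72365*q*V + (-53353)*q*V*N + 81262*q*V*N^2 + 53045*q*V^2 + (-79239)*q*V^2*N + (-33634)*q*V^3 + (-9316)*q*V^3*N + (-6953)*q*V^4 + 167450*c + (-33801)*c*N + (-162269)*c*N^2 + 38807*c*V + 55783*h + (-55733)*h*N^2 + 18576*lam*V*N^2 + (-18581)*y*V*N^2 + 5*y*V^4) * (c^5*X^9*L^3) =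
    (77)*q^16*c^2 + (-178)*q^10*c^7 + (57)*q^4*c^12 + evZ f5rest q c := by
  have e : ((-111462) + 80*N + 111518*N^2 + 28*N^3 + (-21923)*V + (-10001)*V*N + 76585*V*N^2 + 31524*V^2 + (-9622)*V^2*N + (-7334)*V^3 + (-28)*V^3*N + (-2332)*V^4 + 56057*q + (-50797)*q*N + (-77176)*q*N^2 + (-9260)*q*N^3 + 72365*q*V + (-53353)*q*V*N + 81262*q*V*N^2 + 53045*q*V^2 + (-79239)*q*V^2*N + (-33634)*q*V^3 + (-9316)*q*V^3*N + (-6953)*q*V^4 + 167450*c + (-33801)*c*N + (-162269)*c*N^2 + 38807*c*V + 55783*h + (-55733)*h*N^2 + 18576*lam*V*N^2 + (-18581)*y*V*N^2 + 5*y*V^4) * (c^5*X^9*L^3) = (-111462)*c^5*X^9*L^3 + 80*(N*(c*X^3*L))*c^4*X^6*L^2 + 111518*(N*(c*X^3*L))^2*c^3*X^3*L + 28*(N*(c*X^3*L))^3*c^2 + (-21923)*(V*(c*X^2))*c^4*X^7*L^3 + (-10001)*(V*(c*X^2))*(N*(c*X^3*L))*c^3*X^4*L^2 + 76585*(V*(c*X^2))*(N*(c*X^3*L))^2*c^2*X*L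 + 31524*(V*(c*X^2))^2*c^3*X^5*L^3 + (-9622)*(V*(c*X^2))^2*(N*(c*X^3*L))*c^2*X^2*L^2 + (-7334)*(V*(c*X^2))^3*c^2*X^3*L^3 + (-28)*(V*(c*X^2))^3*(N*(c*X^3*L))*c*L^2 + (-2332)*(V*(c*X^2))^4*c*X*L^3 + 56057*q*c^5*X^9*L^3 + (-50797)*q*(N*(c*X^3*L))*c^4*X^6*L^2 + (-77176)*q*(N*(c*X^3*L))^2*c^3*X^3*L + (-9260)*q*(N*(c*X^3*L))^3*c^2 + 72365*q*(V*(c*X^2))*c^4*X^7*L^3 + (-53353)*q*(V*(c*X^2))*(N*(c*X^3*L))*c^3*X^4*L^2 + 81262*q*(V*(c*X^2))*(N*(c*X^3*L))^2*c^2*X*L + 53045*q*(V*(c*X^2))^2*c^3*X^5*L^3 + (-79239)*q*(V*(c*X^2))^2*(N*(c*X^3*L))*c^2*X^2*L^2 + (-33634)*q*(V*(c*X^2))^3*c^2*X^3*L^3 + (-9316)*q*(V*(c*X^2))^3*(N*(c*X^3*L))*c*L^2 + (-6953)*q*(V*(c*X^2))^4*c*X*L^3 + 167450*c*c^5*X^9*L^3 + (-33801)*c*(N*(c*X^3*L))*c^4*X^6*L^2 + (-162269)*c*(N*(c*X^3*L))^2*c^3*X^3*L + 38807*c*(V*(c*X^2))*c^4*X^7*L^3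 + 55783*(h*X)*c^5*X^8*L^3 + (-55733)*(h*X)*(N*(c*X^3*L))^2*c^3*X^2*L + 18576*(lam*(c*X))*(V*(c*X^2))*(N*(c*X^3*L))^2*c*L + (-18581)*(y*(c*X*L))*(V*(c*X^2))*(N*(c*X^3*L))^2*c + 5*(y*(c*X*L))*(V*(c*X^2))^4*L^2 := by ring
  rw [e, hV, hN]
  simp only [hh, hl, hy]
  subst hX hL
  simp only [f5rest, evZ]
  ring

theorem f5_ex (q c lam y V N h : ℤ)
    (hV : V*(c*(q+1)^2) = (c+q)*(c^2+3*c*q+q^2-q))
    (hN : N*(c*(q+1)^3*(c+2*q)) = c^5 + 8*q*c^4 + 24*q^2*c^3 + 6*q*c^3 + 32*q^3*c^2 + 9*q^2*c^2 + c^3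
      + 17*q^4*c - q^3*c + 2*q*c^2 + 3*q^5 - 2*q^4 - 3*q^2*c + c^4 - q^3 - q*c)
    (hh : h*(q+1) = (c-1)*(c-2)) (hl : lam*(c*(q+1)) = q*(c+q)*(c+q-1))
    (hy : y*(c*(q+1)*(c+2*q)) = c*(q+1)*(c+2*q) + q*(q*(c+q)*(c+q-1) - c*(q+1))) :
    ∃ F : ℤ, F * (c^5*(q+1)^9*(c+2*q)^3) = (77)*q^16*c^2 + (-178)*q^10*c^7 + (57)*q^4*c^12 + evZ f5rest q c :=
  ⟨_, f5_id q c (q+1) (c+2*q) lam y V N h rfl rfl hV hN hh hl hy⟩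

theorem f5_exp : ∀ t ∈ f5rest, t.2.1 + t.2.2 ≤ 17 + 1 ∧ 5 * t.2.1 + (5+1) * t.2.2 + 2 ≤ 93 := by
  decide

theorem f5_sum : sumAbs f5rest ≤ 10^8 := by
  decide

theorem f5_exp1 : ∀ t ∈ ((-178, 10, 7) :: (57, 4, 12) :: f5rest : List (ℤ × ℕ × ℕ)),
    t.2.1 + t.2.2 ≤ 17 + 1 ∧ 6 * t.2.1 + (6+1) * t.2.2 + 1 ≤ 110 := by
  decide

theorem f5_sum1 : sumAbs ((-178, 10, 7) :: (57, 4, 12) :: f5rest : List (ℤ × ℕ × ℕ)) ≤ 10^8 := by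
  decide

end Pool.Agent.MPa53b92
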