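import Pool.Agent.Work.MP_a53b92_co.Asym

set_option autoImplicit false

namespace Pool.Agent.MPa53b92

def f6rest : List (ℤ × ℕ × ℕ) := [(549, 0, 8), (472, 0, 9), (239, 0, 10), ((-168), 0, 11), ((-111), 0, 12), (50, 0, 13), (7, 0, 14), (2, 0, 15), (3079, 1, 7), (8413, 1, 8), (6065, 1, 9), ((-482), 1, 10), ((-2499), 1, 11), (433, 1, 12), (305, 1, 13), (49, 1, 14), (5733, 2, 6), (37486, 2, 7), (56654, 2, 8), (17038, 2, 9), ((-17160), 2, 10), ((-1490), 2, 11), (3507, 2, 12), (740, 2, 13), (3563, 3, 5), (64656, 3, 6), (208921, 3, 7), (167949, 3, 8), ((-33630), 3, 9), ((-27891), 3, 10), (17986, 3, 11), (6631, 3, 12), (40202, 4, 5), (337101, 4, 6), (594586, 4, 7), (131245, 4, 8), ((-107480), 4, 9), (46970, 4, 10), (35786, 4, 11), (1236, 4, 12), (1806, 5, 4), (214905, 5, 5), (938057, 5, 6), (734146,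 5, 7), ((-96596), 5, 8), (68933, 5, 9), (123635, 5, 10), (8693, 5, 11), (24932, 6, 4), (612538, 6, 5), (1251543, 6, 6), (296508, 6, 7), (115673, 6, 8), (293442, 6, 9), (35633, 6, 10), (2400, 7, 3), (101624, 7, 4), (796298, 7, 5), (685533, 7, 6), (295517, 7, 7), (520254, 7, 8), (96048, 7, 9), (16008, 8, 3), (92782, 8, 4), (317170, 8, 5), (388069, 8, 6), (713494, 8, 7), (183075, 8, 8), (994, 9, 2), (14550, 9, 3), ((-144170), 9, 4), (64652, 9, 5), (678999, 9, 6), (250989, 9, 7), (1523, 10, 2), ((-40930), 10, 3), ((-177670), 10, 4), (352654, 10, 5), (228945, 10, 6), (97, 11, 1), ((-4669), 11, 2), ((-38420), 11, 3), (84650, 11, 4), (115248, 11, 5), ((-4820), 11, 6), ((-154), 12, 1), ((-3786), 12, 2), (43260, 12, 3), (25624, 12, 4), ((-10442), 12, 5), (4, 13, 0), ((-313), 13, 1), (9232, 13, 2), (6862,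 13, 3), ((-9578), 13, 4), ((-20), 14, 0), (852, 14, 1), ((-2009), 14, 2), ((-3730), 14, 3), (40, 15, 0), ((-593), 15, 1), ((-1285), 15, 2), ((-40), 16, 0), (70, 16, 1), (20, 17, 0), ((-4), 18, 0)]

theorem f6_id (q c X L lam y V N h : ℤ) (hX : X = q+1) (hL : L = c+2*q)
    (hV : V*(c*X^2) = (c+q)*(c^2+3*c*q+q^2-q))
    (hN : N*(c*X^3*L) = c^5 + 8*q*c^4 + 24*q^2*c^3 + 6*q*c^3 + 32*q^3*c^2 + 9*q^2*c^2 + c^3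
      + 17*q^4*c - q^3*c + 2*q*c^2 + 3*q^5 - 2*q^4 - 3*q^2*c + c^4 - q^3 - q*c)
    (hh : h*X = (c-1)*(c-2)) (hl : lam*(c*X) = q*(c+q)*(c+q-1))
    (hy : y*(c*X*L) = c*X*L + q*(q*(c+q)*(c+q-1) - c*X)) :
    (227251 + 215*N + (-228525)*N^2 + (-21)*N^3 + 44440*V + 20511*V*N + (-157074)*V*N^2 + (-64332)*V^2 + 19773*V^2*N + 14988*V^3 + 21*V^3*N + 4763*V^4 + (-112682)*q + 103391*q*N + 158070*q*N^2 + 19023*q*N^3 + (-149454)*q*V + 109477*q*V*N + (-166618)*q*V*N^2 + (-108476)*q*V^2 + 162579*q*V^2*N + 68989*q*V^3 + 19065*q*V^3*N + 14265*q*V^4 + (-339796)*c + 68930*c*N + 332569*c*N^2 + (-79587)*c*V + (-113351)*h + 114265*h*N^2 + (-38088)*lam*V*N^2 + 38089*y*V*N^2 + (-1)*y*V^4) * (c^5*X^9*L^3) =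
    (41)*q^17*c^1 + (-796)*q^10*c^7 + (77)*q^3*c^13 + evZ f6rest q c := by
  have e : (227251 + 215*N + (-228525)*N^2 + (-21)*N^3 + 44440*V + 20511*V*N + (-157074)*V*N^2 + (-64332)*V^2 + 19773*V^2*N + 14988*V^3 + 21*V^3*N + 4763*V^4 + (-112682)*q + 103391*q*N + 158070*q*N^2 + 19023*q*N^3 + (-149454)*q*V + 109477*q*V*N + (-166618)*q*V*N^2 + (-108476)*q*V^2 + 162579*q*V^2*N + 68989*q*V^3 + 19065*q*V^3*N + 14265*q*V^4 + (-339796)*c + 68930*c*N + 332569*c*N^2 + (-79587)*c*V + (-113351)*h + 114265*h*N^2 + (-38088)*lam*V*N^2 + 38089*y*V*N^2 + (-1)*y*V^4) * (c^5*X^9*L^3) = 227251*c^5*X^9*L^3 + 215*(N*(c*X^3*L))*c^4*X^6*L^2 + (-228525)*(N*(c*X^3*L))^2*c^3*X^3*L + (-21)*(N*(c*X^3*L))^3*c^2 + 44440*(V*(c*X^2))*c^4*X^7*L^3 + 20511*(V*(c*X^2))*(N*(c*X^3*L))*c^3*X^4*L^2 + (-157074)*(V*(c*X^2))*(N*(c*X^3*L))^2*c^2*X*L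 + (-64332)*(V*(c*X^2))^2*c^3*X^5*L^3 + 19773*(V*(c*X^2))^2*(N*(c*X^3*L))*c^2*X^2*L^2 + 14988*(V*(c*X^2))^3*c^2*X^3*L^3 + 21*(V*(c*X^2))^3*(N*(c*X^3*L))*c*L^2 + 4763*(V*(c*X^2))^4*c*X*L^3 + (-112682)*q*c^5*X^9*L^3 + 103391*q*(N*(c*X^3*L))*c^4*X^6*L^2 + 158070*q*(N*(c*X^3*L))^2*c^3*X^3*L + 19023*q*(N*(c*X^3*L))^3*c^2 + (-149454)*q*(V*(c*X^2))*c^4*X^7*L^3 + 109477*q*(V*(c*X^2))*(N*(c*X^3*L))*c^3*X^4*L^2 + (-166618)*q*(V*(c*X^2))*(N*(c*X^3*L))^2*c^2*X*L + (-108476)*q*(V*(c*X^2))^2*c^3*X^5*L^3 + 162579*q*(V*(c*X^2))^2*(N*(c*X^3*L))*c^2*X^2*L^2 + 68989*q*(V*(c*X^2))^3*c^2*X^3*L^3 + 19065*q*(V*(c*X^2))^3*(N*(c*X^3*L))*c*L^2 + 14265*q*(V*(c*X^2))^4*c*X*L^3 + (-339796)*c*c^5*X^9*L^3 + 68930*c*(N*(c*X^3*L))*c^4*X^6*L^2 + 332569*c*(N*(c*X^3*L))^2*c^3*X^3*L + (-79587)*c*(V*(c*X^2))*c^4*X^7*L^3 + (-113351)*(h*X)*c^5*X^8*L^3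 + 114265*(h*X)*(N*(c*X^3*L))^2*c^3*X^2*L + (-38088)*(lam*(c*X))*(V*(c*X^2))*(N*(c*X^3*L))^2*c*L + 38089*(y*(c*X*L))*(V*(c*X^2))*(N*(c*X^3*L))^2*c + (-1)*(y*(c*X*L))*(V*(c*X^2))^4*L^2 := by ring
  rw [e, hV, hN]
  simp only [hh, hl, hy]
  subst hX hL
  simp only [f6rest, evZ]
  ring

theorem f6_ex (q c lam y V N h : ℤ)
    (hV : V*(c*(q+1)^2) = (c+q)*(c^2+3*c*q+q^2-q))
    (hN : N*(c*(q+1)^3*(c+2*q)) = c^5 + 8*q*c^4 + 24*q^2*c^3 + 6*q*c^3 + 32*q^3*c^2 + 9*q^2*c^2 + c^3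
      + 17*q^4*c - q^3*c + 2*q*c^2 + 3*q^5 - 2*q^4 - 3*q^2*c + c^4 - q^3 - q*c)
    (hh : h*(q+1) = (c-1)*(c-2)) (hl : lam*(c*(q+1)) = q*(c+q)*(c+q-1))
    (hy : y*(c*(q+1)*(c+2*q)) = c*(q+1)*(c+2*q) + q*(q*(c+q)*(c+q-1) - c*(q+1))) :
    ∃ F : ℤ, F * (c^5*(q+1)^9*(c+2*q)^3) = (41)*q^17*c^1 + (-796)*q^10*c^7 + (77)*q^3*c^13 + evZ f6rest q c :=
  ⟨_, f6_id q c (q+1) (c+2*q) lam y V N h rfl rfl hV hN hh hl hy⟩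

theorem f6_exp : ∀ t ∈ f6rest, t.2.1 + t.2.2 ≤ 17 + 1 ∧ 6 * t.2.1 + (6+1) * t.2.2 + 2 ≤ 110 := by
  decide

theorem f6_sum : sumAbs f6rest ≤ 10^8 := by
  decide

theorem f6_exp1 : ∀ t ∈ ((-796, 10, 7) :: (77, 3, 13) :: f6rest : List (ℤ × ℕ × ℕ)),
    t.2.1 + t.2.2 ≤ 17 + 1 ∧ 7 * t.2.1 + (7+1) * t.2.2 + 1 ≤ 127 := by
  decide

theorem f6_sum1 : sumAbs ((-796, 10, 7) :: (77, 3, 13) :: f6rest : List (ℤ × ℕ × ℕ)) ≤ 10^8 := by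
  decide

end Pool.Agent.MPa53b92
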