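import Pool.Agent.Work.MP_a53b92_co.Asym

set_option autoImplicit false

namespace Pool.Agent.MPa53b92

def f7rest : List (ℤ × ℕ × ℕ) := [((-1153), 0, 8), ((-865), 0, 9), ((-354), 0, 10), (483, 0, 11), (191, 0, 12), ((-236), 0, 13), ((-138), 0, 14), ((-16), 0, 15), ((-6469), 1, 7), ((-16751), 1, 8), ((-10472), 1, 9), (3733, 1, 10), (5724, 1, 11), ((-2808), 1, 12), ((-3178), 1, 13), ((-556), 1, 14), ((-12039), 2, 6), ((-76233), 2, 7), ((-107807), 2, 8), ((-14493), 2, 9), (48515, 2, 10), ((-6202), 2, 11), ((-29860), 2, 12), ((-7888), 2, 13), ((-7430), 3, 5), ((-132422), 3, 6), ((-414144), 3, 7), ((-273861), 3, 8), (157930, 3, 9), (52158, 3, 10), ((-149382), 3, 11), ((-61412), 3, 12), ((-1682), 3, 13), ((-81766), 4, 5), ((-681576), 4, 6), ((-1098955), 4, 7), (19320, 4, 8), (340985, 4, 9), ((-434390), 4, 10),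 ((-295677), 4, 11), ((-15095), 4, 12), ((-3296), 5, 4), ((-438318), 5, 5), ((-1825423), 5, 6), ((-1004090), 5, 7), (719919, 5, 8), ((-758514), 5, 9), ((-938527), 5, 10), ((-78154), 5, 11), ((-53947), 6, 4), ((-1227975), 6, 5), ((-2097007), 6, 6), (424382, 6, 7), ((-868025), 6, 8), ((-2050655), 6, 9), ((-259767), 6, 10), ((-6490), 7, 3), ((-224929), 7, 4), ((-1418732), 7, 5), ((-275050), 7, 6), ((-839018), 7, 7), ((-3215711), 7, 8), ((-585524), 7, 9), ((-42784), 8, 3), ((-179367), 8, 4), (57079, 8, 5), ((-605438), 8, 6), ((-3740895), 8, 7), ((-926147), 8, 8), ((-2704), 9, 2), ((-46782), 9, 3), (531595, 9, 4), (139194, 9, 5), ((-3154647), 9, 6), ((-1037155), 9, 7), ((-6280), 10, 2), (131788, 10, 3), (503903, 10, 4), ((-1731985), 10, 5), ((-772284), 10, 6), ((-448), 11, 1), (15704, 11, 2), (129994, 11, 3),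 ((-597619), 11, 4), ((-296570), 11, 5), (10926, 11, 6), (576, 12, 1), (18480, 12, 2), ((-210616), 12, 3), (4067, 12, 4), (23143, 12, 5), ((-32), 13, 0), (2176, 13, 1), ((-46304), 13, 2), (40142, 13, 3), (19593, 13, 4), (160, 14, 0), ((-5504), 14, 1), (21976, 14, 2), (4748, 14, 3), ((-320), 15, 0), (4416, 15, 1), ((-872), 15, 2), (320, 16, 0), ((-1216), 16, 1), ((-160), 17, 0)]

theorem f7_id (q c X L lam y V N h : ℤ) (hX : X = q+1) (hL : L = c+2*q)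
    (hV : V*(c*X^2) = (c+q)*(c^2+3*c*q+q^2-q))
    (hN : N*(c*X^3*L) = c^5 + 8*q*c^4 + 24*q^2*c^3 + 6*q*c^3 + 32*q^3*c^2 + 9*q^2*c^2 + c^3
      + 17*q^4*c - q^3*c + 2*q*c^2 + 3*q^5 - 2*q^4 - 3*q^2*c + c^4 - q^3 - q*c)
    (hh : h*X = (c-1)*(c-2)) (hl : lam*(c*X) = q*(c+q)*(c+q-1))
    (hy : y*(c*X*L) = c*X*L + q*(q*(c+q)*(c+q-1) - c*X)) :
    ((-662177) + (-449)*N + 665153*N^2 + 4*N^3 + (-129610)*V + (-59538)*V*N + 457338*V*N^2 + 187312*V^2 + (-57488)*V^2*N + (-43685)*V^3 + (-4)*V^3*N + (-13914)*V^4 + 329424*q + (-301344)*q*N + (-460304)*q*N^2 + (-55424)*q*N^3 + 434344*q*V + (-318544)*q*V*N + 485064*q*V*N^2 + 315784*q*V^2 + (-473088)*q*V^2*N + (-200952)*q*V^3 + (-55432)*q*V^3*N + (-41632)*q*V^4 + 991120*c + (-200808)*c*N + (-968072)*c*N^2 + 231616*c*V + 330512*h + (-332576)*h*N^2 + 110856*lam*V*N^2 + (-110864)*y*V*N^2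 + 8*y*V^4) * (c^5*X^9*L^3) =
    (32)*q^18*c^0 + (1817)*q^10*c^7 + (-82)*q^2*c^14 + evZ f7rest q c := by
  have e : ((-662177) + (-449)*N + 665153*N^2 + 4*N^3 + (-129610)*V + (-59538)*V*N + 457338*V*N^2 + 187312*V^2 + (-57488)*V^2*N + (-43685)*V^3 + (-4)*V^3*N + (-13914)*V^4 + 329424*q + (-301344)*q*N + (-460304)*q*N^2 + (-55424)*q*N^3 + 434344*q*V + (-318544)*q*V*N + 485064*q*V*N^2 + 315784*q*V^2 + (-473088)*q*V^2*N + (-200952)*q*V^3 + (-55432)*q*V^3*N + (-41632)*q*V^4 + 991120*c + (-200808)*c*N + (-968072)*c*N^2 + 231616*c*V + 330512*h + (-332576)*h*N^2 + 110856*lam*V*N^2 + (-110864)*y*V*N^2 + 8*y*V^4) * (c^5*X^9*L^3) = (-662177)*c^5*X^9*L^3 + (-449)*(N*(c*X^3*L))*c^4*X^6*L^2 + 665153*(N*(c*X^3*L))^2*c^3*X^3*L + 4*(N*(c*X^3*L))^3*c^2 + (-129610)*(V*(c*X^2))*c^4*X^7*L^3 + (-59538)*(V*(c*X^2))*(N*(c*X^3*L))*c^3*X^4*L^2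 + 457338*(V*(c*X^2))*(N*(c*X^3*L))^2*c^2*X*L + 187312*(V*(c*X^2))^2*c^3*X^5*L^3 + (-57488)*(V*(c*X^2))^2*(N*(c*X^3*L))*c^2*X^2*L^2 + (-43685)*(V*(c*X^2))^3*c^2*X^3*L^3 + (-4)*(V*(c*X^2))^3*(N*(c*X^3*L))*c*L^2 + (-13914)*(V*(c*X^2))^4*c*X*L^3 + 329424*q*c^5*X^9*L^3 + (-301344)*q*(N*(c*X^3*L))*c^4*X^6*L^2 + (-460304)*q*(N*(c*X^3*L))^2*c^3*X^3*L + (-55424)*q*(N*(c*X^3*L))^3*c^2 + 434344*q*(V*(c*X^2))*c^4*X^7*L^3 + (-318544)*q*(V*(c*X^2))*(N*(c*X^3*L))*c^3*X^4*L^2 + 485064*q*(V*(c*X^2))*(N*(c*X^3*L))^2*c^2*X*L + 315784*q*(V*(c*X^2))^2*c^3*X^5*L^3 + (-473088)*q*(V*(c*X^2))^2*(N*(c*X^3*L))*c^2*X^2*L^2 + (-200952)*q*(V*(c*X^2))^3*c^2*X^3*L^3 + (-55432)*q*(V*(c*X^2))^3*(N*(c*X^3*L))*c*L^2 + (-41632)*q*(V*(c*X^2))^4*c*X*L^3 + 991120*c*c^5*X^9*L^3 + (-200808)*c*(N*(c*X^3*L))*c^4*X^6*L^2 + (-968072)*c*(N*(c*X^3*L))^2*c^3*X^3*L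 + 231616*c*(V*(c*X^2))*c^4*X^7*L^3 + 330512*(h*X)*c^5*X^8*L^3 + (-332576)*(h*X)*(N*(c*X^3*L))^2*c^3*X^2*L + 110856*(lam*(c*X))*(V*(c*X^2))*(N*(c*X^3*L))^2*c*L + (-110864)*(y*(c*X*L))*(V*(c*X^2))*(N*(c*X^3*L))^2*c + 8*(y*(c*X*L))*(V*(c*X^2))^4*L^2 := by ring
  rw [e, hV, hN]
  simp only [hh, hl, hy]
  subst hX hL
  simp only [f7rest, evZ]
  ring

theorem f7_ex (q c lam y V N h : ℤ)
    (hV : V*(c*(q+1)^2) = (c+q)*(c^2+3*c*q+q^2-q))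
    (hN : N*(c*(q+1)^3*(c+2*q)) = c^5 + 8*q*c^4 + 24*q^2*c^3 + 6*q*c^3 + 32*q^3*c^2 + 9*q^2*c^2 + c^3
      + 17*q^4*c - q^3*c + 2*q*c^2 + 3*q^5 - 2*q^4 - 3*q^2*c + c^4 - q^3 - q*c)
    (hh : h*(q+1) = (c-1)*(c-2)) (hl : lam*(c*(q+1)) = q*(c+q)*(c+q-1))
    (hy : y*(c*(q+1)*(c+2*q)) = c*(q+1)*(c+2*q) + q*(q*(c+q)*(c+q-1) - c*(q+1))) :
    ∃ F : ℤ, F * (c^5*(q+1)^9*(c+2*q)^3) = (32)*q^18*c^0 + (1817)*q^10*c^7 + (-82)*q^2*c^14 + evZ f7rest q c :=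
  ⟨_, f7_id q c (q+1) (c+2*q) lam y V N h rfl rfl hV hN hh hl hy⟩

theorem f7_exp : ∀ t ∈ f7rest, t.2.1 + t.2.2 ≤ 17 + 1 ∧ 7 * t.2.1 + (7+1) * t.2.2 + 2 ≤ 127 := by
  decide

theorem f7_sum : sumAbs f7rest ≤ 10^8 := by
  decide

theorem f7_exp1 : ∀ t ∈ ((1817, 10, 7) :: (-82, 2, 14) :: f7rest : List (ℤ × ℕ × ℕ)),
    t.2.1 + t.2.2 ≤ 17 + 1 ∧ 8 * t.2.1 + (8+1) * t.2.2 + 1 ≤ 144 := by
  decide

theorem f7_sum1 : sumAbs ((1817, 10, 7) :: (-82, 2, 14) :: f7rest : List (ℤ × ℕ × ℕ)) ≤ 10^8 := by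
  decide

end Pool.Agent.MPa53b92
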