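import Pool.Agent.Work.MP_a53b92_co.Asym

set_option autoImplicit false

namespace Pool.Agent.MPa53b92

def f8rest : List (ℤ × ℕ × ℕ) := [(3, 0, 6), (51, 0, 7), (106, 0, 8), (91, 0, 9), (39, 0, 10), (28, 0, 11), ((-18), 0, 12), ((-39), 1, 5), (144, 1, 6), (965, 1, 7), (1325, 1, 8), (735, 1, 9), (557, 1, 10), ((-190), 1, 11), ((-234), 1, 12), ((-61), 2, 4), ((-372), 2, 5), (2277, 2, 6), (6948, 2, 7), (5570, 2, 8), (4647, 2, 9), ((-461), 2, 10), ((-1994), 2, 11), ((-795), 3, 4), ((-86), 3, 5), (14988, 3, 6), (20988, 3, 7), (21404, 3, 8), (2623, 3, 9), ((-9811), 3, 10), ((-178), 4, 3), ((-3253), 4, 4), (10345, 4, 5), (38688, 4, 6), (58573, 4, 7), (21478, 4, 8), ((-31020), 4, 9), ((-1308), 5, 3), ((-1644), 5, 4), (28037, 5, 5), (92769, 5, 6), (68221, 5, 7), ((-66471), 5, 8), ((-91), 6, 2), ((-1417),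 6, 3), (1, 6, 4), (75323, 6, 5), (120606, 6, 6), ((-99766), 6, 7), (356, 7, 2), ((-5141), 7, 3), (22405, 7, 4), (125465, 7, 5), ((-108375), 7, 6), (122, 8, 1), ((-1011), 8, 2), ((-3000), 8, 3), (79209, 8, 4), ((-88682), 8, 5), (22, 9, 1), ((-3568), 9, 2), (33614, 9, 3), ((-54934), 9, 4), (24, 10, 0), ((-1036), 10, 1), (9999, 10, 2), ((-23677), 10, 3), (616, 10, 4), ((-96), 11, 0), (1756, 11, 1), ((-6484), 11, 2), (1107, 11, 3), (144, 12, 0), ((-1102), 12, 1), (799, 12, 2), ((-96), 13, 0), (238, 13, 1), (24, 14, 0)]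

theorem f8_id (q c X L lam y V N h : ℤ) (hX : X = q+1) (hL : L = c+2*q)
    (hV : V*(c*X^2) = (c+q)*(c^2+3*c*q+q^2-q))
    (hN : N*(c*X^3*L) = c^5 + 8*q*c^4 + 24*q^2*c^3 + 6*q*c^3 + 32*q^3*c^2 + 9*q^2*c^2 + c^3
      + 17*q^4*c - q^3*c + 2*q*c^2 + 3*q^5 - 2*q^4 - 3*q^2*c + c^4 - q^3 - q*c)
    (hh : h*X = (c-1)*(c-2)) (hl : lam*(c*X) = q*(c+q)*(c+q-1))
    (hy : y*(c*X*L) = c*X*L + q*(q*(c+q)*(c+q-1) - c*X)) :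
    (3 + 51*N + 29*N^2 + 26*V + (-18)*V*N + (-6)*V*N^2 + (-24)*V^2 + (-29)*V^3 + 6*V^4) * (c^4*X^8*L^2) =
    (113)*q^9*c^5 + (-12)*q^0*c^13 + evZ f8rest q c := by
  have e : (3 + 51*N + 29*N^2 + 26*V + (-18)*V*N + (-6)*V*N^2 + (-24)*V^2 + (-29)*V^3 + 6*V^4) * (c^4*X^8*L^2) = 3*c^4*X^8*L^2 + 51*(N*(c*X^3*L))*c^3*X^5*L + 29*(N*(c*X^3*L))^2*c^2*X^2 + 26*(V*(c*X^2))*c^3*X^6*L^2 + (-18)*(V*(c*X^2))*(N*(c*X^3*L))*c^2*X^3*L + (-6)*(V*(c*X^2))*(N*(c*X^3*L))^2*c + (-24)*(V*(c*X^2))^2*c^2*X^4*L^2 + (-29)*(V*(c*X^2))^3*c*X^2*L^2 + 6*(V*(c*X^2))^4*L^2 := by ring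
  rw [e, hV, hN]
  subst hX hL
  simp only [f8rest, evZ]
  ring

theorem f8_ex (q c lam y V N h : ℤ)
    (hV : V*(c*(q+1)^2) = (c+q)*(c^2+3*c*q+q^2-q))
    (hN : N*(c*(q+1)^3*(c+2*q)) = c^5 + 8*q*c^4 + 24*q^2*c^3 + 6*q*c^3 + 32*q^3*c^2 + 9*q^2*c^2 + c^3
      + 17*q^4*c - q^3*c + 2*q*c^2 + 3*q^5 - 2*q^4 - 3*q^2*c + c^4 - q^3 - q*c)
    (hh : h*(q+1) = (c-1)*(c-2)) (hl : lam*(c*(q+1)) = q*(c+q)*(c+q-1))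
    (hy : y*(c*(q+1)*(c+2*q)) = c*(q+1)*(c+2*q) + q*(q*(c+q)*(c+q-1) - c*(q+1))) :
    ∃ F : ℤ, F * (c^4*(q+1)^8*(c+2*q)^2) = (113)*q^9*c^5 + (-12)*q^0*c^13 + evZ f8rest q c :=
  ⟨_, f8_id q c (q+1) (c+2*q) lam y V N h rfl rfl hV hN hh hl hy⟩

theorem f8_exp : ∀ t ∈ f8rest, t.2.1 + t.2.2 ≤ 14 ∧ 8 * t.2.1 + (8+1) * t.2.2 + 2 ≤ 118 := by
  decide

theorem f8_sum : sumAbs f8rest ≤ 10^8 := by
  decide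

end Pool.Agent.MPa53b92
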