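import Pool.Agent.Work.MP_a53b92_co.Asym

set_option autoImplicit false

namespace Pool.Agent.MPa53b92

def grest : List (ℤ × ℕ × ℕ) := [((-14), 0, 7), ((-29), 0, 8), ((-24), 0, 9), ((-13), 0, 10), ((-7), 0, 11), ((-74), 1, 6), ((-303), 1, 7), ((-366), 1, 8), ((-231), 1, 9), ((-126), 1, 10), ((-41), 1, 11), ((-134), 2, 5), ((-1089), 2, 6), ((-2146), 2, 7), ((-1764), 2, 8), ((-1023), 2, 9), ((-373), 2, 10), ((-83), 3, 4), ((-1711), 3, 5), ((-6013), 3, 6), ((-7218), 3, 7), ((-4868), 3, 8), ((-1994), 3, 9), ((-1072), 4, 4), ((-8360), 4, 5), ((-16436), 4, 6), ((-14509), 4, 7), ((-6933), 4, 8), ((-105), 5, 3), ((-5074), 5, 4), ((-20073), 5, 5), ((-26678), 5, 6), ((-16138), 5, 7), (238, 5, 8), ((-699), 6, 3), ((-11107), 6, 4), ((-28035), 6, 5), ((-24504), 6, 6),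 (1096, 6, 7), ((-21), 7, 2), ((-1294), 7, 3), ((-13663), 7, 4), ((-22251), 7, 5), (3369, 7, 6), (34, 8, 2), ((-1150), 8, 3), ((-9786), 8, 4), (6764, 8, 5), (13, 9, 1), (35, 9, 2), ((-1247), 9, 3), (8248, 9, 4), ((-96), 9, 5), (23, 10, 1), ((-700), 10, 2), (5247, 10, 3), ((-387), 10, 4), (4, 11, 0), ((-174), 11, 1), (1281, 11, 2), ((-754), 11, 3), ((-16), 12, 0), (254, 12, 1), ((-646), 12, 2), (24, 13, 0), ((-143), 13, 1), (17, 13, 2), ((-16), 14, 0), (27, 14, 1), (4, 15, 0)]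

theorem g_id (q c X L lam y V N h : ℤ) (hX : X = q+1) (hL : L = c+2*q)
    (hV : V*(c*X^2) = (c+q)*(c^2+3*c*q+q^2-q))
    (hN : N*(c*X^3*L) = c^5 + 8*q*c^4 + 24*q^2*c^3 + 6*q*c^3 + 32*q^3*c^2 + 9*q^2*c^2 + c^3
      + 17*q^4*c - q^3*c + 2*q*c^2 + 3*q^5 - 2*q^4 - 3*q^2*c + c^4 - q^3 - q*c)
    (hh : h*X = (c-1)*(c-2)) (hl : lam*(c*X) = q*(c+q)*(c+q-1))
    (hy : y*(c*X*L) = c*X*L + q*(q*(c+q)*(c+q-1) - c*X)) :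
    (40 + (-10)*N + (-5)*N^2 + 20*V + 10*V*N + (-13)*V^2 + (-15)*V^2*N + 5*V^3 + (-78)*q + (-1)*q*N + (-3)*q*N^2 + 37*q*V + 28*q*V*N + (-14)*q*V^2 + (-17)*q*V^2*N + 18*q*V^3 + (-100)*c + (-1)*c*N + 15*c*V*N + 15*c*V^3 + (-27)*h + 2*lam*N^2 + (-1)*y*N^2 + 1*y*V^3) * (c^4*X^7*L^3) =
    (2)*q^3*c^10 + (-2)*q^0*c^12 + (32)*q^4*c^9 + (-9)*q^8*c^6 + (2)*q^12*c^3 + evZ grest q c := by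
  have e : (40 + (-10)*N + (-5)*N^2 + 20*V + 10*V*N + (-13)*V^2 + (-15)*V^2*N + 5*V^3 + (-78)*q + (-1)*q*N + (-3)*q*N^2 + 37*q*V + 28*q*V*N + (-14)*q*V^2 + (-17)*q*V^2*N + 18*q*V^3 + (-100)*c + (-1)*c*N + 15*c*V*N + 15*c*V^3 + (-27)*h + 2*lam*N^2 + (-1)*y*N^2 + 1*y*V^3) * (c^4*X^7*L^3) = 40*c^4*X^7*L^3 + (-10)*(N*(c*X^3*L))*c^3*X^4*L^2 + (-5)*(N*(c*X^3*L))^2*c^2*X*L + 20*(V*(c*X^2))*c^3*X^5*L^3 + 10*(V*(c*X^2))*(N*(c*X^3*L))*c^2*X^2*L^2 + (-13)*(V*(c*X^2))^2*c^2*X^3*L^3 + (-15)*(V*(c*X^2))^2*(N*(c*X^3*L))*c*L^2 + 5*(V*(c*X^2))^3*c*X*L^3 + (-78)*q*c^4*X^7*L^3 + (-1)*q*(N*(c*X^3*L))*c^3*X^4*L^2 + (-3)*q*(N*(c*X^3*L))^2*c^2*X*L + 37*q*(V*(c*X^2))*c^3*X^5*L^3 + 28*q*(V*(c*X^2))*(N*(c*X^3*L))*c^2*X^2*L^2 + (-14)*q*(V*(c*X^2))^2*c^2*X^3*L^3 + (-17)*q*(V*(c*X^2))^2*(N*(c*X^3*L))*c*L^2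 + 18*q*(V*(c*X^2))^3*c*X*L^3 + (-100)*c*c^4*X^7*L^3 + (-1)*c*(N*(c*X^3*L))*c^3*X^4*L^2 + 15*c*(V*(c*X^2))*(N*(c*X^3*L))*c^2*X^2*L^2 + 15*c*(V*(c*X^2))^3*c*X*L^3 + (-27)*(h*X)*c^4*X^6*L^3 + 2*(lam*(c*X))*(N*(c*X^3*L))^2*c*L + (-1)*(y*(c*X*L))*(N*(c*X^3*L))^2*c + 1*(y*(c*X*L))*(V*(c*X^2))^3*L^2 := by ring
  rw [e, hV, hN]
  simp only [hh, hl, hy]
  subst hX hL
  simp only [grest, evZ]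
  ring

theorem g_ex (q c lam y V N h : ℤ)
    (hV : V*(c*(q+1)^2) = (c+q)*(c^2+3*c*q+q^2-q))
    (hN : N*(c*(q+1)^3*(c+2*q)) = c^5 + 8*q*c^4 + 24*q^2*c^3 + 6*q*c^3 + 32*q^3*c^2 + 9*q^2*c^2 + c^3
      + 17*q^4*c - q^3*c + 2*q*c^2 + 3*q^5 - 2*q^4 - 3*q^2*c + c^4 - q^3 - q*c)
    (hh : h*(q+1) = (c-1)*(c-2)) (hl : lam*(c*(q+1)) = q*(c+q)*(c+q-1))
    (hy : y*(c*(q+1)*(c+2*q)) = c*(q+1)*(c+2*q) + q*(q*(c+q)*(c+q-1) - c*(q+1))) :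
    ∃ F : ℤ, F * (c^4*(q+1)^7*(c+2*q)^3) = (2)*q^3*c^10 + (-2)*q^0*c^12 + (32)*q^4*c^9 + (-9)*q^8*c^6 + (2)*q^12*c^3 + evZ grest q c :=
  ⟨_, g_id q c (q+1) (c+2*q) lam y V N h rfl rfl hV hN hh hl hy⟩

theorem g_exp : ∀ t ∈ grest, t.2.1 + t.2.2 ≤ 14 + 1 ∧ 3 * t.2.1 + (3+1) * t.2.2 + 2 ≤ 49 := by
  decide

theorem g_sum : sumAbs grest ≤ 10^8 := by
  decide

end Pool.Agent.MPa53b92
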