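import Mathlib

set_option autoImplicit false

namespace Pool.Agent.MPa53b92

lemma no_w0_zero (b β : ℤ) (hb : 1 ≤ b) (hβ : 2*b + 1 ≤ β)
    (h : 1 - (β^2 - b^2) + b*β*b^2 = 0) : False := by
  have h1 : β * (β - b^3) = b^2 + 1 := by linarith
  have hβpos : 0 < β := by linarith
  have h2 : 0 < β - b^3 := by
    have : 0 < β * (β - b^3) := by rw [h1]; positivity
    exact (mul_pos_iff_of_pos_left hβpos).mp this
  have h3 : β * 1 ≤ β * (β - b^3) := mul_le_mul_of_nonneg_left (by linarith) hβpos.le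
  have h4 : b^3 + 1 ≤ b^2 + 1 := by linarith
  have h5 : b ≤ 1 := by
    by_contra hcon
    push Not at hcon
    nlinarith [sq_nonneg b, mul_pos (show 0 < b by linarith) (show 0 < b - 1 by linarith)]
  have hb1 : b = 1 := by linarith
  subst hb1
  nlinarith

lemma no_one_one (b β : ℤ) (hb : 1 ≤ b) (hβ : 2*b + 1 ≤ β)
    (h : (b+1)^2 - (β^2 - b^2)*(b+1) + b*β*(b^2 - (β - 2*b)*1) = 0) : False := by
  have h1 : ((2*b+1)*β - (b+1)*(b^2+b+1)) * (β + 1) = 0 := by linarith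
  rcases mul_eq_zero.mp h1 with h2 | h2
  · have h3 : (2*b+1) ∣ 3 := ⟨8*β - (4*b^2+10*b+11) + (4*b + 6), by linarith⟩
    have h4 : 2*b+1 ≤ 3 := Int.le_of_dvd (by norm_num) h3
    have hb1 : b = 1 := by linarith
    subst hb1
    linarith
  · linarith

/-- size estimate: the product cannot be at most minus one -/
lemma prod_gt (q c : ℤ) (hq : 2 ≤ q) (hc : 10 * q ≤ c)
    (hu : 0 < q^3 - q^2 - c^2 - 4*q*c - c) :
    -(c^2*(q+1)^3*(c+2*q)) < (q^3 - q^2 - c^2 - 4*q*c - c) *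
      (q^4 - c^3 - 5*q*c^2 - 7*q^2*c - q^3 - c^2 - 2*q*c) := by
  have hq0 : 0 < q := by linarith
  have hc0 : 0 < c := by linarith
  rcases le_or_gt 0 (q^4 - c^3 - 5*q*c^2 - 7*q^2*c - q^3 - c^2 - 2*q*c) with hw | hw
  · have h1 : 0 ≤ (q^3 - q^2 - c^2 - 4*q*c - c) *
      (q^4 - c^3 - 5*q*c^2 - 7*q^2*c - q^3 - c^2 - 2*q*c) := mul_nonneg hu.le hw
    have h2 : 0 < c^2*(q+1)^3*(c+2*q) := by positivity
    linarith
  · set U := q^3 - q^2 - c^2 - 4*q*c - c with hU
    set P := -(q^4 - c^3 - 5*q*c^2 - 7*q^2*c - q^3 - c^2 - 2*q*c) with hP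
    have hPpos : 0 < P := by rw [hP]; linarith
    have hUle : U ≤ q^3 - c^2 := by
      rw [hU]; nlinarith [mul_pos hq0 hc0]
    have hcq : 0 < q^3 - c^2 := by linarith
    have hqc : 0 ≤ c - 10*q := by linarith
    have hPle : P ≤ c^3 + 7*q*c^2 - q^4 := by
      rw [hP]
      have h1 : 10*(q*(q*c)) ≤ q*(c*c) := by nlinarith [mul_nonneg (mul_nonneg hq0.le hc0.le) hqc]
      have h2 : 10*(q*(q*q)) ≤ q*(q*c) := by nlinarith [mul_nonneg (mul_nonneg hq0.le hq0.le) hqc]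
      have h3 : 2*(c*c) ≤ q*(c*c) := by nlinarith [mul_pos hc0 hc0]
      have h4 : 10*(q*c) ≤ c*c := by nlinarith [mul_nonneg hc0.le hqc]
      nlinarith
    have hPU : P * U ≤ (c^3 + 7*q*c^2 - q^4) * (q^3 - c^2) :=
      (mul_le_mul_of_nonneg_left hUle hPpos.le).trans (mul_le_mul_of_nonneg_right hPle hcq.le)
    have hlow : c^2*(q^3*c + 2*q^4) ≤ c^2*(q+1)^3*(c+2*q) := by
      have h1 : q^3 ≤ (q+1)^3 := by nlinarith [mul_pos hq0 hq0]
      have h2 : c^2*q^3*(c+2*q) ≤ c^2*(q+1)^3*(c+2*q) := by gcongr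
      linarith
    have hfin : (c^3 + 7*q*c^2 - q^4) * (q^3 - c^2) < c^2*(q^3*c + 2*q^4) := by
      have h1 : 10*(q*c^4) ≤ c^5 := by nlinarith [mul_nonneg (show 0 ≤ c^4 by positivity) hqc]
      have h2 : 0 < q * (17*c^4 - 6*q^3*c^2 + q^6) := by
        apply mul_pos hq0
        nlinarith [sq_nonneg (q^3 - 3*c^2), show 0 < c^4 by positivity]
      nlinarith
    have : U * -P = -(P*U) := by ring
    have hPneg : (q^4 - c^3 - 5*q*c^2 - 7*q^2*c - q^3 - c^2 - 2*q*c) = -P := by rw [hP]; ring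
    rw [hPneg, this]
    linarith

lemma final_size (q c : ℤ) (hq : 2 ≤ q) (hc0 : 0 < c)
    (h : 2 * (c^2*(q+1)^3*(c+2*q)) ≤ (q^3 - q^2 - c^2 - 4*q*c - c) *
          (q^4 - c^3 - 5*q*c^2 - 7*q^2*c - q^3 - c^2 - 2*q*c))
    (hNupos : 0 < q^3 - q^2 - c^2 - 4*q*c - c) : 3 * c^3 < q^4 := by
  have hq0 : 0 < q := by linarith
  have h4 : c^3*q^3 ≤ c^2*(q+1)^3*(c+2*q) := by
    have h5 : q^3 ≤ (q+1)^3 := by gcongr; linarith
    have h6 : c^2*q^3*c ≤ c^2*(q+1)^3*(c+2*q) := by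
      apply mul_le_mul _ _ hc0.le (by positivity)
      · gcongr
      · linarith
    linarith
  have hNwpos : 0 < q^4 - c^3 - 5*q*c^2 - 7*q^2*c - q^3 - c^2 - 2*q*c := by
    have : 0 < (q^3 - q^2 - c^2 - 4*q*c - c) *
      (q^4 - c^3 - 5*q*c^2 - 7*q^2*c - q^3 - c^2 - 2*q*c) := by
      have : 0 < c^3*q^3 := by positivity
      linarith
    exact (mul_pos_iff_of_pos_left hNupos).mp this
  have h10 : q^4 - c^3 - 5*q*c^2 - 7*q^2*c - q^3 - c^2 - 2*q*c ≤ q^4 - c^3 - 1 := by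
    have : 0 < 5*q*c^2 + 7*q^2*c + q^3 + c^2 + 2*q*c := by positivity
    linarith
  have h6 : q^3 - q^2 - c^2 - 4*q*c - c ≤ q^3 := by
    have : 0 < q^2 + c^2 + 4*q*c + c := by positivity
    linarith
  have h11 : q^3 * (2*c^3) ≤ q^3 * (q^4 - c^3 - 1) := by
    have := mul_le_mul h6 h10 hNwpos.le (by positivity)
    linarith
  have h12 : 2*c^3 ≤ q^4 - c^3 - 1 := le_of_mul_le_mul_left h11 (by positivity)
  linarith

theorem torsor_main (q c lam y h : ℤ) (hq : 2 ≤ q) (hc : 10 * q ≤ c)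
    (E1 : c * (q+1) * lam = q * (c+q) * (c+q-1)) (E2 : (c + 2*q) * (y - 1) = q * (lam - 1))
    (A1 : h * (q+1) = (c-1)*(c-2)) (hy : q + 2 ≤ y) : 3 * c^3 < q^4 := by
  have hq0 : 0 < q := by linarith
  have hc0 : 0 < c := by linarith
  have hgpos : 0 < Int.gcd c q := Int.gcd_pos_of_ne_zero_left _ hc0.ne'
  obtain ⟨gn, a, b, hg, hgcd, hca, hqb⟩ := Int.exists_gcd_one' hgpos
  set g : ℤ := (gn : ℤ) with hgdef
  have hg0 : 0 < g := by rw [hgdef]; exact_mod_cast hg
  have hcop : IsCoprime a b := Int.isCoprime_iff_gcd_eq_one.mpr hgcd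
  have ha0 : 0 < a := by
    by_contra hcon
    push Not at hcon
    have : a * g ≤ 0 := mul_nonpos_of_nonpos_of_nonneg hcon hg0.le
    linarith
  have hb0 : 0 < b := by
    by_contra hcon
    push Not at hcon
    have : b * g ≤ 0 := mul_nonpos_of_nonpos_of_nonneg hcon hg0.le
    linarith
  -- G
  have e2 : (a + 2*b) * (y-1) = b * (lam - 1) := by
    have : g * ((a + 2*b) * (y-1) - b * (lam - 1)) = 0 := by
      rw [hca, hqb] at E2; linear_combination E2
    rcases mul_eq_zero.mp this with h | h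
    · exact absurd h hg0.ne'
    · linarith
  have hcop2 : IsCoprime b (a + 2*b) := by
    have := hcop.symm.add_mul_left_right 2
    rwa [mul_comm b 2] at this
  have hbd : b ∣ y - 1 := by
    have : b ∣ (a+2*b) * (y-1) := ⟨lam - 1, e2⟩
    exact hcop2.dvd_of_dvd_mul_left this
  obtain ⟨G, hG⟩ := hbd
  have hlam : lam = (a+2*b)*G + 1 := by
    have : b * ((a+2*b)*G + 1 - lam) = 0 := by rw [hG] at e2; linear_combination e2
    rcases mul_eq_zero.mp this with h | h
    · exact absurd h hb0.ne'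
    · linarith
  set u := G - g with hu
  have hbu : y - 1 - q = b * u := by rw [hu, hG, hqb]; ring
  have hu1 : 1 ≤ u := by
    have : 0 < b * u := by rw [← hbu]; linarith
    have := (mul_pos_iff_of_pos_left hb0).mp this
    linarith
  -- j
  have hXg : IsCoprime (q+1) (g^2) := by
    apply IsCoprime.pow_right
    exact ⟨1, -b, by rw [hqb]; ring⟩
  have hjd : (q+1) ∣ (a+b)*(a+2*b) := by
    have : (q+1) ∣ g^2 * ((a+b)*(a+2*b)) := by
      refine ⟨h + 3*c - 4 + 2*(q+1), ?_⟩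
      have h1 : g^2 * ((a+b)*(a+2*b)) = (c+q)*(c+2*q) := by rw [hca, hqb]; ring
      rw [h1]; linear_combination -A1
    exact hXg.dvd_of_dvd_mul_left this
  obtain ⟨j, hj⟩ := hjd
  have hj0 : 0 < j := by
    have : 0 < (q+1) * j := by rw [← hj]; positivity
    exact (mul_pos_iff_of_pos_left (by linarith)).mp this
  -- (*)
  have hstar : a*(q+1)*lam = b*(g*(a+b))*(g*(a+b)-1) := by
    have : g * (a*(q+1)*lam - b*(g*(a+b))*(g*(a+b)-1)) = 0 := by
      have h1 := E1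
      rw [hca] at h1
      have h2 : q = b*g := hqb
      linear_combination h1 +
        ((a*g+q)*(a*g+q-1) + b*g*(a*g+q-1) + b*g*(a*g+b*g)) * h2
    rcases mul_eq_zero.mp this with h | h
    · exact absurd h hg0.ne'
    · linarith
  set w0 := j*u - b with hw0
  have hbgj : b*g*j = (a+b)*(a+2*b) - j := by
    rw [hj, hqb]; ring
  have hbjl : b*j*lam = (a+2*b)*((a+b)*(a+2*b) - j) + (a+2*b)*b*(w0+b) + b*j := by
    rw [hlam, ← hbgj, hw0, hu]; ring
  have hss : j^2 - ((a+2*b)^2 - b^2)*j + b*(a+2*b)*(b^2 - a*w0) = 0 := by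
    have hαβ : 0 < (a+b)*(a+2*b) := by positivity
    have h1 : (a+b)*(a+2*b) * (j^2 - ((a+2*b)^2 - b^2)*j + b*(a+2*b)*(b^2 - a*w0)) = 0 := by
      have h2 : a * ((a+b)*(a+2*b)) * (b*j*lam) = ((a+b)*(a+2*b) - j)*(a+b) *
          (((a+b)*(a+2*b) - j)*(a+b) - b*j) := by
        rw [← hbgj]
        rw [hj]
        linear_combination b*j^2*hstar
      rw [hbjl] at h2
      linear_combination -h2
    rcases mul_eq_zero.mp h1 with h | h
    · exact absurd h hαβ.ne'
    · exact h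
  have hNu : q^3 - q^2 - c^2 - 4*q*c - c = a*(q+1)*g*(a+2*b)*u := by
    have h1 : c*(q+1)*(c+2*q)*(y-1-q) = q*(q^3 - q^2 - c^2 - 4*q*c - c) := by
      linear_combination c*(q+1)*E2 + q*E1
    rw [hbu] at h1
    have h2 : q * (q^3 - q^2 - c^2 - 4*q*c - c - a*(q+1)*g*(a+2*b)*u) = 0 := by
      have h3 : c*(q+1)*(c+2*q)*(b*u) = q*(a*(q+1)*g*(a+2*b)*u) := by
        have h4 : c * (c+2*q) * b = q * (a*g*(a+2*b)) := by
          rw [hca, hqb]; ring
        linear_combination (q+1)*u*h4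
      linear_combination h3 - h1
    rcases mul_eq_zero.mp h2 with h | h
    · exact absurd h hq0.ne'
    · linarith
  have hNw : q^4 - c^3 - 5*q*c^2 - 7*q^2*c - q^3 - c^2 - 2*q*c = w0*g^2*a*(q+1)^2 := by
    have h1 : (q+1)*w0 = (a+b)*(a+2*b)*u - b*(q+1) := by
      rw [hj, hw0]; ring
    have h2 : w0*g^2*a*(q+1)^2 = (a*(q+1)*g*(a+2*b)*u) * (a*g+b*g) - (a*g)*(b*g)*(q+1)^2 := by
      linear_combination g^2*a*(q+1)*h1
    rw [h2, ← hNu, ← hca, ← hqb]
    ring
  have hprod : (q^3 - q^2 - c^2 - 4*q*c - c) *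
      (q^4 - c^3 - 5*q*c^2 - 7*q^2*c - q^3 - c^2 - 2*q*c) = (u*w0)*(c^2*(q+1)^3*(c+2*q)) := by
    rw [hNu, hNw]
    have h4 : c^2 * (c+2*q) = a^2*g^3*(a+2*b) := by
      rw [hca, hqb]; ring
    linear_combination -(u*w0*(q+1)^3)*h4
  have hNupos : 0 < q^3 - q^2 - c^2 - 4*q*c - c := by
    rw [hNu]
    have : 0 < u := by linarith
    have : 0 < q + 1 := by linarith
    positivity
  have hM : 0 < c^2*(q+1)^3*(c+2*q) := by positivity
  have hw0nn : 0 ≤ w0 := by
    have h1 := prod_gt q c hq hc hNupos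
    rw [hprod] at h1
    by_contra hcon
    push Not at hcon
    have h2 : u * w0 ≤ 1 * w0 := mul_le_mul_of_nonpos_right hu1 (by linarith)
    have h3 : u * w0 ≤ -1 := by linarith
    have h4 := mul_le_mul_of_nonneg_right h3 hM.le
    linarith
  have hβ : 2*b + 1 ≤ a + 2*b := by linarith
  rcases hw0nn.eq_or_lt with hz | hz
  · exfalso
    have hju : j * u = b := by
      have : w0 = 0 := hz.symm
      rw [hw0] at this
      linarith
    have hcb : IsCoprime ((a+b)*(a+2*b)) b := by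
      apply IsCoprime.mul_left
      · have := hcop.add_mul_right_left 1
        rwa [one_mul] at this
      · exact hcop2.symm
    have hcj : IsCoprime j b := by
      rw [hj] at hcb
      exact hcb.of_mul_left_right
    have hjb : j ∣ b := ⟨u, hju.symm⟩
    have hj1 : IsUnit j := by
      have := hcj.isUnit_of_dvd' (dvd_refl j) hjb
      exact this
    have hj2 : j = 1 := by
      rcases Int.isUnit_iff.mp hj1 with h | h
      · exact h
      · linarith
    rw [hj2, ← hz] at hss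
    exact no_w0_zero b (a+2*b) hb0 hβ (by linear_combination hss)
  · have hcase : (u = 1 ∧ w0 = 1) ∨ 2 ≤ u * w0 := by
      rcases (show 1 ≤ w0 by linarith).eq_or_lt with h1 | h1
      · rcases hu1.eq_or_lt with h2 | h2
        · left; exact ⟨h2.symm, h1.symm⟩
        · right; rw [← h1, mul_one]; linarith
      · right
        have h2 : 1 * 2 ≤ u * w0 := mul_le_mul hu1 (by linarith) (by norm_num) (by linarith)
        linarith
    rcases hcase with ⟨h1, h2⟩ | h2
    · exfalso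
      have hj2 : j = b + 1 := by
        rw [h1] at hw0
        linarith
      rw [hj2, h2] at hss
      exact no_one_one b (a+2*b) hb0 hβ (by linear_combination hss)
    · have h3 : 2 * (c^2*(q+1)^3*(c+2*q)) ≤ (q^3 - q^2 - c^2 - 4*q*c - c) *
          (q^4 - c^3 - 5*q*c^2 - 7*q^2*c - q^3 - c^2 - 2*q*c) := by
        rw [hprod]
        exact mul_le_mul_of_nonneg_right h2 hM.le
      exact final_size q c hq hc0 h3 hNupos

end Pool.Agent.MPa53b92
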