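import Mathlib

set_option autoImplicit false

namespace Pool.Agent.MPa53b92

/-- the arithmetic contradiction near an integer exponent -/
theorem window_contra (α β γ α' F F' : ℤ) (x T Δ R R' : ℝ)
    (hα : 1 ≤ α) (hα2 : α ≤ 2000) (hβ : |β| ≤ 2000) (hγ : 1 ≤ |γ|) (hγ2 : |γ| ≤ 2000)
    (hα' : 1 ≤ α') (hα'2 : α' ≤ 2000)
    (hx0 : 0 < x) (hx : x * (10^20)^20 ≤ 1) (hT0 : 0 < T) (hMT : 1 ≤ 10^20 * T) (hTx : T * x * 10^20 ≤ 1)
    (hΔ1 : 1 ≤ Δ) (hΔ2 : Δ ≤ 1 + 100 * x)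
    (h1 : (F:ℝ) * Δ = x * (α * T + β + γ / T) + R) (hR : |R| * 10^20 ≤ 10^8 * x)
    (h2 : (F':ℝ) * Δ = α' * T + R')
    (hR' : T ≤ 10^8 → 1 ≤ 10^8 * T → |R'| ≤ 10^8 * x * (10^8)^35)
    (hne : ∀ k : ℤ, α * k^2 + β * α' * k + γ * α'^2 ≠ 0) : False := by
  have hαr : (1:ℝ) ≤ α := by exact_mod_cast hα
  have hα2r : (α:ℝ) ≤ 2000 := by exact_mod_cast hα2
  have hβr : |(β:ℝ)| ≤ 2000 := by exact_mod_cast hβ
  have hγr : (1:ℝ) ≤ |(γ:ℝ)| := by exact_mod_cast hγ
  have hγ2r : |(γ:ℝ)| ≤ 2000 := by exact_mod_cast hγ2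
  have hα'r : (1:ℝ) ≤ α' := by exact_mod_cast hα'
  have hα'2r : (α':ℝ) ≤ 2000 := by exact_mod_cast hα'2
  have hTi : 1 / T ≤ 10^20 := by rw [div_le_iff₀ hT0]; exact hMT
  have hTinv : 0 < 1 / T := by positivity
  have hxs : x ≤ 1/(10^20)^20 := by rw [le_div_iff₀ (by positivity)]; exact hx
  have hTx' : T * x ≤ 1/10^20 := by rw [le_div_iff₀ (by positivity)]; exact hTx
  have hRs : |R| ≤ 1/10^12 * x := by
    have : |R| * 10^20 ≤ (1/10^12 * x) * 10^20 := by
      calc |R| * 10^20 ≤ 10^8 * x := hR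
        _ = (1/10^12 * x) * 10^20 := by ring
    exact le_of_mul_le_mul_right this (by positivity)
  -- F = 0
  have hγT : |(γ:ℝ) / T| ≤ 2000 * (1/T) := by
    rw [abs_div, abs_of_pos hT0, div_eq_mul_one_div]; gcongr
  have hF0 : F = 0 := by
    have hb : |(F:ℝ)| < 1 := by
      have h3 : |(F:ℝ)| ≤ |(F:ℝ) * Δ| := by
        rw [abs_mul, abs_of_pos (by linarith : 0 < Δ)]
        exact le_mul_of_one_le_right (abs_nonneg _) hΔ1
      refine lt_of_le_of_lt h3 ?_
      rw [h1]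
      have h4 : |x * (α * T + β + γ / T) + R| ≤ x * (2000 * T + 2000 + 2000 * (1/T)) + |R| := by
        refine (abs_add_le _ _).trans ?_
        rw [abs_mul, abs_of_pos hx0]
        have : |(α:ℝ) * T + β + γ / T| ≤ 2000 * T + 2000 + 2000 * (1/T) := by
          refine (abs_add_le _ _).trans ?_
          refine add_le_add ((abs_add_le _ _).trans (add_le_add ?_ hβr)) hγT
          rw [abs_of_pos (by positivity)]; gcongr
        gcongr
      refine lt_of_le_of_lt h4 ?_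
      have e1 : x * (1/T) ≤ 1/(10^20)^20 * 10^20 := by gcongr
      have e2 : x * (2000 * T + 2000 + 2000 * (1/T)) = 2000 * (T*x) + 2000 * x + 2000 * (x * (1/T)) := by ring
      rw [e2]
      calc 2000 * (T*x) + 2000 * x + 2000 * (x * (1/T)) + |R|
          ≤ 2000 * (1/10^20) + 2000 * (1/(10^20)^20) + 2000 * (1/(10^20)^20 * 10^20) + 1/10^12 * (1/(10^20)^20) := by
            gcongr
            exact hRs.trans (by gcongr)
        _ < 1 := by norm_num
    have : |F| < 1 := by exact_mod_cast hb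
    exact Int.abs_lt_one_iff.mp this
  -- the quadratic
  rw [hF0] at h1
  have hρ : ∃ ρ : ℝ, α * T + β + γ / T = ρ ∧ |ρ| ≤ 1/10^12 := by
    refine ⟨_, rfl, ?_⟩
    have e : x * (α * T + β + γ / T) = -R := by
      have : ((0:ℤ):ℝ) * Δ = 0 := by simp
      rw [this] at h1; linarith
    have : x * |(α:ℝ) * T + β + γ / T| ≤ x * (1/10^12) := by
      calc x * |(α:ℝ) * T + β + γ / T| = |x * (α * T + β + γ / T)| := by rw [abs_mul, abs_of_pos hx0]
        _ = |R| := by rw [e, abs_neg]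
        _ ≤ _ := by rw [mul_comm x]; exact hRs
    exact le_of_mul_le_mul_left this hx0
  obtain ⟨ρ, hρe, hρb⟩ := hρ
  have hρ1 : |ρ| ≤ 1 := hρb.trans (by norm_num)
  rw [abs_le] at hβr hρ1
  have hTup : T ≤ 6000 := by
    by_contra hcon
    push Not at hcon
    have h3 : |(γ:ℝ) / T| ≤ 1 := by
      refine hγT.trans ?_
      have : 1 / T ≤ 1/6000 := one_div_le_one_div_of_le (by norm_num) hcon.le
      linarith
    rw [abs_le] at h3
    have h4 : T ≤ α * T := le_mul_of_one_le_left hT0.le hαr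
    linarith
  have hTlow : 1 ≤ 10^8 * T := by
    by_contra hcon
    push Not at hcon
    have h3 : (10:ℝ)^8 < 1 / T := by rw [lt_div_iff₀ hT0]; exact hcon
    have h4 : 1/T ≤ |(γ:ℝ) / T| := by
      rw [abs_div, abs_of_pos hT0]; gcongr
    have h5 : |(γ:ℝ) / T| ≤ 2000 * 6000 + 2001 := by
      have : (γ:ℝ)/T = ρ - α * T - β := by linarith
      rw [this, abs_le]
      have hαT : (α:ℝ) * T ≤ 2000 * 6000 := by gcongr
      have hαT0 : 0 ≤ (α:ℝ) * T := by positivity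
      constructor <;> linarith
    have : (10:ℝ)^8 < 2000 * 6000 + 2001 := by linarith
    norm_num at this
  have hR'b : |R'| ≤ 1/10^100 := by
    refine (hR' (hTup.trans (by norm_num)) hTlow).trans ?_
    calc 10^8 * x * (10^8)^35 ≤ 10^8 * (1/(10^20)^20) * (10^8)^35 := by gcongr
      _ ≤ 1/10^100 := by norm_num
  have hα'T : (α':ℝ) * T ≤ 2000 * 6000 := by gcongr
  have hα'T0 : 0 ≤ (α':ℝ) * T := by positivity
  have hF'b : |(F':ℝ)| ≤ 2 * 10^7 := by
    have h3 : |(F':ℝ)| ≤ |(F':ℝ) * Δ| := by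
      rw [abs_mul, abs_of_pos (by linarith : 0 < Δ)]
      exact le_mul_of_one_le_right (abs_nonneg _) hΔ1
    refine h3.trans ?_
    rw [h2]
    refine (abs_add_le _ _).trans ?_
    rw [abs_of_nonneg hα'T0]
    calc (α':ℝ) * T + |R'| ≤ 2000 * 6000 + 1/10^100 := add_le_add hα'T hR'b
      _ ≤ 2 * 10^7 := by norm_num
  have hδ : |(F':ℝ) - α' * T| ≤ 1/10^90 := by
    have e : (F':ℝ) - α' * T = R' - F' * (Δ - 1) := by linarith
    rw [e]
    refine (abs_sub _ _).trans ?_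
    rw [abs_mul, abs_of_nonneg (by linarith : 0 ≤ Δ - 1)]
    calc |R'| + |(F':ℝ)| * (Δ - 1) ≤ 1/10^100 + 2*10^7 * (100 * (1/(10^20)^20)) := by
          gcongr
          linarith
      _ ≤ 1/10^90 := by norm_num
  set δ := (F':ℝ) - α' * T with hδdef
  -- final
  have hkey : (α:ℝ) * F'^2 + β * α' * F' + γ * α'^2
      = α'^2 * T * ρ + δ * (α * (F' + α' * T) + β * α') := by
    have hF'e : (F':ℝ) = α' * T + δ := by rw [hδdef]; ring
    have hγe : (γ:ℝ) = T * ρ - α * T^2 - β * T := by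
      rw [← hρe]; field_simp; ring
    rw [hF'e, hγe]; ring
  have hsmall : |(α:ℝ) * F'^2 + β * α' * F' + γ * α'^2| < 1 := by
    rw [hkey]
    refine lt_of_le_of_lt (abs_add_le _ _) ?_
    rw [abs_mul ((α':ℝ)^2 * T), abs_mul δ, abs_of_nonneg (by positivity : 0 ≤ (α':ℝ)^2 * T)]
    have hb1 : (α':ℝ)^2 * T * |ρ| ≤ 2000^2 * 6000 * (1/10^12) := by gcongr
    have hb2 : |(α:ℝ) * (F' + α' * T) + β * α'| ≤ 2000 * (2*10^7 + 2000*6000) + 2000*2000 := by
      refine (abs_add_le _ _).trans ?_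
      rw [abs_mul, abs_mul, abs_of_pos (by linarith : 0 < (α:ℝ)), abs_of_pos (by linarith : 0 < (α':ℝ))]
      have : |(F':ℝ) + α' * T| ≤ 2*10^7 + 2000*6000 := by
        refine (abs_add_le _ _).trans ?_
        rw [abs_of_nonneg hα'T0]
        exact add_le_add hF'b hα'T
      have hβ' : |(β:ℝ)| ≤ 2000 := abs_le.mpr hβr
      gcongr
    calc (α':ℝ)^2 * T * |ρ| + |δ| * |(α:ℝ) * (F' + α' * T) + β * α'|
        ≤ 2000^2 * 6000 * (1/10^12) + (1/10^90) * (2000 * (2*10^7 + 2000*6000) + 2000*2000) := by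
          gcongr
      _ < 1 := by norm_num
  have hint : |α * F'^2 + β * α' * F' + γ * α'^2| < 1 := by exact_mod_cast hsmall
  exact hne F' (Int.abs_lt_one_iff.mp hint)

/-- the last window -/
theorem window8_contra (F F' : ℤ) (x T Δ Δ' R R' : ℝ)
    (hx0 : 0 < x) (hx : x * (10^20)^20 ≤ 1) (hT0 : 0 < T) (hMT : 1 ≤ 10^20 * T)
    (hΔ1 : 1 ≤ Δ) (hΔ'1 : 1 ≤ Δ') (hΔ'2 : Δ' ≤ 1 + 100 * x)
    (h1 : (F:ℝ) * Δ = x * (113 - 12 / T) + R) (hR : |R| * 10^20 ≤ 10^8 * x)
    (h2 : (F':ℝ) * Δ' = 32 * T + R')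
    (hR' : T ≤ 10^8 → 1 ≤ 10^8 * T → |R'| ≤ 10^8 * x * (10^8)^35) : False := by
  have hTi : 1 / T ≤ 10^20 := by rw [div_le_iff₀ hT0]; exact hMT
  have hTinv : 0 < 1 / T := by positivity
  have hxs : x ≤ 1/(10^20)^20 := by rw [le_div_iff₀ (by positivity)]; exact hx
  have hRs : |R| ≤ 1/10^12 * x := by
    have : |R| * 10^20 ≤ (1/10^12 * x) * 10^20 := by
      calc |R| * 10^20 ≤ 10^8 * x := hR
        _ = (1/10^12 * x) * 10^20 := by ring
    exact le_of_mul_le_mul_right this (by positivity)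
  have h12 : |(113:ℝ) - 12 / T| ≤ 113 + 12 * (1/T) := by
    rw [abs_le, div_eq_mul_one_div 12 T]; constructor <;> linarith
  have hF0 : F = 0 := by
    have hb : |(F:ℝ)| < 1 := by
      have h3 : |(F:ℝ)| ≤ |(F:ℝ) * Δ| := by
        rw [abs_mul, abs_of_pos (by linarith : 0 < Δ)]
        exact le_mul_of_one_le_right (abs_nonneg _) hΔ1
      refine lt_of_le_of_lt h3 ?_
      rw [h1]
      have h4 : |x * (113 - 12 / T) + R| ≤ x * (113 + 12 * (1/T)) + |R| := by
        refine (abs_add_le _ _).trans ?_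
        rw [abs_mul, abs_of_pos hx0]
        gcongr
      refine lt_of_le_of_lt h4 ?_
      calc x * (113 + 12 * (1/T)) + |R|
          ≤ 1/(10^20)^20 * (113 + 12 * 10^20) + 1/10^12 * (1/(10^20)^20) := by
            gcongr
            exact hRs.trans (by gcongr)
        _ < 1 := by norm_num
    have : |F| < 1 := by exact_mod_cast hb
    exact Int.abs_lt_one_iff.mp this
  rw [hF0] at h1
  have hρ : |(113:ℝ) - 12 / T| ≤ 1/10^12 := by
    have e : x * (113 - 12 / T) = -R := by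
      have : ((0:ℤ):ℝ) * Δ = 0 := by simp
      rw [this] at h1; linarith
    have : x * |(113:ℝ) - 12 / T| ≤ x * (1/10^12) := by
      calc x * |(113:ℝ) - 12 / T| = |x * (113 - 12 / T)| := by rw [abs_mul, abs_of_pos hx0]
        _ = |R| := by rw [e, abs_neg]
        _ ≤ _ := by rw [mul_comm x]; exact hRs
    exact le_of_mul_le_mul_left this hx0
  have hTe : 12 / T * T = 12 := by field_simp
  have hTup : T ≤ 1 := by
    by_contra hcon
    push Not at hcon
    have h3 : 12 / T ≤ 12 := by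
      rw [div_le_iff₀ hT0]; linarith
    rw [abs_le] at hρ
    have : (1:ℝ)/10^12 ≤ 1 := by norm_num
    linarith
  have hTlow : 1 ≤ 10^8 * T := by
    have h3 : 12 / T ≤ 114 := by
      rw [abs_le] at hρ
      have : (1:ℝ)/10^12 ≤ 1 := by norm_num
      linarith
    rw [div_le_iff₀ hT0] at h3
    linarith
  have hR'b : |R'| ≤ 1/10^100 := by
    refine (hR' (hTup.trans (by norm_num)) hTlow).trans ?_
    calc 10^8 * x * (10^8)^35 ≤ 10^8 * (1/(10^20)^20) * (10^8)^35 := by gcongr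
      _ ≤ 1/10^100 := by norm_num
  have hF'b : |(F':ℝ)| ≤ 33 := by
    have h3 : |(F':ℝ)| ≤ |(F':ℝ) * Δ'| := by
      rw [abs_mul, abs_of_pos (by linarith : 0 < Δ')]
      exact le_mul_of_one_le_right (abs_nonneg _) hΔ'1
    refine h3.trans ?_
    rw [h2]
    refine (abs_add_le _ _).trans ?_
    rw [abs_of_nonneg (by positivity : 0 ≤ 32 * T)]
    calc 32 * T + |R'| ≤ 32 * 1 + 1/10^100 := by gcongr
      _ ≤ 33 := by norm_num
  have hδ : |(F':ℝ) - 32 * T| ≤ 1/10^90 := by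
    have e : (F':ℝ) - 32 * T = R' - F' * (Δ' - 1) := by linarith
    rw [e]
    refine (abs_sub _ _).trans ?_
    rw [abs_mul, abs_of_nonneg (by linarith : 0 ≤ Δ' - 1)]
    calc |R'| + |(F':ℝ)| * (Δ' - 1) ≤ 1/10^100 + 33 * (100 * (1/(10^20)^20)) := by
          gcongr
          linarith
      _ ≤ 1/10^90 := by norm_num
  have hfin : |113 * (F':ℝ) - 384| < 1 := by
    have e : 113 * (F':ℝ) - 384 = 113 * ((F':ℝ) - 32 * T) + 32 * T * (113 - 12 / T) := by
      have : 32 * T * (113 - 12 / T) = 32 * 113 * T - 32 * (12 / T * T) := by ring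
      rw [this, hTe]; ring
    rw [e]
    refine lt_of_le_of_lt (abs_add_le _ _) ?_
    rw [abs_mul, abs_mul (32 * T), abs_of_pos (by norm_num : (0:ℝ) < 113), abs_of_pos (by positivity : 0 < 32 * T)]
    calc 113 * |(F':ℝ) - 32 * T| + 32 * T * |113 - 12 / T| ≤ 113 * (1/10^90) + 32 * 1 * (1/10^12) := by gcongr
      _ < 1 := by norm_num
  have hint : |113 * F' - 384| < 1 := by exact_mod_cast hfin
  have := Int.abs_lt_one_iff.mp hint
  omega

/-- positive window (`f4`) -/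
theorem window4_contra (F : ℤ) (x T Δ R : ℝ)
    (hx0 : 0 < x) (hx : x * (10^20)^20 ≤ 1) (hT0 : 0 < T) (hMT : 1 ≤ 10^20 * T) (hTx : T * x * 10^20 ≤ 1)
    (hΔ1 : 1 ≤ Δ)
    (h1 : (F:ℝ) * Δ = x * (171 * T - 10 + 5 / T + 2 / T^2) + R) (hR : |R| * 10^20 ≤ 10^8 * x) : False := by
  have hTi : 1 / T ≤ 10^20 := by rw [div_le_iff₀ hT0]; exact hMT
  have hTinv : 0 < 1 / T := by positivity
  have hxs : x ≤ 1/(10^20)^20 := by rw [le_div_iff₀ (by positivity)]; exact hx
  have hTx' : T * x ≤ 1/10^20 := by rw [le_div_iff₀ (by positivity)]; exact hTx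
  have hRs : |R| ≤ 1/10^12 * x := by
    have : |R| * 10^20 ≤ (1/10^12 * x) * 10^20 := by
      calc |R| * 10^20 ≤ 10^8 * x := hR
        _ = (1/10^12 * x) * 10^20 := by ring
    exact le_of_mul_le_mul_right this (by positivity)
  rw [abs_le] at hRs
  have hpos : 0 < (F:ℝ) * Δ := by
    rw [h1]
    have h3 : 1 ≤ 171 * T - 10 + 5 / T + 2 / T^2 := by
      have h4 : 11 ≤ 171 * T + 5 / T := by
        rw [div_eq_mul_one_div 5 T]
        have h5 : T * (1/T) = 1 := by field_simp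
        nlinarith [sq_nonneg (T - 1/T), sq_nonneg (171 * T - 5 * (1/T)), mul_pos hT0 hTinv]
      have h6 : 0 < 2 / T^2 := by positivity
      linarith
    have : x * 1 ≤ x * (171 * T - 10 + 5 / T + 2 / T^2) := mul_le_mul_of_nonneg_left h3 hx0.le
    have h7 : (1:ℝ)/10^12 * x ≤ 1/2 * x := by gcongr; norm_num
    linarith
  have hlt : (F:ℝ) * Δ < 1 := by
    rw [h1]
    have e : x * (171 * T - 10 + 5 / T + 2 / T^2) = 171 * (T * x) - 10 * x + 5 * (x * (1/T)) + 2 * (x * (1/T)^2) := by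
      field_simp
    rw [e]
    have h3 : 171 * (T * x) + 5 * (x * (1/T)) + 2 * (x * (1/T)^2) + 1/10^12 * x
        ≤ 171 * (1/10^20) + 5 * (1/(10^20)^20 * 10^20) + 2 * (1/(10^20)^20 * (10^20)^2) + 1/10^12 * (1/(10^20)^20) := by
      gcongr
    have h4 : 171 * ((1:ℝ)/10^20) + 5 * (1/(10^20)^20 * 10^20) + 2 * (1/(10^20)^20 * (10^20)^2) + 1/10^12 * (1/(10^20)^20) < 1 := by
      norm_num
    linarith
  have hF0 : 0 < (F:ℝ) := by
    by_contra hcon
    push Not at hcon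
    have : (F:ℝ) * Δ ≤ 0 := mul_nonpos_of_nonpos_of_nonneg hcon (by linarith)
    linarith
  have hF1 : (F:ℝ) < 1 := by
    have : (F:ℝ) ≤ F * Δ := le_mul_of_one_le_right hF0.le hΔ1
    linarith
  have h1' : 0 < F := by exact_mod_cast hF0
  have h2' : F < 1 := by exact_mod_cast hF1
  omega

/-- positive window (`g`) -/
theorem window3_contra (F : ℤ) (x T Δ R : ℝ)
    (hx0 : 0 < x) (hx : x * (10^20)^20 ≤ 1) (hT3 : 3 ≤ T) (hTx : T * x * 10^20 ≤ 1)
    (hΔ1 : 1 ≤ Δ)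
    (h1 : (F:ℝ) * Δ = 2 / T + x * (2 * T - 9 + 32 / T - 2 / T^2) + R) (hR : |R| * 10^20 ≤ 10^8 * x) : False := by
  have hT0 : 0 < T := by linarith
  have hTi : 1 / T ≤ 1/3 := one_div_le_one_div_of_le (by norm_num) hT3
  have hTinv : 0 < 1 / T := by positivity
  have hxs : x ≤ 1/(10^20)^20 := by rw [le_div_iff₀ (by positivity)]; exact hx
  have hTx' : T * x ≤ 1/10^20 := by rw [le_div_iff₀ (by positivity)]; exact hTx
  have hRs : |R| ≤ 1/10^12 * x := by
    have : |R| * 10^20 ≤ (1/10^12 * x) * 10^20 := by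
      calc |R| * 10^20 ≤ 10^8 * x := hR
        _ = (1/10^12 * x) * 10^20 := by ring
    exact le_of_mul_le_mul_right this (by positivity)
  rw [abs_le] at hRs
  have hRs1 : (1:ℝ)/10^12 * x ≤ 1/2 * x := by gcongr; norm_num
  have hpos : 0 < (F:ℝ) * Δ := by
    rw [h1]
    have h6 : 2 / T^2 ≤ 1 := by
      rw [div_le_one (by positivity)]; nlinarith
    have h7 : 0 < 32 / T := by positivity
    have h8 : x * (2 * T - 10) ≤ x * (2 * T - 9 + 32 / T - 2 / T^2) :=
      mul_le_mul_of_nonneg_left (by linarith) hx0.le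
    have h9 : 10.5 * x < 2 / T + 2 * T * x := by
      rcases le_or_gt T 100 with h | h
      · have h10 : (2:ℝ)/100 ≤ 2 / T := by gcongr
        have h11 : 0 < 2 * T * x := by positivity
        have h12 : 10.5 * x ≤ 10.5 * (1/(10^20)^20) := by gcongr
        have h13 : (10.5:ℝ) * (1/(10^20)^20) < 2/100 := by norm_num
        linarith
      · have h10 : 0 < 2 / T := by positivity
        have h11 : 100 * x ≤ T * x := by gcongr
        linarith
    have : x * (2 * T - 10) = 2 * T * x - 10 * x := by ring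
    linarith
  have hlt : (F:ℝ) * Δ < 1 := by
    rw [h1]
    have h5 : 2 / T ≤ 2/3 := by
      rw [div_eq_mul_one_div 2 T]; linarith
    have h6 : 32 / T ≤ 32/3 := by
      rw [div_eq_mul_one_div 32 T]; linarith
    have h7 : 0 < 2 / T^2 := by positivity
    have h8 : x * (2 * T - 9 + 32 / T - 2 / T^2) ≤ x * (2 * T + 2) :=
      mul_le_mul_of_nonneg_left (by linarith) hx0.le
    have h9 : x * (2 * T + 2) + 1/2 * x = 2 * (T * x) + 2.5 * x := by ring
    have h10 : 2 * (T * x) + 2.5 * x ≤ 2 * (1/10^20) + 2.5 * (1/(10^20)^20) := by gcongr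
    have h11 : 2 * (1/10^20) + 2.5 * ((1:ℝ)/(10^20)^20) < 1/6 := by norm_num
    linarith
  have hF0 : 0 < (F:ℝ) := by
    by_contra hcon
    push Not at hcon
    have : (F:ℝ) * Δ ≤ 0 := mul_nonpos_of_nonpos_of_nonneg hcon (by linarith)
    linarith
  have hF1 : (F:ℝ) < 1 := by
    have : (F:ℝ) ≤ F * Δ := le_mul_of_one_le_right hF0.le hΔ1
    linarith
  have h1' : 0 < F := by exact_mod_cast hF0
  have h2' : F < 1 := by exact_mod_cast hF1
  omega

end Pool.Agent.MPa53b92
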