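import Pool.Agent.Work.MP_a53b92_co.Forms
import Pool.Agent.Work.MP_a53b92_co.Window
import Pool.Agent.Work.MP_a53b92_co.Torsor
import Pool.Agent.Work.MP_a53b92_co.Datag
import Pool.Agent.Work.MP_a53b92_co.Dataf4
import Pool.Agent.Work.MP_a53b92_co.Dataf5
import Pool.Agent.Work.MP_a53b92_co.Dataf6
import Pool.Agent.Work.MP_a53b92_co.Dataf7
import Pool.Agent.Work.MP_a53b92_co.Dataf8

set_option autoImplicit false

namespace Pool.Agent.MPa53b92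

lemma not_sq (m a n : ℤ) (_ : 0 ≤ a) (h1 : a^2 < n) (h2 : n < (a+1)^2) : m^2 ≠ n := by
  intro h
  have h3 : a < |m| := by
    by_contra hcon
    push Not at hcon
    have : |m|^2 ≤ a^2 := pow_le_pow_left₀ (abs_nonneg m) hcon 2
    rw [sq_abs] at this
    linarith
  have h4 : |m| < a + 1 := by
    by_contra hcon
    push Not at hcon
    have : (a+1)^2 ≤ |m|^2 := pow_le_pow_left₀ (by linarith) hcon 2
    rw [sq_abs] at this
    linarith
  omega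

lemma hne5 : ∀ k : ℤ, (77:ℤ) * k^2 + (-178) * 171 * k + 57 * 171^2 ≠ 0 := by
  intro k h
  exact not_sq (2*77*k - 178*171) 20325 (14128*171^2) (by norm_num) (by norm_num) (by norm_num)
    (by linear_combination 4*77*h)

lemma hne6 : ∀ k : ℤ, (41:ℤ) * k^2 + (-796) * 77 * k + 77 * 77^2 ≠ 0 := by
  intro k h
  exact not_sq (2*41*k - 796*77) 60678 (620988*77^2) (by norm_num) (by norm_num) (by norm_num)
    (by linear_combination 4*41*h)

lemma hne7 : ∀ k : ℤ, (32:ℤ) * k^2 + 1817 * 41 * k + (-82) * 41^2 ≠ 0 := by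
  intro k h
  exact not_sq (2*32*k + 1817*41) 74615 (3311985*41^2) (by norm_num) (by norm_num) (by norm_num)
    (by linear_combination 4*32*h)

/-- the denominators are close to one -/
lemma delta_ge (q c : ℤ) (hq0 : 0 < q) (hc0 : 0 < c) (j k : ℕ) :
    (1:ℝ) ≤ (((q:ℝ)+1)/q)^j * (((c:ℝ)+2*q)/c)^k := by
  have hqr : (0:ℝ) < q := by exact_mod_cast hq0
  have hcr : (0:ℝ) < c := by exact_mod_cast hc0
  have h1 : 1 ≤ ((q:ℝ)+1)/q := by rw [le_div_iff₀ hqr]; linarith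
  have h2 : 1 ≤ ((c:ℝ)+2*q)/c := by rw [le_div_iff₀ hcr]; linarith
  have h3 := one_le_pow₀ (n := j) h1
  have h4 := one_le_pow₀ (n := k) h2
  calc (1:ℝ) = 1 * 1 := by ring
    _ ≤ _ := mul_le_mul h3 h4 (by norm_num) (by positivity)

lemma delta_le (q c : ℤ) (x : ℝ) (hq0 : 0 < q) (hc0 : 0 < c) (hq : (c:ℝ) * x = q) (hx0 : 0 < x)
    (hx : x ≤ 1/1000) (hqx : 1 ≤ (q:ℝ) * x) :
    (((q:ℝ)+1)/q)^9 * (((c:ℝ)+2*q)/c)^3 ≤ 1 + 100 * x := by
  have hqr : (0:ℝ) < q := by exact_mod_cast hq0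
  have hcr : (0:ℝ) < c := by exact_mod_cast hc0
  have h1 : ((q:ℝ)+1)/q ≤ 1 + 2*x := by rw [div_le_iff₀ hqr]; linarith
  have h2 : ((c:ℝ)+2*q)/c ≤ 1 + 2*x := by rw [div_le_iff₀ hcr]; linarith
  have h10 : 0 ≤ ((q:ℝ)+1)/q := by positivity
  have h20 : 0 ≤ ((c:ℝ)+2*q)/c := by positivity
  have hxx : x * x ≤ x * (1/1000) := mul_le_mul_of_nonneg_left hx hx0.le
  have e2 : (1+2*x)^2 ≤ 1+5*x := by linarith [show (1+2*x)^2 = 1 + 4*x + 4*(x*x) by ring]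
  have e4 : (1+2*x)^4 ≤ 1+11*x := by
    calc (1+2*x)^4 = ((1+2*x)^2)^2 := by ring
      _ ≤ (1+5*x)^2 := by gcongr
      _ = 1 + 10*x + 25*(x*x) := by ring
      _ ≤ _ := by linarith
  have e12 : (1+2*x)^12 ≤ 1 + 35*x := by
    calc (1+2*x)^12 = ((1+2*x)^4)^2 * (1+2*x)^4 := by ring
      _ ≤ (1+11*x)^2 * (1+11*x) := by gcongr
      _ = (1 + 22*x + 121*(x*x)) * (1+11*x) := by ring
      _ ≤ (1 + 23*x) * (1+11*x) := by
        apply mul_le_mul_of_nonneg_right _ (by linarith)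
        linarith
      _ = 1 + 34*x + 253*(x*x) := by ring
      _ ≤ _ := by linarith
  calc (((q:ℝ)+1)/q)^9 * (((c:ℝ)+2*q)/c)^3 ≤ (1+2*x)^9 * (1+2*x)^3 := by gcongr
    _ = (1+2*x)^12 := by ring
    _ ≤ 1 + 35*x := e12
    _ ≤ 1 + 100*x := by linarith

lemma bound_cast (S : ℕ) (hS : S ≤ 10^8) (x R : ℝ) (hx : 0 ≤ x) (h : |R| * 10^20 ≤ (S:ℝ) * x) :
    |R| * 10^20 ≤ 10^8 * x := by
  have : (S:ℝ) ≤ 10^8 := by exact_mod_cast hS
  exact h.trans (mul_le_mul_of_nonneg_right this hx)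

lemma bound_cast' (S : ℕ) (hS : S ≤ 10^8) (x R : ℝ) (hx : 0 ≤ x)
    (h : |R| ≤ (S:ℝ) * x * (10^8)^(2*17+1)) : |R| ≤ 10^8 * x * (10^8)^35 := by
  have : (S:ℝ) ≤ 10^8 := by exact_mod_cast hS
  refine h.trans ?_
  gcongr

theorem region_C (q c lam y V N h : ℤ) (hq : 2 ≤ q) (hc : (10^20)^20 * q ≤ c)
    (E1 : c * (q+1) * lam = q * (c+q) * (c+q-1)) (E2 : (c + 2*q) * (y - 1) = q * (lam - 1))
    (A1 : h * (q+1) = (c-1)*(c-2))
    (hV : V*(c*(q+1)^2) = (c+q)*(c^2+3*c*q+q^2-q))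
    (hN : N*(c*(q+1)^3*(c+2*q)) = c^5 + 8*q*c^4 + 24*q^2*c^3 + 6*q*c^3 + 32*q^3*c^2 + 9*q^2*c^2 + c^3
      + 17*q^4*c - q^3*c + 2*q*c^2 + 3*q^5 - 2*q^4 - 3*q^2*c + c^4 - q^3 - q*c)
    (hl : lam*(c*(q+1)) = q*(c+q)*(c+q-1))
    (hy : y*(c*(q+1)*(c+2*q)) = c*(q+1)*(c+2*q) + q*(q*(c+q)*(c+q-1) - c*(q+1)))
    (hy2 : q + 2 ≤ y) : False := by
  have hq0 : 0 < q := by linarith
  have h10 : 10 * q ≤ c := by
    have h1 : (10:ℤ) * q ≤ (10^20)^20 * q := mul_le_mul_of_nonneg_right (by norm_num) hq0.le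
    linarith
  have hc0 : 0 < c := by linarith
  have htor := torsor_main q c lam y h hq h10 E1 E2 A1 hy2
  have hqr : (0:ℝ) < q := by exact_mod_cast hq0
  have hcr : (0:ℝ) < c := by exact_mod_cast hc0
  obtain ⟨x, hxdef⟩ : ∃ x : ℝ, x = (q:ℝ)/c := ⟨_, rfl⟩
  have hx0 : 0 < x := by rw [hxdef]; positivity
  have hqx : (c:ℝ) * x = q := by rw [hxdef]; field_simp
  have hx : x * (10^20)^20 ≤ 1 := by
    have h1 : ((10:ℝ)^20)^20 * q ≤ c := by exact_mod_cast hc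
    rw [hxdef, div_mul_eq_mul_div, div_le_one hcr]
    linarith
  have hx1000 : x ≤ 1/1000 := by
    rw [le_div_iff₀ (by norm_num)]
    refine le_trans ?_ hx
    apply mul_le_mul_of_nonneg_left _ hx0.le
    norm_num
  have hx1 : x ≤ 1 := by linarith
  have hxM : x * (10^20)^18 ≤ 1 := by
    refine le_trans ?_ hx
    apply mul_le_mul_of_nonneg_left _ hx0.le
    norm_num
  have hxM15 : x * (10^20)^15 ≤ 1 := by
    refine le_trans ?_ hx
    apply mul_le_mul_of_nonneg_left _ hx0.le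
    norm_num
  have hT3 : 3 ≤ (q:ℝ) * x^3 := by
    have h1 : (3:ℝ) * (c:ℝ)^3 < (q:ℝ)^4 := by exact_mod_cast htor
    have h2 : (q:ℝ) * x^3 * (c:ℝ)^3 = (q:ℝ)^4 := by
      calc (q:ℝ) * x^3 * (c:ℝ)^3 = (q:ℝ) * ((c:ℝ)*x)^3 := by ring
        _ = (q:ℝ)^4 := by rw [hqx]; ring
    have h3 : (3:ℝ) * (c:ℝ)^3 ≤ (q:ℝ) * x^3 * (c:ℝ)^3 := by rw [h2]; exact h1.le
    exact le_of_mul_le_mul_right h3 (by positivity)
  have hqxx : 1 ≤ (q:ℝ) * x := by
    have h1 : (q:ℝ) * x^3 ≤ q * x := by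
      apply mul_le_mul_of_nonneg_left _ hqr.le
      calc x^3 ≤ x^1 := pow_le_pow_of_le_one hx0.le hx1 (by norm_num)
        _ = x := pow_one x
    linarith
  have hT4 : (q:ℝ) * x^4 = (q * x^3) * x := by ring
  have hT5 : (q:ℝ) * x^5 = (q * x^4) * x := by ring
  have hT6 : (q:ℝ) * x^6 = (q * x^5) * x := by ring
  have hT7 : (q:ℝ) * x^7 = (q * x^6) * x := by ring
  have hT8 : (q:ℝ) * x^8 = (q * x^7) * x := by ring
  have hΔ := delta_le q c x hq0 hc0 hqx hx0 hx1000 hqxx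
  have hΔ93 := delta_ge q c hq0 hc0 9 3
  have hM1 : (1:ℝ) ≤ 10^20 := by norm_num
  have hK1 : (1:ℝ) ≤ 10^8 := by norm_num
  -- window 3
  rcases le_or_gt (10^20 * ((q:ℝ) * x^4)) 1 with c4 | c4
  · obtain ⟨F, hF⟩ := g_ex q c lam y V N h hV hN A1 hl hy
    obtain ⟨R, hR1, hR2⟩ := window3_form q c F x ((q:ℝ)*x^3) (10^20) grest 2 2 (-9) 32 (-2)
      3 10 12 3 8 6 4 9 0 12 3 4 7 3 12 49 hq0 hc0 hx0 (by linarith) hqx rfl hM1
      (by linarith) (by rw [← hT4]; linarith) hxM15 (by norm_num) (by norm_num)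
      (by norm_num) (by norm_num) (by norm_num) (by norm_num) (by norm_num) (by norm_num)
      (by norm_num) (by norm_num) (by norm_num) (by norm_num) g_exp (by rw [hF]; ring)
    apply window3_contra F x ((q:ℝ)*x^3) _ R hx0 hx hT3 (by rw [← hT4]; linarith)
      (delta_ge q c hq0 hc0 7 3) _ (bound_cast _ g_sum x R hx0.le hR2)
    rw [hR1]; push_cast; ring
  have hM4 : 1 ≤ 10^20 * ((q:ℝ) * x^4) := c4.le
  have hP4 : 0 < (q:ℝ) * x^4 := by positivity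
  obtain ⟨F4, hF4⟩ := f4_ex q c lam y V N h hV hN A1 hl hy
  rcases le_or_gt (10^20 * ((q:ℝ) * x^5)) 1 with c5 | c5
  · obtain ⟨R, hR1, hR2⟩ := window4_form q c F4 x ((q:ℝ)*x^4) (10^20) f4rest 171 (-10) 5 2
      15 3 10 7 5 11 0 15 4 5 9 3 15 76 hq0 hc0 hx0 hP4 hqx rfl hM1
      hM4 (by rw [← hT5]; linarith) hxM (by norm_num) (by norm_num)
      (by norm_num) (by norm_num) (by norm_num) (by norm_num) (by norm_num) (by norm_num)
      (by norm_num) (by norm_num) f4_exp (by rw [hF4])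
    apply window4_contra F4 x ((q:ℝ)*x^4) _ R hx0 hx hP4 hM4 (by rw [← hT5]; linarith)
      hΔ93 _ (bound_cast _ f4_sum x R hx0.le hR2)
    rw [hR1]; push_cast; ring
  have hM5 : 1 ≤ 10^20 * ((q:ℝ) * x^5) := c5.le
  have hP5 : 0 < (q:ℝ) * x^5 := by positivity
  obtain ⟨F5, hF5⟩ := f5_ex q c lam y V N h hV hN A1 hl hy
  rcases le_or_gt (10^20 * ((q:ℝ) * x^6)) 1 with c6 | c6
  · obtain ⟨R, hR1, hR2⟩ := window_form q c F5 x ((q:ℝ)*x^5) (10^20) f5rest 77 (-178) 57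
      16 2 10 7 4 12 5 5 9 3 16 93 hq0 hc0 hx0 hP5 hqx rfl hM1
      hM5 (by rw [← hT6]; linarith) hxM (by norm_num) (by norm_num)
      (by norm_num) (by norm_num) (by norm_num) (by norm_num) (by norm_num) (by norm_num)
      f5_exp (by rw [hF5])
    obtain ⟨R', hR1', hR2'⟩ := lead_form q c F4 x ((q:ℝ)*x^5) (10^8)
      ((-10, 10, 7) :: (5, 5, 11) :: (2, 0, 15) :: f4rest) 171 15 3 5 5 9 3 17 93
      hq0 hc0 hx0 hx1 hP5 hqx rfl hK1 (by norm_num) (by norm_num) (by norm_num) (by norm_num)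
      f4_exp1 (by rw [hF4]; simp only [evZ]; ring)
    exact window_contra 77 (-178) 57 171 F5 F4 x ((q:ℝ)*x^5) _ R R' (by norm_num) (by norm_num)
      (by norm_num) (by norm_num) (by norm_num) (by norm_num) (by norm_num) hx0 hx hP5 hM5
      (by rw [← hT6]; linarith) hΔ93 hΔ hR1 (bound_cast _ f5_sum x R hx0.le hR2) hR1'
      (fun h1 h2 => bound_cast' _ f4_sum1 x R' hx0.le (hR2' h1 h2)) hne5
  have hM6 : 1 ≤ 10^20 * ((q:ℝ) * x^6) := c6.le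
  have hP6 : 0 < (q:ℝ) * x^6 := by positivity
  obtain ⟨F6, hF6⟩ := f6_ex q c lam y V N h hV hN A1 hl hy
  rcases le_or_gt (10^20 * ((q:ℝ) * x^7)) 1 with c7 | c7
  · obtain ⟨R, hR1, hR2⟩ := window_form q c F6 x ((q:ℝ)*x^6) (10^20) f6rest 41 (-796) 77
      17 1 10 7 3 13 6 5 9 3 16 110 hq0 hc0 hx0 hP6 hqx rfl hM1
      hM6 (by rw [← hT7]; linarith) hxM (by norm_num) (by norm_num)
      (by norm_num) (by norm_num) (by norm_num) (by norm_num) (by norm_num) (by norm_num)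
      f6_exp (by rw [hF6])
    obtain ⟨R', hR1', hR2'⟩ := lead_form q c F5 x ((q:ℝ)*x^6) (10^8)
      ((-178, 10, 7) :: (57, 4, 12) :: f5rest) 77 16 2 6 5 9 3 17 110
      hq0 hc0 hx0 hx1 hP6 hqx rfl hK1 (by norm_num) (by norm_num) (by norm_num) (by norm_num)
      f5_exp1 (by rw [hF5]; simp only [evZ]; ring)
    exact window_contra 41 (-796) 77 77 F6 F5 x ((q:ℝ)*x^6) _ R R' (by norm_num) (by norm_num)
      (by norm_num) (by norm_num) (by norm_num) (by norm_num) (by norm_num) hx0 hx hP6 hM6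
      (by rw [← hT7]; linarith) hΔ93 hΔ hR1 (bound_cast _ f6_sum x R hx0.le hR2) hR1'
      (fun h1 h2 => bound_cast' _ f5_sum1 x R' hx0.le (hR2' h1 h2)) hne6
  have hM7 : 1 ≤ 10^20 * ((q:ℝ) * x^7) := c7.le
  have hP7 : 0 < (q:ℝ) * x^7 := by positivity
  obtain ⟨F7, hF7⟩ := f7_ex q c lam y V N h hV hN A1 hl hy
  rcases le_or_gt (10^20 * ((q:ℝ) * x^8)) 1 with c8 | c8
  · obtain ⟨R, hR1, hR2⟩ := window_form q c F7 x ((q:ℝ)*x^7) (10^20) f7rest 32 1817 (-82)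
      18 0 10 7 2 14 7 5 9 3 16 127 hq0 hc0 hx0 hP7 hqx rfl hM1
      hM7 (by rw [← hT8]; linarith) hxM (by norm_num) (by norm_num)
      (by norm_num) (by norm_num) (by norm_num) (by norm_num) (by norm_num) (by norm_num)
      f7_exp (by rw [hF7])
    obtain ⟨R', hR1', hR2'⟩ := lead_form q c F6 x ((q:ℝ)*x^7) (10^8)
      ((-796, 10, 7) :: (77, 3, 13) :: f6rest) 41 17 1 7 5 9 3 17 127
      hq0 hc0 hx0 hx1 hP7 hqx rfl hK1 (by norm_num) (by norm_num) (by norm_num) (by norm_num)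
      f6_exp1 (by rw [hF6]; simp only [evZ]; ring)
    exact window_contra 32 1817 (-82) 41 F7 F6 x ((q:ℝ)*x^7) _ R R' (by norm_num) (by norm_num)
      (by norm_num) (by norm_num) (by norm_num) (by norm_num) (by norm_num) hx0 hx hP7 hM7
      (by rw [← hT8]; linarith) hΔ93 hΔ hR1 (bound_cast _ f7_sum x R hx0.le hR2) hR1'
      (fun h1 h2 => bound_cast' _ f6_sum1 x R' hx0.le (hR2' h1 h2)) hne7
  have hM8 : 1 ≤ 10^20 * ((q:ℝ) * x^8) := c8.le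
  have hP8 : 0 < (q:ℝ) * x^8 := by positivity
  obtain ⟨F8, hF8⟩ := f8_ex q c lam y V N h hV hN A1 hl hy
  obtain ⟨R, hR1, hR2⟩ := window8_form q c F8 x ((q:ℝ)*x^8) (10^20) f8rest 113 (-12)
      9 5 0 13 8 4 8 2 13 118 hq0 hc0 hx0 hP8 hqx rfl hM1
      hM8 hxM15 (by norm_num) (by norm_num)
      (by norm_num) (by norm_num) (by norm_num) (by norm_num)
      f8_exp (by rw [hF8])
  obtain ⟨R', hR1', hR2'⟩ := lead_form q c F7 x ((q:ℝ)*x^8) (10^8)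
      ((1817, 10, 7) :: (-82, 2, 14) :: f7rest) 32 18 0 8 5 9 3 17 144
      hq0 hc0 hx0 hx1 hP8 hqx rfl hK1 (by norm_num) (by norm_num) (by norm_num) (by norm_num)
      f7_exp1 (by rw [hF7]; simp only [evZ]; ring)
  exact window8_contra F8 F7 x ((q:ℝ)*x^8) _ _ R R' hx0 hx hP8 hM8 (delta_ge q c hq0 hc0 8 2)
    hΔ93 hΔ (by rw [hR1]; push_cast; ring) (bound_cast _ f8_sum x R hx0.le hR2)
    (by rw [hR1']; push_cast; ring)
    (fun h1 h2 => bound_cast' _ f7_sum1 x R' hx0.le (hR2' h1 h2))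

end Pool.Agent.MPa53b92
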