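import Pool.Agent.Work.MP_a53b92_co.RegionAB
import Pool.Agent.Work.MP_a53b92_co.RegionC
import Pool.Agent.Work.MP_a53b92_co.Arith
import Pool.Agent.Work.MP_a53b92_co.Elliptic
import Pool.Agent.Work.MP_a53b92_co.Design

set_option autoImplicit false

namespace Pool.Agent.MPa53b92

theorem q_bounded : ∃ Q0 : ℤ, 0 ≤ Q0 ∧ ∀ q c lam y : ℤ, 2 ≤ q → 0 ≤ c → q < y →
    (c + 2*q) * (y - 1) = q * (lam - 1) → c * (q+1) * lam = q * (c+q) * (c+q-1) → 1 ≤ c ∧ q ≤ Q0 := by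
  have hRpos : (1:ℤ) ≤ (10^20)^20 := one_le_pow₀ (one_le_pow₀ (by norm_num))
  obtain ⟨R, hR⟩ : ∃ R : ℤ, R = (10^20)^20 := ⟨_, rfl⟩
  rw [← hR] at hRpos
  have hQpos : 0 ≤ 30^5*(2*14^2*5^2*13^3)*R^18 := by positivity
  refine ⟨5 + 30^5*(2*14^2*5^2*13^3)*R^18, by linarith, ?_⟩
  intro q c lam y hq hc hqy E2 E1
  have hq0 : 0 < q := by linarith
  have hc1 : 1 ≤ c := by
    by_contra hcon
    have hc0 : c = 0 := by omega
    subst hc0
    have h1 : q * (q * (q - 1)) = 0 := by linear_combination -E1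
    have h2 : 0 < q * (q * (q - 1)) := mul_pos hq0 (mul_pos hq0 (by linarith))
    linarith
  refine ⟨hc1, ?_⟩
  obtain ⟨V, N, h, A1, A3, A4, A5⟩ := integral_quantities q c lam y E1 E2 (by omega)
  obtain ⟨hV, hl, hy, hN⟩ := numerators q c lam y V N h E1 E2 A1 A3 A4
  rcases (show y = q + 1 ∨ q + 2 ≤ y by omega) with hy1 | hy2
  · have hlam : lam = c + 2*q + 1 := by
      have h1 : q * (lam - (c + 2*q + 1)) = 0 := by
        rw [hy1] at E2; linear_combination -E2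
      rcases mul_eq_zero.mp h1 with h | h
      · exact absurd h hq0.ne'
      · linarith
    have h2 : (2*(c+2*q)+1)^2 = 4*y^3 - 4*y + 1 := by
      rw [hlam] at E1
      rw [hy1]
      linear_combination 4*E1
    rcases elliptic_37a y _ (by linarith) h2 with h | h | h <;> linarith
  · by_cases hA : 30*c ≤ q
    · exact (region_A q c V N h hq hc1 hA A1 hV hN).elim
    · by_cases hB : c ≤ R*q
      · have := region_B R q c V N hRpos (by linarith) hc1 hB (by linarith) hV hN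
        linarith
      · push Not at hB
        rw [hR] at hB
        exact (region_C q c lam y V N h hq hB.le E1 E2 A1 hV hN hl hy hy2).elim

theorem v_bounded : ∃ M : ℤ, ∀ q c r lam y k v : ℤ, 2 ≤ q → 0 ≤ c → q < y → k = (q+1)*y →
    r = (q+1)*lam + q + c →
    (c + 2*q) * (y - 1) = q * (lam - 1) → c * (q+1) * lam = q * (c+q) * (c+q-1) →
    r * (k-1) = lam * (v-1) → v ≤ M := by
  obtain ⟨Q, hQ0, hQ⟩ := q_bounded
  obtain ⟨C, hC⟩ : ∃ C : ℤ, C = Q^3 := ⟨_, rfl⟩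
  obtain ⟨Lm, hLm⟩ : ∃ C' : ℤ, C' = Q * (C+Q) * (C+Q) := ⟨_, rfl⟩
  obtain ⟨Y, hY⟩ : ∃ C' : ℤ, C' = Q * Lm + 1 := ⟨_, rfl⟩
  obtain ⟨K, hK⟩ : ∃ C' : ℤ, C' = (Q+1) * Y := ⟨_, rfl⟩
  obtain ⟨Rr, hRr⟩ : ∃ C' : ℤ, C' = (Q+1) * Lm + Q + C := ⟨_, rfl⟩
  refine ⟨Rr * K + 1, ?_⟩
  intro q c r lam y k v hq hc hqy hk hr E2 E1 E3
  obtain ⟨hc1, hqQ⟩ := hQ q c lam y hq hc hqy E2 E1
  have hq0 : 0 < q := by linarith
  have hc0 : 0 < c := by linarith
  have hC0 : 0 ≤ C := by rw [hC]; positivity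
  have hcC : c ≤ C := by
    have hd : c ∣ q^2*(q-1) := by
      refine ⟨(q+1)*lam - q*(c + 2*q - 1), ?_⟩
      linear_combination -E1
    have h1 : 0 < q^2*(q-1) := mul_pos (by positivity) (by linarith)
    have h2 := Int.le_of_dvd h1 hd
    have h3 : q^2*(q-1) ≤ q^3 := by
      have : 0 < q^2 := by positivity
      linarith
    have h4 : q^3 ≤ Q^3 := pow_le_pow_left₀ hq0.le hqQ 3
    linarith
  have hpos : 0 < q * (c+q) * (c+q-1) := mul_pos (mul_pos hq0 (by linarith)) (by linarith)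
  have hcX : 0 < c * (q+1) := mul_pos hc0 (by linarith)
  have hlam0 : 0 < lam := by
    rw [← E1] at hpos
    exact (mul_pos_iff_of_pos_left hcX).mp hpos
  have hlam : lam ≤ Lm := by
    have h1 : 1 * lam ≤ c * (q+1) * lam := mul_le_mul_of_nonneg_right hcX hlam0.le
    have h2 : q * (c+q) * (c+q-1) ≤ Q * (C+Q) * (C+Q) := by
      apply mul_le_mul _ (by linarith) (by linarith) (by positivity)
      exact mul_le_mul hqQ (by linarith) (by linarith) hQ0
    rw [hLm]; linarith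
  have hLm0 : 0 ≤ Lm := by linarith
  have hyY : y ≤ Y := by
    have h1 : 1 * (y-1) ≤ (c+2*q) * (y-1) := mul_le_mul_of_nonneg_right (by linarith) (by linarith)
    have h2 : q * (lam - 1) ≤ Q * Lm := mul_le_mul hqQ (by linarith) (by linarith) hQ0
    rw [hY]; linarith
  have hkK : k ≤ K := by
    rw [hk, hK]
    exact mul_le_mul (by linarith) hyY (by linarith) (by linarith)
  have hrR : r ≤ Rr := by
    rw [hr, hRr]
    have : (q+1)*lam ≤ (Q+1)*Lm := mul_le_mul (by linarith) hlam hlam0.le (by linarith)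
    linarith
  have hr0 : 0 < r := by
    rw [hr]
    have : 0 < (q+1)*lam := mul_pos (by linarith) hlam0
    linarith
  have hk0 : 1 ≤ k := by
    rw [hk]
    have : 0 < (q+1)*y := mul_pos (by linarith) (by linarith)
    linarith
  have h1 : r * (k-1) ≤ Rr * K := mul_le_mul hrR (by linarith) (by linarith) (by linarith)
  have hv1 : 0 ≤ v - 1 := by
    have h2 : 0 ≤ lam * (v-1) := by
      rw [← E3]; exact mul_nonneg hr0.le (by linarith)
    exact nonneg_of_mul_nonneg_right h2 hlam0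
  have h3 : 1 * (v-1) ≤ lam * (v-1) := mul_le_mul_of_nonneg_right hlam0 hv1
  linarith

theorem main_finiteness :
    ∃ N : ℕ, ∀ (v k lam y : ℕ) (B : Finset (Finset (Fin v))),
      2 ≤ y → 2 * y < k → k < y * (y + 1) →
      (∀ b ∈ B, b.card = k) →
      (∀ p q : Fin v, p ≠ q → (B.filter (fun b => p ∈ b ∧ q ∈ b)).card = lam) →
      (∀ b ∈ B, ∀ c ∈ B, b ≠ c → (b ∩ c).card = 0 ∨ (b ∩ c).card = y) →
      (∃ b ∈ B, ∃ c ∈ B, b ≠ c ∧ (b ∩ c).card = 0) →
      (∃ b ∈ B, ∃ c ∈ B, b ≠ c ∧ (b ∩ c).card = y) →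
      (¬ ∃ a ∈ B, ∃ b ∈ B, ∃ c ∈ B, Disjoint a b ∧ Disjoint a c ∧ Disjoint b c) →
      v ≤ N := by
  obtain ⟨M, hM⟩ := v_bounded
  refine ⟨M.toNat, ?_⟩
  intro v k lam y B hy hk1 hk2 hcard hlam hint h0 h1 htri
  obtain ⟨q, c, r, hq, hc, hqy, hk, hr, E2, E1, E3⟩ :=
    design_params k lam y B hy hk1 hk2 hcard hlam hint h0 h1 htri
  have := hM q c r lam y k v hq hc hqy hk hr E2 E1 E3
  omega

end Pool.Agent.MPa53b92
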