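import Mathlib

set_option autoImplicit false

namespace Pool.Agent.MPa53b92

/-- evaluation of a list of monomials `coef * q^A * c^B` -/
def evZ : List (ℤ × ℕ × ℕ) → ℤ → ℤ → ℤ
  | [], _, _ => 0
  | t :: l, q, c => t.1 * q ^ t.2.1 * c ^ t.2.2 + evZ l q c

def evR : List (ℤ × ℕ × ℕ) → ℝ → ℝ → ℝ
  | [], _, _ => 0
  | t :: l, q, c => (t.1:ℝ) * q ^ t.2.1 * c ^ t.2.2 + evR l q c

def sumAbs : List (ℤ × ℕ × ℕ) → ℕ
  | [] => 0
  | t :: l => t.1.natAbs + sumAbs l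

lemma evZ_cast (l : List (ℤ × ℕ × ℕ)) (q c : ℤ) : ((evZ l q c : ℤ) : ℝ) = evR l q c := by
  induction l with
  | nil => simp [evZ, evR]
  | cons t l ih => simp only [evZ, evR]; push_cast; rw [ih]

lemma evR_bound (l : List (ℤ × ℕ × ℕ)) (q c E K : ℝ) (hq : 0 ≤ q) (hc : 0 ≤ c) (hE : 0 ≤ E)
    (h : ∀ t ∈ l, q ^ t.2.1 * c ^ t.2.2 * E ≤ K) : |evR l q c| * E ≤ (sumAbs l : ℝ) * K := by
  induction l with
  | nil => simp [evR, sumAbs]
  | cons t l ih =>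
    simp only [evR, sumAbs]
    have h1 := ih (fun s hs => h s (List.mem_cons_of_mem _ hs))
    have h2 := h t List.mem_cons_self
    have h3 : |(t.1:ℝ) * q ^ t.2.1 * c ^ t.2.2 + evR l q c| ≤ |(t.1:ℝ)| * (q ^ t.2.1 * c ^ t.2.2) + |evR l q c| := by
      refine (abs_add_le _ _).trans ?_
      rw [mul_assoc, abs_mul, abs_of_nonneg (show 0 ≤ q ^ t.2.1 * c ^ t.2.2 by positivity)]
    have h4 : |(t.1:ℝ)| = ((t.1.natAbs : ℕ) : ℝ) := by
      rw [Nat.cast_natAbs]; push_cast; rfl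
    push_cast
    calc |(t.1:ℝ) * q ^ t.2.1 * c ^ t.2.2 + evR l q c| * E
        ≤ (|(t.1:ℝ)| * (q ^ t.2.1 * c ^ t.2.2) + |evR l q c|) * E := mul_le_mul_of_nonneg_right h3 hE
      _ = |(t.1:ℝ)| * (q ^ t.2.1 * c ^ t.2.2 * E) + |evR l q c| * E := by ring
      _ ≤ |(t.1:ℝ)| * K + (sumAbs l : ℝ) * K := add_le_add (mul_le_mul_of_nonneg_left h2 (abs_nonneg _)) h1
      _ = _ := by rw [h4]; ring

lemma mono_eq (q c x T : ℝ) (m : ℕ) (hq : c * x = q) (hT : q * x ^ m = T) (A B e E0 : ℕ)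
    (h : m * A + (m+1) * B + e = E0) : q ^ A * c ^ B * x ^ E0 = T ^ (A + B) * x ^ e := by
  have h1 : c * x ^ (m+1) = T := by rw [pow_succ, mul_comm (x^m) x, ← mul_assoc, hq, hT]
  calc q ^ A * c ^ B * x ^ E0 = (q * x^m)^A * (c * x^(m+1))^B * x^e := by
        rw [← h, pow_add, pow_add, pow_mul, pow_mul, mul_pow, mul_pow]; ring
    _ = T ^ (A + B) * x ^ e := by rw [hT, h1, pow_add]

/-- all exponents at least two -/
lemma rest2_bound (l : List (ℤ × ℕ × ℕ)) (q c x T M : ℝ) (m n0 E0 : ℕ) (hq0 : 0 < q) (hc0 : 0 < c)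
    (hx0 : 0 < x) (hT0 : 0 < T) (hq : c * x = q) (hT : q * x ^ m = T)
    (hM : 1 ≤ M) (hMT : 1 ≤ M * T) (hTx : T * x * M ≤ 1) (hxM : x * M ^ (n0+1) ≤ 1)
    (h : ∀ t ∈ l, t.2.1 + t.2.2 ≤ n0 + 1 ∧ m * t.2.1 + (m+1) * t.2.2 + 2 ≤ E0) :
    |evR l q c| * x ^ E0 * M ≤ (sumAbs l : ℝ) * (T ^ n0 * x) := by
  have hx1 : x ≤ 1 := by
    have : x * 1 ≤ x * M ^ (n0+1) := mul_le_mul_of_nonneg_left (one_le_pow₀ hM) hx0.le
    linarith
  have hMpos : 0 < M := by linarith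
  have hb : ∀ t ∈ l, q ^ t.2.1 * c ^ t.2.2 * (x ^ E0 * M) ≤ T ^ n0 * x := by
    intro t ht
    obtain ⟨h1, h2⟩ := h t ht
    obtain ⟨e, he⟩ := Nat.exists_eq_add_of_le h2
    have heq := mono_eq q c x T m hq hT t.2.1 t.2.2 (2 + e) E0 (by omega)
    rw [← mul_assoc, heq]
    have hxe : x ^ (2 + e) ≤ x ^ 2 := pow_le_pow_of_le_one hx0.le hx1 (by omega)
    set s := t.2.1 + t.2.2 with hs
    have hTs : 0 < T ^ s := by positivity
    rcases Nat.lt_or_ge n0 s with hlt | hge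
    · have hsn : s = n0 + 1 := by omega
      rw [hsn]
      calc T ^ (n0+1) * x ^ (2+e) * M ≤ T ^ (n0+1) * x ^ 2 * M := by gcongr
        _ = T ^ n0 * x * (T * x * M) := by ring
        _ ≤ T ^ n0 * x * 1 := by gcongr
        _ = _ := by ring
    · obtain ⟨d, hd⟩ := Nat.exists_eq_add_of_le hge
      have hMd : 1 ≤ (M*T)^d := one_le_pow₀ hMT
      have hMn : M ^ d ≤ M ^ n0 := pow_le_pow_right₀ hM (by omega)
      calc T ^ s * x ^ (2+e) * M ≤ T ^ s * x ^ 2 * M := by gcongr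
        _ ≤ (T ^ s * (M*T)^d) * x ^ 2 * M := by
            have : T ^ s * 1 ≤ T ^ s * (M*T)^d := mul_le_mul_of_nonneg_left hMd hTs.le
            gcongr
            linarith
        _ = T ^ n0 * M ^ d * x^2 * M := by rw [hd, mul_pow, pow_add]; ring
        _ ≤ T ^ n0 * M ^ n0 * x^2 * M := by gcongr
        _ = T ^ n0 * x * (x * M^(n0+1)) := by ring
        _ ≤ T ^ n0 * x * 1 := by gcongr
        _ = _ := by ring
  have := evR_bound l q c (x ^ E0 * M) (T ^ n0 * x) hq0.le hc0.le (by positivity) hb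
  rw [← mul_assoc] at this
  exact this

/-- all exponents at least one, `T` bounded above -/
lemma rest1_bound (l : List (ℤ × ℕ × ℕ)) (q c x T K : ℝ) (m n0 E0 : ℕ) (hq0 : 0 < q) (hc0 : 0 < c)
    (hx0 : 0 < x) (hx1 : x ≤ 1) (hT0 : 0 < T) (hq : c * x = q) (hT : q * x ^ m = T)
    (hK : 1 ≤ K) (hTK : T ≤ K)
    (h : ∀ t ∈ l, t.2.1 + t.2.2 ≤ n0 + 1 ∧ m * t.2.1 + (m+1) * t.2.2 + 1 ≤ E0) :
    |evR l q c| * x ^ E0 ≤ (sumAbs l : ℝ) * (K ^ (n0+1) * x) := by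
  apply evR_bound l q c (x ^ E0) _ hq0.le hc0.le (by positivity)
  intro t ht
  obtain ⟨h1, h2⟩ := h t ht
  obtain ⟨e, he⟩ := Nat.exists_eq_add_of_le h2
  have heq := mono_eq q c x T m hq hT t.2.1 t.2.2 (1 + e) E0 (by omega)
  rw [heq]
  have hxe : x ^ (1 + e) ≤ x := by
    calc x ^ (1+e) ≤ x ^ 1 := pow_le_pow_of_le_one hx0.le hx1 (by omega)
      _ = x := pow_one x
  have hTs : T ^ (t.2.1 + t.2.2) ≤ K ^ (n0+1) :=
    (pow_le_pow_left₀ hT0.le hTK _).trans (pow_le_pow_right₀ hK h1)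
  gcongr

end Pool.Agent.MPa53b92
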