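import Pool.Agent.Work.MP_a53b92_co.Asym

set_option autoImplicit false

namespace Pool.Agent.MPa53b92

lemma transfer (q c x T : ℝ) (m i j k : ℕ) (hq0 : 0 < q) (hc0 : 0 < c) (hq : c * x = q)
    (hT : q * x ^ m = T) (F P : ℝ) (h : F * (c^i*(q+1)^j*(c+2*q)^k) = P) :
    F * (((q+1)/q)^j * ((c+2*q)/c)^k) * T^(i+j+k) = P * x^(m*j+(m+1)*(i+k)) := by
  have h1 := mono_eq q c x T m hq hT j (i+k) 0 (m*j+(m+1)*(i+k)) (by ring)
  rw [pow_zero, mul_one] at h1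
  rw [show i+j+k = j+(i+k) by ring, ← h1, ← h, div_pow, div_pow]
  have hqj : q^j ≠ 0 := by positivity
  have hck : c^k ≠ 0 := by positivity
  have e1 : F * ((q+1)^j / q^j * ((c+2*q)^k/c^k)) * (q^j * c^(i+k) * x^(m*j+(m+1)*(i+k)))
     = F * (c^i * ((q+1)^j / q^j * q^j) * ((c+2*q)^k/c^k * c^k)) * x^(m*j+(m+1)*(i+k)) := by
    rw [pow_add c i k]; ring
  rw [e1, div_mul_cancel₀ _ hqj, div_mul_cancel₀ _ hck]

lemma transferZ (q c F : ℤ) (x T : ℝ) (m i j k : ℕ) (hq0 : 0 < q) (hc0 : 0 < c) (hq : (c:ℝ) * x = q)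
    (hT : (q:ℝ) * x ^ m = T) (P : ℤ) (h : F * (c^i*(q+1)^j*(c+2*q)^k) = P) :
    (F:ℝ) * ((((q:ℝ)+1)/q)^j * (((c:ℝ)+2*q)/c)^k) * T^(i+j+k) = (P:ℝ) * x^(m*j+(m+1)*(i+k)) := by
  apply transfer q c x T m i j k (by exact_mod_cast hq0) (by exact_mod_cast hc0) hq hT
  rw [← h]; push_cast; ring

/-- three leading terms of order one -/
lemma window_form (q c F : ℤ) (x T M : ℝ) (rest : List (ℤ × ℕ × ℕ)) (a1 a2 a3 : ℤ)
    (A1 B1 A2 B2 A3 B3 m i j k n1 E0 : ℕ)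
    (hq0 : 0 < q) (hc0 : 0 < c) (hx0 : 0 < x) (hT0 : 0 < T) (hq : (c:ℝ) * x = q) (hT : (q:ℝ) * x ^ m = T)
    (hM : 1 ≤ M) (hMT : 1 ≤ M * T) (hTx : T * x * M ≤ 1) (hxM : x * M ^ (n1+1+1) ≤ 1)
    (hn : i+j+k = n1+1) (hE : m*j+(m+1)*(i+k) = E0)
    (h1 : A1 + B1 = n1+2) (h1' : m*A1+(m+1)*B1+1 = E0)
    (h2 : A2 + B2 = n1+1) (h2' : m*A2+(m+1)*B2+1 = E0)
    (h3 : A3 + B3 = n1) (h3' : m*A3+(m+1)*B3+1 = E0)
    (hr : ∀ t ∈ rest, t.2.1 + t.2.2 ≤ (n1+1) + 1 ∧ m * t.2.1 + (m+1) * t.2.2 + 2 ≤ E0)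
    (h : F * (c^i*(q+1)^j*(c+2*q)^k) = a1*q^A1*c^B1 + a2*q^A2*c^B2 + a3*q^A3*c^B3 + evZ rest q c) :
    ∃ R : ℝ, (F:ℝ) * ((((q:ℝ)+1)/q)^j * (((c:ℝ)+2*q)/c)^k) = x * (a1 * T + a2 + a3 / T) + R ∧
      |R| * M ≤ (sumAbs rest : ℝ) * x := by
  have hqr : (0:ℝ) < q := by exact_mod_cast hq0
  have hcr : (0:ℝ) < c := by exact_mod_cast hc0
  have key := transferZ q c F x T m i j k hq0 hc0 hq hT _ h
  rw [hE, hn] at key
  push_cast at key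
  rw [evZ_cast] at key
  have m1 := mono_eq (q:ℝ) c x T m hq hT A1 B1 1 E0 h1'
  have m2 := mono_eq (q:ℝ) c x T m hq hT A2 B2 1 E0 h2'
  have m3 := mono_eq (q:ℝ) c x T m hq hT A3 B3 1 E0 h3'
  rw [h1, pow_one] at m1
  rw [h2, pow_one] at m2
  rw [h3, pow_one] at m3
  have hTn : T^(n1+1) ≠ 0 := by positivity
  have hTpos : 0 < T^(n1+1) := by positivity
  refine ⟨evR rest q c * x^E0 / T^(n1+1), ?_, ?_⟩
  · apply mul_right_cancel₀ hTn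
    rw [key]
    have e1 : (x * (a1 * T + a2 + a3 / T) + evR rest q c * x^E0 / T^(n1+1)) * T^(n1+1) =
        a1 * (T^(n1+2) * x) + a2 * (T^(n1+1) * x) + a3 * ((1/T*T) * T^n1 * x)
          + (evR rest q c * x^E0 / T^(n1+1) * T^(n1+1)) := by
      rw [pow_succ T (n1+1), pow_succ T n1]; ring
    rw [e1, div_mul_cancel₀ _ hTn, one_div_mul_cancel hT0.ne', one_mul, ← m1, ← m2, ← m3]
    ring
  · have hb := rest2_bound rest q c x T M m (n1+1) E0 hqr hcr hx0 hT0 hq hT hM hMT hTx hxM hr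
    rw [abs_div, abs_mul, abs_of_pos (show 0 < x^E0 by positivity), abs_of_pos hTpos,
      div_mul_eq_mul_div, div_le_iff₀ hTpos]
    linarith

/-- one leading term of order zero -/
lemma lead_form (q c F : ℤ) (x T K : ℝ) (rest : List (ℤ × ℕ × ℕ)) (a1 : ℤ)
    (A1 B1 m i j k n0 E0 : ℕ)
    (hq0 : 0 < q) (hc0 : 0 < c) (hx0 : 0 < x) (hx1 : x ≤ 1) (hT0 : 0 < T) (hq : (c:ℝ) * x = q)
    (hT : (q:ℝ) * x ^ m = T)
    (hK : 1 ≤ K)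
    (hn : i+j+k = n0) (hE : m*j+(m+1)*(i+k) = E0)
    (h1 : A1 + B1 = n0+1) (h1' : m*A1+(m+1)*B1 = E0)
    (hr : ∀ t ∈ rest, t.2.1 + t.2.2 ≤ n0 + 1 ∧ m * t.2.1 + (m+1) * t.2.2 + 1 ≤ E0)
    (h : F * (c^i*(q+1)^j*(c+2*q)^k) = a1*q^A1*c^B1 + evZ rest q c) :
    ∃ R : ℝ, (F:ℝ) * ((((q:ℝ)+1)/q)^j * (((c:ℝ)+2*q)/c)^k) = a1 * T + R ∧
      (T ≤ K → 1 ≤ K * T → |R| ≤ (sumAbs rest : ℝ) * x * K^(2*n0+1)) := by
  have hqr : (0:ℝ) < q := by exact_mod_cast hq0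
  have hcr : (0:ℝ) < c := by exact_mod_cast hc0
  have key := transferZ q c F x T m i j k hq0 hc0 hq hT _ h
  rw [hE, hn] at key
  push_cast at key
  rw [evZ_cast] at key
  have m1 := mono_eq (q:ℝ) c x T m hq hT A1 B1 0 E0 (by omega)
  rw [h1, pow_zero, mul_one] at m1
  have hTn : T^n0 ≠ 0 := by positivity
  have hTpos : 0 < T^n0 := by positivity
  refine ⟨evR rest q c * x^E0 / T^n0, ?_, ?_⟩
  · apply mul_right_cancel₀ hTn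
    rw [key]
    have e1 : (a1 * T + evR rest q c * x^E0 / T^n0) * T^n0 =
        a1 * T^(n0+1) + (evR rest q c * x^E0 / T^n0 * T^n0) := by
      rw [pow_succ T n0]; ring
    rw [e1, div_mul_cancel₀ _ hTn, ← m1]
    ring
  · intro hTK hKT
    have hb := rest1_bound rest q c x T K m n0 E0 hqr hcr hx0 hx1 hT0 hq hT hK hTK hr
    rw [abs_div, abs_mul, abs_of_pos (show 0 < x^E0 by positivity), abs_of_pos hTpos,
      div_le_iff₀ hTpos]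
    have h2 : 1 ≤ (K*T)^n0 := one_le_pow₀ hKT
    have h3 : 0 ≤ (sumAbs rest : ℝ) * (K ^ (n0+1) * x) := by positivity
    calc |evR rest q c| * x^E0 ≤ (sumAbs rest : ℝ) * (K ^ (n0+1) * x) * 1 := by linarith
      _ ≤ (sumAbs rest : ℝ) * (K ^ (n0+1) * x) * (K*T)^n0 := mul_le_mul_of_nonneg_left h2 h3
      _ = (sumAbs rest : ℝ) * x * K^(2*n0+1) * T^n0 := by
        rw [mul_pow, show 2*n0+1 = (n0+1) + n0 by ring, pow_add K (n0+1) n0]; ring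

/-- all exponents at least two, no growth in `T` -/
lemma rest3_bound (l : List (ℤ × ℕ × ℕ)) (q c x T M : ℝ) (m n0 E0 : ℕ) (hq0 : 0 < q) (hc0 : 0 < c)
    (hx0 : 0 < x) (hT0 : 0 < T) (hq : c * x = q) (hT : q * x ^ m = T)
    (hM : 1 ≤ M) (hMT : 1 ≤ M * T) (hxM : x * M ^ (n0+1) ≤ 1)
    (h : ∀ t ∈ l, t.2.1 + t.2.2 ≤ n0 ∧ m * t.2.1 + (m+1) * t.2.2 + 2 ≤ E0) :
    |evR l q c| * x ^ E0 * M ≤ (sumAbs l : ℝ) * (T ^ n0 * x) := by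
  have hx1 : x ≤ 1 := by
    have : x * 1 ≤ x * M ^ (n0+1) := mul_le_mul_of_nonneg_left (one_le_pow₀ hM) hx0.le
    linarith
  have hMpos : 0 < M := by linarith
  have hb : ∀ t ∈ l, q ^ t.2.1 * c ^ t.2.2 * (x ^ E0 * M) ≤ T ^ n0 * x := by
    intro t ht
    obtain ⟨h1, h2⟩ := h t ht
    obtain ⟨e, he⟩ := Nat.exists_eq_add_of_le h2
    have heq := mono_eq q c x T m hq hT t.2.1 t.2.2 (2 + e) E0 (by omega)
    rw [← mul_assoc, heq]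
    have hxe : x ^ (2 + e) ≤ x ^ 2 := pow_le_pow_of_le_one hx0.le hx1 (by omega)
    set s := t.2.1 + t.2.2 with hs
    have hTs : 0 < T ^ s := by positivity
    obtain ⟨d, hd⟩ := Nat.exists_eq_add_of_le h1
    have hMd : 1 ≤ (M*T)^d := one_le_pow₀ hMT
    have hMn : M ^ d ≤ M ^ n0 := pow_le_pow_right₀ hM (by omega)
    calc T ^ s * x ^ (2+e) * M ≤ T ^ s * x ^ 2 * M := by gcongr
      _ ≤ (T ^ s * (M*T)^d) * x ^ 2 * M := by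
          have : T ^ s * 1 ≤ T ^ s * (M*T)^d := mul_le_mul_of_nonneg_left hMd hTs.le
          gcongr
          linarith
      _ = T ^ n0 * M ^ d * x^2 * M := by rw [hd, mul_pow, pow_add]; ring
      _ ≤ T ^ n0 * M ^ n0 * x^2 * M := by gcongr
      _ = T ^ n0 * x * (x * M^(n0+1)) := by ring
      _ ≤ T ^ n0 * x * 1 := by gcongr
      _ = _ := by ring
  have := evR_bound l q c (x ^ E0 * M) (T ^ n0 * x) hq0.le hc0.le (by positivity) hb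
  rw [← mul_assoc] at this
  exact this

/-- two leading terms of order one, used for `f8` -/
lemma window8_form (q c F : ℤ) (x T M : ℝ) (rest : List (ℤ × ℕ × ℕ)) (a1 a2 : ℤ)
    (A1 B1 A2 B2 m i j k n1 E0 : ℕ)
    (hq0 : 0 < q) (hc0 : 0 < c) (hx0 : 0 < x) (hT0 : 0 < T) (hq : (c:ℝ) * x = q) (hT : (q:ℝ) * x ^ m = T)
    (hM : 1 ≤ M) (hMT : 1 ≤ M * T) (hxM : x * M ^ (n1+1+1) ≤ 1)
    (hn : i+j+k = n1+1) (hE : m*j+(m+1)*(i+k) = E0)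
    (h1 : A1 + B1 = n1+1) (h1' : m*A1+(m+1)*B1+1 = E0)
    (h2 : A2 + B2 = n1) (h2' : m*A2+(m+1)*B2+1 = E0)
    (hr : ∀ t ∈ rest, t.2.1 + t.2.2 ≤ n1+1 ∧ m * t.2.1 + (m+1) * t.2.2 + 2 ≤ E0)
    (h : F * (c^i*(q+1)^j*(c+2*q)^k) = a1*q^A1*c^B1 + a2*q^A2*c^B2 + evZ rest q c) :
    ∃ R : ℝ, (F:ℝ) * ((((q:ℝ)+1)/q)^j * (((c:ℝ)+2*q)/c)^k) = x * (a1 + a2 / T) + R ∧
      |R| * M ≤ (sumAbs rest : ℝ) * x := by
  have hqr : (0:ℝ) < q := by exact_mod_cast hq0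
  have hcr : (0:ℝ) < c := by exact_mod_cast hc0
  have key := transferZ q c F x T m i j k hq0 hc0 hq hT _ h
  rw [hE, hn] at key
  push_cast at key
  rw [evZ_cast] at key
  have m1 := mono_eq (q:ℝ) c x T m hq hT A1 B1 1 E0 h1'
  have m2 := mono_eq (q:ℝ) c x T m hq hT A2 B2 1 E0 h2'
  rw [h1, pow_one] at m1
  rw [h2, pow_one] at m2
  have hTn : T^(n1+1) ≠ 0 := by positivity
  have hTpos : 0 < T^(n1+1) := by positivity
  refine ⟨evR rest q c * x^E0 / T^(n1+1), ?_, ?_⟩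
  · apply mul_right_cancel₀ hTn
    rw [key]
    have e1 : (x * (a1 + a2 / T) + evR rest q c * x^E0 / T^(n1+1)) * T^(n1+1) =
        a1 * (T^(n1+1) * x) + a2 * ((1/T*T) * T^n1 * x)
          + (evR rest q c * x^E0 / T^(n1+1) * T^(n1+1)) := by
      rw [pow_succ T n1]; ring
    rw [e1, div_mul_cancel₀ _ hTn, one_div_mul_cancel hT0.ne', one_mul, ← m1, ← m2]
    ring
  · have hb := rest3_bound rest q c x T M m (n1+1) E0 hqr hcr hx0 hT0 hq hT hM hMT hxM hr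
    rw [abs_div, abs_mul, abs_of_pos (show 0 < x^E0 by positivity), abs_of_pos hTpos,
      div_mul_eq_mul_div, div_le_iff₀ hTpos]
    linarith

/-- four leading terms of order one, used for `f4` -/
lemma window4_form (q c F : ℤ) (x T M : ℝ) (rest : List (ℤ × ℕ × ℕ)) (a1 a2 a3 a4 : ℤ)
    (A1 B1 A2 B2 A3 B3 A4 B4 m i j k n2 E0 : ℕ)
    (hq0 : 0 < q) (hc0 : 0 < c) (hx0 : 0 < x) (hT0 : 0 < T) (hq : (c:ℝ) * x = q) (hT : (q:ℝ) * x ^ m = T)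
    (hM : 1 ≤ M) (hMT : 1 ≤ M * T) (hTx : T * x * M ≤ 1) (hxM : x * M ^ (n2+2+1) ≤ 1)
    (hn : i+j+k = n2+2) (hE : m*j+(m+1)*(i+k) = E0)
    (h1 : A1 + B1 = n2+3) (h1' : m*A1+(m+1)*B1+1 = E0)
    (h2 : A2 + B2 = n2+2) (h2' : m*A2+(m+1)*B2+1 = E0)
    (h3 : A3 + B3 = n2+1) (h3' : m*A3+(m+1)*B3+1 = E0)
    (h4 : A4 + B4 = n2) (h4' : m*A4+(m+1)*B4+1 = E0)
    (hr : ∀ t ∈ rest, t.2.1 + t.2.2 ≤ (n2+2) + 1 ∧ m * t.2.1 + (m+1) * t.2.2 + 2 ≤ E0)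
    (h : F * (c^i*(q+1)^j*(c+2*q)^k) = a1*q^A1*c^B1 + a2*q^A2*c^B2 + a3*q^A3*c^B3
      + a4*q^A4*c^B4 + evZ rest q c) :
    ∃ R : ℝ, (F:ℝ) * ((((q:ℝ)+1)/q)^j * (((c:ℝ)+2*q)/c)^k) =
        x * (a1 * T + a2 + a3 / T + a4 / T^2) + R ∧
      |R| * M ≤ (sumAbs rest : ℝ) * x := by
  have hqr : (0:ℝ) < q := by exact_mod_cast hq0
  have hcr : (0:ℝ) < c := by exact_mod_cast hc0
  have key := transferZ q c F x T m i j k hq0 hc0 hq hT _ h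
  rw [hE, hn] at key
  push_cast at key
  rw [evZ_cast] at key
  have m1 := mono_eq (q:ℝ) c x T m hq hT A1 B1 1 E0 h1'
  have m2 := mono_eq (q:ℝ) c x T m hq hT A2 B2 1 E0 h2'
  have m3 := mono_eq (q:ℝ) c x T m hq hT A3 B3 1 E0 h3'
  have m4 := mono_eq (q:ℝ) c x T m hq hT A4 B4 1 E0 h4'
  rw [h1, pow_one] at m1
  rw [h2, pow_one] at m2
  rw [h3, pow_one] at m3
  rw [h4, pow_one] at m4
  have hTn : T^(n2+2) ≠ 0 := by positivity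
  have hTpos : 0 < T^(n2+2) := by positivity
  have hT2 : T^2 ≠ 0 := by positivity
  refine ⟨evR rest q c * x^E0 / T^(n2+2), ?_, ?_⟩
  · apply mul_right_cancel₀ hTn
    rw [key]
    have e1 : (x * (a1 * T + a2 + a3 / T + a4 / T^2) + evR rest q c * x^E0 / T^(n2+2)) * T^(n2+2) =
        a1 * (T^(n2+3) * x) + a2 * (T^(n2+2) * x) + a3 * ((1/T*T) * T^(n2+1) * x)
          + a4 * ((1/T^2*T^2) * T^n2 * x)
          + (evR rest q c * x^E0 / T^(n2+2) * T^(n2+2)) := by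
      rw [pow_succ T (n2+2), pow_succ T (n2+1), pow_succ T n2]; ring
    rw [e1, div_mul_cancel₀ _ hTn, one_div_mul_cancel hT0.ne', one_div_mul_cancel hT2,
      one_mul, one_mul, ← m1, ← m2, ← m3, ← m4]
    ring
  · have hb := rest2_bound rest q c x T M m (n2+2) E0 hqr hcr hx0 hT0 hq hT hM hMT hTx hxM hr
    rw [abs_div, abs_mul, abs_of_pos (show 0 < x^E0 by positivity), abs_of_pos hTpos,
      div_mul_eq_mul_div, div_le_iff₀ hTpos]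
    linarith

/-- one term of order zero and four of order one, used for `g` -/
lemma window3_form (q c F : ℤ) (x T M : ℝ) (rest : List (ℤ × ℕ × ℕ)) (a0 a1 a2 a3 a4 : ℤ)
    (A0 B0 A1 B1 A2 B2 A3 B3 A4 B4 m i j k n2 E0 : ℕ)
    (hq0 : 0 < q) (hc0 : 0 < c) (hx0 : 0 < x) (hT0 : 0 < T) (hq : (c:ℝ) * x = q) (hT : (q:ℝ) * x ^ m = T)
    (hM : 1 ≤ M) (hMT : 1 ≤ M * T) (hTx : T * x * M ≤ 1) (hxM : x * M ^ (n2+2+1) ≤ 1)
    (hn : i+j+k = n2+2) (hE : m*j+(m+1)*(i+k) = E0)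
    (h0 : A0 + B0 = n2+1) (h0' : m*A0+(m+1)*B0 = E0)
    (h1 : A1 + B1 = n2+3) (h1' : m*A1+(m+1)*B1+1 = E0)
    (h2 : A2 + B2 = n2+2) (h2' : m*A2+(m+1)*B2+1 = E0)
    (h3 : A3 + B3 = n2+1) (h3' : m*A3+(m+1)*B3+1 = E0)
    (h4 : A4 + B4 = n2) (h4' : m*A4+(m+1)*B4+1 = E0)
    (hr : ∀ t ∈ rest, t.2.1 + t.2.2 ≤ (n2+2) + 1 ∧ m * t.2.1 + (m+1) * t.2.2 + 2 ≤ E0)
    (h : F * (c^i*(q+1)^j*(c+2*q)^k) = a0*q^A0*c^B0 + a1*q^A1*c^B1 + a2*q^A2*c^B2 + a3*q^A3*c^B3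
      + a4*q^A4*c^B4 + evZ rest q c) :
    ∃ R : ℝ, (F:ℝ) * ((((q:ℝ)+1)/q)^j * (((c:ℝ)+2*q)/c)^k) =
        a0 / T + x * (a1 * T + a2 + a3 / T + a4 / T^2) + R ∧
      |R| * M ≤ (sumAbs rest : ℝ) * x := by
  have hqr : (0:ℝ) < q := by exact_mod_cast hq0
  have hcr : (0:ℝ) < c := by exact_mod_cast hc0
  have key := transferZ q c F x T m i j k hq0 hc0 hq hT _ h
  rw [hE, hn] at key
  push_cast at key
  rw [evZ_cast] at key
  have m0 := mono_eq (q:ℝ) c x T m hq hT A0 B0 0 E0 (by omega)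
  have m1 := mono_eq (q:ℝ) c x T m hq hT A1 B1 1 E0 h1'
  have m2 := mono_eq (q:ℝ) c x T m hq hT A2 B2 1 E0 h2'
  have m3 := mono_eq (q:ℝ) c x T m hq hT A3 B3 1 E0 h3'
  have m4 := mono_eq (q:ℝ) c x T m hq hT A4 B4 1 E0 h4'
  rw [h0, pow_zero, mul_one] at m0
  rw [h1, pow_one] at m1
  rw [h2, pow_one] at m2
  rw [h3, pow_one] at m3
  rw [h4, pow_one] at m4
  have hTn : T^(n2+2) ≠ 0 := by positivity
  have hTpos : 0 < T^(n2+2) := by positivity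
  have hT2 : T^2 ≠ 0 := by positivity
  refine ⟨evR rest q c * x^E0 / T^(n2+2), ?_, ?_⟩
  · apply mul_right_cancel₀ hTn
    rw [key]
    have e1 : (a0 / T + x * (a1 * T + a2 + a3 / T + a4 / T^2) + evR rest q c * x^E0 / T^(n2+2)) * T^(n2+2) =
        a0 * ((1/T*T) * T^(n2+1)) +
        a1 * (T^(n2+3) * x) + a2 * (T^(n2+2) * x) + a3 * ((1/T*T) * T^(n2+1) * x)
          + a4 * ((1/T^2*T^2) * T^n2 * x)
          + (evR rest q c * x^E0 / T^(n2+2) * T^(n2+2)) := by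
      rw [pow_succ T (n2+2), pow_succ T (n2+1), pow_succ T n2]; ring
    rw [e1, div_mul_cancel₀ _ hTn, one_div_mul_cancel hT0.ne', one_div_mul_cancel hT2]
    rw [one_mul, one_mul, ← m1, ← m2, ← m3, ← m4, ← m0]
    ring
  · have hb := rest2_bound rest q c x T M m (n2+2) E0 hqr hcr hx0 hT0 hq hT hM hMT hTx hxM hr
    rw [abs_div, abs_mul, abs_of_pos (show 0 < x^E0 by positivity), abs_of_pos hTpos,
      div_mul_eq_mul_div, div_le_iff₀ hTpos]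
    linarith

end Pool.Agent.MPa53b92
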