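import Mathlib

set_option autoImplicit false

namespace Pool.Agent.MPa53b92

theorem psi_identity (q c V N : ℚ) (hc : c ≠ 0) (hX : q+1 ≠ 0) (hL : c+2*q ≠ 0)
    (hV : V*(c*(q+1)^2) = (c+q)*(c^2+3*c*q+q^2-q))
    (hN : N*(c*(q+1)^3*(c+2*q)) = c^5 + 8*q*c^4 + 24*q^2*c^3 + 6*q*c^3 + 32*q^3*c^2 + 9*q^2*c^2 + c^3
      + 17*q^4*c - q^3*c + 2*q*c^2 + 3*q^5 - 2*q^4 - 3*q^2*c + c^4 - q^3 - q*c) :
    (N^3+N^2+V*(2*N^3+N^2+N)-V^2*(3*N^2+N+1)+V^3*(2-N)+V^4*(5-2*N)+3*V^5)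
        * (c^5*(q+1)^11*(c+2*q)^3) =
      (c+q)*(c+4*q^2+7*q*c+2*c^2)^2*(c^2+3*c*q+q^2-q)^2
        *(c^3+4*c^2*q+5*c*q^2+q^3+c*q-q^2+c)^3 := by
  set Q1 := c+4*q^2+7*q*c+2*c^2 with hQ1
  set Q2 := c^2+3*c*q+q^2-q with hQ2
  set Q3 := c^3+4*c^2*q+5*c*q^2+q^3+c*q-q^2+c with hQ3
  have hD : c*(q+1)^2 ≠ 0 := by positivity
  have hE : (q+1)*(c+2*q) ≠ 0 := mul_ne_zero hX hL
  obtain ⟨t, ht⟩ : ∃ t : ℚ, t * (c*(q+1)^2) = Q3 := ⟨Q3 / (c*(q+1)^2), div_mul_cancel₀ _ hD⟩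
  obtain ⟨μ, hμ⟩ : ∃ μ : ℚ, μ * ((q+1)*(c+2*q)) = Q2 := ⟨Q2 / ((q+1)*(c+2*q)), div_mul_cancel₀ _ hE⟩
  have hVt : V = t - 1 := by
    have : (V - (t-1)) * (c*(q+1)^2) = 0 := by
      rw [sub_mul, hV, sub_mul, ht, hQ2, hQ3]; ring
    rcases mul_eq_zero.mp this with h | h
    · linarith
    · exact absurd h hD
  have hNt : N = t - 1 + t * μ := by
    have hDE : (c*(q+1)^2)*((q+1)*(c+2*q)) ≠ 0 := mul_ne_zero hD hE
    have : (N - (t-1+t*μ)) * ((c*(q+1)^2)*((q+1)*(c+2*q))) = 0 := by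
      have e : (N - (t-1+t*μ)) * ((c*(q+1)^2)*((q+1)*(c+2*q))) = N*(c*(q+1)^3*(c+2*q))
        - (t*(c*(q+1)^2))*((q+1)*(c+2*q)) + (c*(q+1)^2)*((q+1)*(c+2*q))
        - (t*(c*(q+1)^2))*(μ*((q+1)*(c+2*q))) := by ring
      rw [e, hN, ht, hμ, hQ2, hQ3]; ring
    rcases mul_eq_zero.mp this with h | h
    · linarith
    · exact absurd h hDE
  have h1t : (t - 1) * (c*(q+1)^2) = (c+q)*Q2 := by
    rw [← hVt]; exact hV
  have h1m : (1 + 2*μ) * ((q+1)*(c+2*q)) = Q1 := by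
    have e : (1 + 2*μ) * ((q+1)*(c+2*q)) = (q+1)*(c+2*q) + 2*(μ*((q+1)*(c+2*q))) := by ring
    rw [e, hμ, hQ1, hQ2]; ring
  have hpsi : c * ((1-2*μ)*t^2+(-2+7*μ+3*μ^2+2*μ^3)*t+(1-5*μ-2*μ^2-μ^3)) = (t-1)*μ*(1+2*μ)^2 := by
    have hDE : (c*(q+1)^2)^2*((q+1)*(c+2*q))^3 ≠ 0 := mul_ne_zero (pow_ne_zero _ hD) (pow_ne_zero _ hE)
    have key : (c * ((1-2*μ)*t^2+(-2+7*μ+3*μ^2+2*μ^3)*t+(1-5*μ-2*μ^2-μ^3)) - (t-1)*μ*(1+2*μ)^2)
        * ((c*(q+1)^2)^2*((q+1)*(c+2*q))^3) = 0 := by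
      have e : (c * ((1-2*μ)*t^2+(-2+7*μ+3*μ^2+2*μ^3)*t+(1-5*μ-2*μ^2-μ^3)) - (t-1)*μ*(1+2*μ)^2)
        * ((c*(q+1)^2)^2*((q+1)*(c+2*q))^3) =
        c * ((((q+1)*(c+2*q))^3 - 2*(μ*((q+1)*(c+2*q)))*((q+1)*(c+2*q))^2) * (t*(c*(q+1)^2))^2
          + (-2*((q+1)*(c+2*q))^3 + 7*(μ*((q+1)*(c+2*q)))*((q+1)*(c+2*q))^2
            + 3*(μ*((q+1)*(c+2*q)))^2*((q+1)*(c+2*q)) + 2*(μ*((q+1)*(c+2*q)))^3)
              * (t*(c*(q+1)^2)) * (c*(q+1)^2)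
          + (((q+1)*(c+2*q))^3 - 5*(μ*((q+1)*(c+2*q)))*((q+1)*(c+2*q))^2
            - 2*(μ*((q+1)*(c+2*q)))^2*((q+1)*(c+2*q)) - (μ*((q+1)*(c+2*q)))^3) * (c*(q+1)^2)^2)
        - ((t-1) * (c*(q+1)^2)) * (c*(q+1)^2) * (μ*((q+1)*(c+2*q)))
            * ((1 + 2*μ) * ((q+1)*(c+2*q)))^2 := by ring
      rw [e, ht, hμ, h1t, h1m, hQ1, hQ2, hQ3]
      ring
    rcases mul_eq_zero.mp key with h | h
    · linarith
    · exact absurd h hDE
  have e1 : (N^3+N^2+V*(2*N^3+N^2+N)-V^2*(3*N^2+N+1)+V^3*(2-N)+V^4*(5-2*N)+3*V^5) =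
      t^3 * ((1-2*μ)*t^2+(-2+7*μ+3*μ^2+2*μ^3)*t+(1-5*μ-2*μ^2-μ^3)) := by
    rw [hNt, hVt]; ring
  rw [e1]
  have e2 : t^3 * ((1-2*μ)*t^2+(-2+7*μ+3*μ^2+2*μ^3)*t+(1-5*μ-2*μ^2-μ^3))
        * (c^5*(q+1)^11*(c+2*q)^3) =
      (c * ((1-2*μ)*t^2+(-2+7*μ+3*μ^2+2*μ^3)*t+(1-5*μ-2*μ^2-μ^3)))
        * (t^3 * (c^4*(q+1)^11*(c+2*q)^3)) := by ring
  rw [e2, hpsi]
  have e3 : (t-1)*μ*(1+2*μ)^2 * (t^3 * (c^4*(q+1)^11*(c+2*q)^3)) =
      ((t-1) * (c*(q+1)^2)) * (μ*((q+1)*(c+2*q))) * ((1 + 2*μ) * ((q+1)*(c+2*q)))^2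
        * (t*(c*(q+1)^2))^3 := by ring
  rw [e3, h1t, hμ, h1m, ht]
  ring

theorem region_B (R q c V N : ℤ) (hR : 1 ≤ R) (hq : 1 ≤ q) (hc : 1 ≤ c) (h1 : c ≤ R*q) (h2 : q ≤ 30*c)
    (hV : V*(c*(q+1)^2) = (c+q)*(c^2+3*c*q+q^2-q))
    (hN : N*(c*(q+1)^3*(c+2*q)) = c^5 + 8*q*c^4 + 24*q^2*c^3 + 6*q*c^3 + 32*q^3*c^2 + 9*q^2*c^2 + c^3
      + 17*q^4*c - q^3*c + 2*q*c^2 + 3*q^5 - 2*q^4 - 3*q^2*c + c^4 - q^3 - q*c) :
    q ≤ 30^5*(2*14^2*5^2*13^3)*R^18 := by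
  have hq0 : 0 < q := by linarith
  have hc0 : 0 < c := by linarith
  set Ψ : ℤ := N^3+N^2+V*(2*N^3+N^2+N)-V^2*(3*N^2+N+1)+V^3*(2-N)+V^4*(5-2*N)+3*V^5 with hΨ
  have key : Ψ * (c^5*(q+1)^11*(c+2*q)^3) =
      (c+q)*(c+4*q^2+7*q*c+2*c^2)^2*(c^2+3*c*q+q^2-q)^2
        *(c^3+4*c^2*q+5*c*q^2+q^3+c*q-q^2+c)^3 := by
    have hqr : (0:ℚ) < q := by exact_mod_cast hq0
    have hcr : (0:ℚ) < c := by exact_mod_cast hc0
    have := psi_identity (q:ℚ) (c:ℚ) (V:ℚ) (N:ℚ) (by positivity) (by positivity) (by positivity)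
      (by exact_mod_cast hV) (by exact_mod_cast hN)
    rw [hΨ]
    exact_mod_cast this
  have hQ1 : 0 < c+4*q^2+7*q*c+2*c^2 := by positivity
  have hqq : 0 ≤ q^2 - q := by
    have : 0 ≤ q * (q - 1) := mul_nonneg hq0.le (by linarith)
    linarith
  have hQ2 : 0 < c^2+3*c*q+q^2-q := by
    have : 0 < c^2 + 3*c*q := by positivity
    linarith
  have hq3 : 0 ≤ q^3 - q^2 := by
    have := mul_nonneg hq0.le hqq
    linarith
  have hQ3 : 0 < c^3+4*c^2*q+5*c*q^2+q^3+c*q-q^2+c := by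
    have : 0 < c^3 + 4*c^2*q + 5*c*q^2 + c*q + c := by positivity
    linarith
  have hden : 0 < c^5*(q+1)^11*(c+2*q)^3 := by positivity
  have hΨpos : 0 < Ψ := by
    have : 0 < Ψ * (c^5*(q+1)^11*(c+2*q)^3) := by rw [key]; positivity
    exact (mul_pos_iff_of_pos_right hden).mp this
  have hle : c^5*(q+1)^11*(c+2*q)^3 ≤ (c+q)*(c+4*q^2+7*q*c+2*c^2)^2*(c^2+3*c*q+q^2-q)^2
        *(c^3+4*c^2*q+5*c*q^2+q^3+c*q-q^2+c)^3 := by
    rw [← key]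
    have : 1 * (c^5*(q+1)^11*(c+2*q)^3) ≤ Ψ * (c^5*(q+1)^11*(c+2*q)^3) :=
      mul_le_mul_of_nonneg_right hΨpos hden.le
    linarith
  obtain ⟨D, hD⟩ : ∃ D, D = R * q := ⟨_, rfl⟩
  have hcD : c ≤ D := by rw [hD]; exact h1
  have hqD : q ≤ D := by
    rw [hD]
    have : 1 * q ≤ R * q := mul_le_mul_of_nonneg_right hR hq0.le
    linarith
  have hD0 : 0 < D := by linarith
  have b0 : c + q ≤ 2*D := by linarith
  have bcc : c^2 ≤ D^2 := pow_le_pow_left₀ hc0.le hcD 2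
  have bqq : q^2 ≤ D^2 := pow_le_pow_left₀ hq0.le hqD 2
  have bqc : q*c ≤ D^2 := by
    calc q*c ≤ D*D := mul_le_mul hqD hcD hc0.le hD0.le
      _ = D^2 := by ring
  have bD : D ≤ D^2 := by
    have : D * 1 ≤ D * D := mul_le_mul_of_nonneg_left (by linarith) hD0.le
    linarith
  have b1 : c+4*q^2+7*q*c+2*c^2 ≤ 14*D^2 := by linarith
  have b2 : c^2+3*c*q+q^2-q ≤ 5*D^2 := by linarith
  have bD3 : D^2 ≤ D^3 := by
    have : D^2 * 1 ≤ D^2 * D := mul_le_mul_of_nonneg_left (by linarith) (by positivity)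
    linarith
  have c3 : c^3 ≤ D^3 := pow_le_pow_left₀ hc0.le hcD 3
  have c2q : c^2*q ≤ D^3 := by
    calc c^2*q ≤ D^2*D := mul_le_mul bcc hqD hq0.le (by positivity)
      _ = D^3 := by ring
  have cq2 : c*q^2 ≤ D^3 := by
    calc c*q^2 ≤ D*D^2 := mul_le_mul hcD bqq (by positivity) hD0.le
      _ = D^3 := by ring
  have q3 : q^3 ≤ D^3 := pow_le_pow_left₀ hq0.le hqD 3
  have b3 : c^3+4*c^2*q+5*c*q^2+q^3+c*q-q^2+c ≤ 13*D^3 := by
    have : 0 < q^2 := by positivity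
    linarith
  have hub : (c+q)*(c+4*q^2+7*q*c+2*c^2)^2*(c^2+3*c*q+q^2-q)^2
        *(c^3+4*c^2*q+5*c*q^2+q^3+c*q-q^2+c)^3 ≤ (2*14^2*5^2*13^3)*D^18 := by
    calc (c+q)*(c+4*q^2+7*q*c+2*c^2)^2*(c^2+3*c*q+q^2-q)^2
        *(c^3+4*c^2*q+5*c*q^2+q^3+c*q-q^2+c)^3 ≤ (2*D)*(14*D^2)^2*(5*D^2)^2*(13*D^3)^3 := by gcongr
      _ = _ := by ring
  have hlb : q^19 ≤ 30^5 * (c^5*(q+1)^11*(c+2*q)^3) := by
    calc q^19 = q^5 * q^11 * q^3 := by ring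
      _ ≤ (30*c)^5 * (q+1)^11 * (c+2*q)^3 := by
        gcongr
        · linarith
        · linarith
      _ = _ := by ring
  have hfin : q^18 * q ≤ q^18 * (30^5*(2*14^2*5^2*13^3)*R^18) := by
    calc q^18 * q = q^19 := by ring
      _ ≤ 30^5 * (c^5*(q+1)^11*(c+2*q)^3) := hlb
      _ ≤ 30^5 * ((2*14^2*5^2*13^3)*D^18) := by linarith
      _ = _ := by rw [hD]; ring
  exact le_of_mul_le_mul_left hfin (by positivity)

theorem region_A (q c V N h : ℤ) (hq : 2 ≤ q) (hc : 1 ≤ c) (hA : 30*c ≤ q)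
    (A1 : h * (q+1) = (c-1)*(c-2))
    (hV : V*(c*(q+1)^2) = (c+q)*(c^2+3*c*q+q^2-q))
    (hN : N*(c*(q+1)^3*(c+2*q)) = c^5 + 8*q*c^4 + 24*q^2*c^3 + 6*q*c^3 + 32*q^3*c^2 + 9*q^2*c^2 + c^3
      + 17*q^4*c - q^3*c + 2*q*c^2 + 3*q^5 - 2*q^4 - 3*q^2*c + c^4 - q^3 - q*c) : False := by
  have hq0 : 0 < q := by linarith
  have hc0 : 0 < c := by linarith
  rcases (show c = 1 ∨ c = 2 ∨ 3 ≤ c by omega) with hc1 | hc2 | hc3
  · subst hc1
    have h1 : (q+1)^3 * (N*(1+2*q) - 3*(q+1)^2) = 0 := by linear_combination hN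
    have h2 : N*(1+2*q) = 3*(q+1)^2 := by
      rcases mul_eq_zero.mp h1 with h | h
      · exfalso
        have : 0 < (q+1)^3 := by positivity
        linarith
      · linarith
    have h3 : (2*q+1) ∣ 3 := ⟨4*N - 3*(2*q+1) - 6, by linear_combination -4*h2⟩
    have h4 := Int.le_of_dvd (by norm_num) h3
    linarith
  · subst hc2
    have h1 : (q+1) * (2*V*(q+1) - (q+2)*(q+4)) = 0 := by linear_combination hV
    have h2 : 2*V*(q+1) = (q+2)*(q+4) := by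
      rcases mul_eq_zero.mp h1 with h | h
      · exfalso; linarith
      · linarith
    have h3 : (q+1) ∣ 3 := ⟨2*V - (q+1) - 4, by linear_combination -h2⟩
    have h4 := Int.le_of_dvd (by norm_num) h3
    linarith
  · have hh : 1 ≤ h := by
      by_contra hcon
      push Not at hcon
      have h1 : h * (q+1) ≤ 0 := mul_nonpos_of_nonpos_of_nonneg (by linarith) (by linarith)
      have h2 : 0 < (c-1)*(c-2) := mul_pos (by linarith) (by linarith)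
      linarith
    have hqc : q + 1 ≤ (c-1)*(c-2) := by
      rw [← A1]
      have : 1 * (q+1) ≤ h * (q+1) := mul_le_mul_of_nonneg_right hh (by linarith)
      linarith
    have hqc' : q ≤ c^2 - 3*c + 1 := by linarith
    set F : ℤ := 7 + 6*V - 4*N with hF
    have key : F * (c*(q+1)^3*(c+2*q)) = 8*q^4-8*q^3+82*q^3*c-49*q^3*c^2+36*q^2*c+51*q^2*c^2
        -60*q^2*c^3+18*q*c+7*q*c^2+12*q*c^3-26*q*c^4+7*c^2-4*c^3+2*c^4-4*c^5 := by
      rw [hF]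
      linear_combination 6*(q+1)*(c+2*q)*hV - 4*hN
    have hden : 0 < c*(q+1)^3*(c+2*q) := by positivity
    -- positivity facts
    have hd : 0 ≤ q - 30*c := by linarith
    have hneg : F * (c*(q+1)^3*(c+2*q)) < 0 := by
      rw [key]
      have p1 : q^3*q ≤ q^3*(c^2 - 3*c + 1) := mul_le_mul_of_nonneg_left hqc' (by positivity)
      have p2 : 0 ≤ q^3*(c*(c-3)) := by
        have : 0 ≤ c - 3 := by linarith
        positivity
      have p3 : 0 ≤ (q*c)*(q*c)*(q - 30*c) := by positivity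
      have p4 : 90*(q*c)*(q*c) ≤ q*(q*c)*(q*c) := by
        have h90 : 90 ≤ q := by linarith
        have : 90 * ((q*c)*(q*c)) ≤ q * ((q*c)*(q*c)) := mul_le_mul_of_nonneg_right h90 (by positivity)
        linarith
      have p5 : q^2*c ≤ q^2*c^2 := by
        have : q^2*c*1 ≤ q^2*c*c := mul_le_mul_of_nonneg_left hc (by positivity)
        linarith
      have p6 : q*c ≤ q^2*c^2 := by
        have h0 : 0 < q*c := by positivity
        have h1 : 1 ≤ q*c := by linarith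
        have : (q*c)*1 ≤ (q*c)*(q*c) := mul_le_mul_of_nonneg_left h1 (by positivity)
        linarith
      have p7 : q*c^3 ≤ q*c^4 := by
        have : q*c^3*1 ≤ q*c^3*c := mul_le_mul_of_nonneg_left hc (by positivity)
        linarith
      have p8 : q*c^2 ≤ q*c^3 := by
        have : q*c^2*1 ≤ q*c^2*c := mul_le_mul_of_nonneg_left hc (by positivity)
        linarith
      have p9 : 0 < q^2*c^3 := by positivity
      have p10 : c^4 ≤ c^5 := by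
        have : c^4*1 ≤ c^4*c := mul_le_mul_of_nonneg_left hc (by positivity)
        linarith
      have p11 : 3*c^2 ≤ c^3 := by
        have : c^2*3 ≤ c^2*c := mul_le_mul_of_nonneg_left hc3 (by positivity)
        linarith
      have p12 : 0 < q*c^4 := by positivity
      have p13 : 0 < c^5 := by positivity
      have p14 : 0 < q^3*c^2 := by positivity
      have p15 : 0 < q^3*c := by positivity
      have p16 : 0 < q^3 := by positivity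
      have p17 : 0 < q^2*c^2 := by positivity
      linarith
    have hpos : 0 < (F + 1) * (c*(q+1)^3*(c+2*q)) := by
      have e : (F+1) * (c*(q+1)^3*(c+2*q)) = F * (c*(q+1)^3*(c+2*q)) + c*(q+1)^3*(c+2*q) := by ring
      rw [e, key]
      have e2 : 8*q^4-8*q^3+82*q^3*c-49*q^3*c^2+36*q^2*c+51*q^2*c^2
        -60*q^2*c^3+18*q*c+7*q*c^2+12*q*c^3-26*q*c^4+7*c^2-4*c^3+2*c^4-4*c^5 + c*(q+1)^3*(c+2*q)
        = (2*c + 8)*(q^3*q) + q^3*(-48*c^2+88*c-8) + q^2*(-60*c^3+54*c^2+42*c)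
          + q*(-26*c^4+12*c^3+10*c^2+20*c) + (8*c^2-4*c^3+2*c^4-4*c^5) := by ring
      rw [e2]
      have p1 : (2*c + 8)*(q^3*(30*c)) ≤ (2*c + 8)*(q^3*q) := by gcongr
      have p3 : 0 ≤ (q^2*c^2)*(q - 30*c) := by positivity
      have p4 : 0 ≤ (q*c^3)*(q - 30*c) := by positivity
      have p5 : 0 ≤ c^4*(q - 30*c) := by positivity
      have p6 : 0 < q^3*(c - 1) := mul_pos (by positivity) (by linarith)
      have p7 : 0 < q^2*c^2 := by positivity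
      have p8 : 0 < q^2*c := by positivity
      have p9 : 0 < q*c^3 := by positivity
      have p10 : 0 < q*c^2 := by positivity
      have p11 : 0 < q*c := by positivity
      have p12 : 0 < q^3*c := by positivity
      have p13 : 0 ≤ c^3*(c - 2) := by
        have : 0 ≤ c - 2 := by linarith
        positivity
      have p14 : 0 < c^2 := by positivity
      have p15 : 0 < q^2*c^3 := by positivity
      have p16 : 0 < q*c^4 := by positivity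
      have p17 : 0 < q^3*c^2 := by positivity
      linarith
    have h1 : F < 0 := by
      by_contra hcon
      push Not at hcon
      have := mul_nonneg hcon hden.le
      linarith
    have h2 : 0 < F + 1 := (mul_pos_iff_of_pos_right hden).mp hpos
    linarith

end Pool.Agent.MPa53b92
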